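import Mathlib

/-!
# Row and column finite matrices

`RCF Ω A` is the ring of the row and column finite matrices with rows and columns indexed by `Ω` over
the ring `A`, as a ring of endomorphisms of the free right `A`-module `Ω →₀ A`. The entry in the row
`y` and the column `x` is `ent T y x`, and `ent (T * U) y x = ∑ ent T y v * ent U v x`.
-/

set_option autoImplicit false

namespace Pool.Agent.TQ

open Finsupp

section Base

variable {Ω A : Type} [Ring A]

/-- The entry in the row `y` and the column `x`. -/
noncomputable def entE (T : Module.End Aᵐᵒᵖ (Ω →₀ A)) (y x : Ω) : A := T (single x 1) y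

theorem entE_apply (T : Module.End Aᵐᵒᵖ (Ω →₀ A)) (f : Ω →₀ A) (y : Ω) :
    T f y = f.sum fun x a => entE T y x * a := by
  classical
  induction f using Finsupp.induction_linear with
  | zero => simp
  | add f g hf hg =>
    rw [map_add, Finsupp.add_apply, hf, hg, Finsupp.sum_add_index']
    · intro x; simp
    · intro x a b; rw [mul_add]
  | single x a =>
    have h : (single x a : Ω →₀ A) = MulOpposite.op a • single x 1 := by
      rw [Finsupp.smul_single]
      simp
    rw [h, map_smul, Finsupp.smul_apply, ← h, Finsupp.sum_single_index (by simp)]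
    rfl

theorem entE_mul (T U : Module.End Aᵐᵒᵖ (Ω →₀ A)) (y x : Ω) :
    entE (T * U) y x = (U (single x 1)).sum fun v a => entE T y v * a := by
  rw [← entE_apply]
  rfl

theorem entE_ext {T U : Module.End Aᵐᵒᵖ (Ω →₀ A)} (h : ∀ y x, entE T y x = entE U y x) : T = U := by
  refine LinearMap.ext fun f => Finsupp.ext fun y => ?_
  rw [entE_apply, entE_apply]
  simp only [h]

end Base

/-- The ring of row and column finite matrices. -/
def RCF (Ω A : Type) [Ring A] : Subring (Module.End Aᵐᵒᵖ (Ω →₀ A)) where
  carrier := {T | ∀ y, {x | entE T y x ≠ 0}.Finite}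
  mul_mem' := by
    classical
    intro T U hT hU y
    refine Set.Finite.subset (((hT y).biUnion fun v _ => hU v)) fun x hx => ?_
    rw [Set.mem_setOf_eq, entE_mul, Finsupp.sum] at hx
    obtain ⟨v, _, hv⟩ := Finset.exists_ne_zero_of_sum_ne_zero hx
    simp only [Set.mem_iUnion, Set.mem_setOf_eq]
    exact ⟨v, left_ne_zero_of_mul hv, right_ne_zero_of_mul hv⟩
  one_mem' := by
    classical
    intro y
    refine Set.Finite.subset (Set.finite_singleton y) fun x hx => ?_
    by_contra hxy
    refine hx ?_
    rw [entE, Module.End.one_apply, Finsupp.single_apply, if_neg]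
    exact hxy
  add_mem' := by
    intro T U hT hU y
    refine Set.Finite.subset ((hT y).union (hU y)) fun x hx => ?_
    by_contra h
    rw [Set.mem_union, not_or] at h
    have h1 : entE T y x = 0 := by simpa using h.1
    have h2 : entE U y x = 0 := by simpa using h.2
    refine hx ?_
    have : entE (T + U) y x = entE T y x + entE U y x := rfl
    rw [this, h1, h2, add_zero]
  zero_mem' := by
    intro y
    have : {x | entE (0 : Module.End Aᵐᵒᵖ (Ω →₀ A)) y x ≠ 0} = ∅ := by
      ext x
      simp [entE]
    rw [this]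
    exact Set.finite_empty
  neg_mem' := by
    intro T hT y
    refine Set.Finite.subset (hT y) fun x hx => ?_
    rw [Set.mem_setOf_eq] at hx ⊢
    intro h
    refine hx ?_
    have : entE (-T) y x = - entE T y x := rfl
    rw [this, h, neg_zero]

section Ent

variable {Ω A : Type} [Ring A]

/-- The entry of a row and column finite matrix in the row `y` and the column `x`. -/
noncomputable def ent (T : RCF Ω A) (y x : Ω) : A := entE T.1 y x

theorem ent_ext {T U : RCF Ω A} (h : ∀ y x, ent T y x = ent U y x) : T = U :=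
  Subtype.ext (entE_ext h)

theorem ent_row (T : RCF Ω A) (y : Ω) : {x | ent T y x ≠ 0}.Finite := T.2 y

theorem ent_col (T : RCF Ω A) (x : Ω) : {y | ent T y x ≠ 0}.Finite :=
  Set.Finite.subset (T.1 (single x 1)).support.finite_toSet fun y hy => by
    simpa [ent, entE] using hy

theorem ent_add (T U : RCF Ω A) (y x : Ω) : ent (T + U) y x = ent T y x + ent U y x := rfl

theorem ent_sub (T U : RCF Ω A) (y x : Ω) : ent (T - U) y x = ent T y x - ent U y x := rfl

theorem ent_neg (T : RCF Ω A) (y x : Ω) : ent (-T) y x = - ent T y x := rfl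

theorem ent_zero (y x : Ω) : ent (0 : RCF Ω A) y x = 0 := rfl

theorem ent_one [DecidableEq Ω] (y x : Ω) : ent (1 : RCF Ω A) y x = if y = x then 1 else 0 := by
  have : ent (1 : RCF Ω A) y x = (single x 1 : Ω →₀ A) y := rfl
  rw [this, Finsupp.single_apply]
  simp only [eq_comm]

/-- The product: the sum may be taken over any finite set which contains the rows of the column `x` of
`U` with non-zero entry. -/
theorem ent_mul_col (T U : RCF Ω A) (y x : Ω) (s : Finset Ω) (hs : ∀ v, ent U v x ≠ 0 → v ∈ s) :
    ent (T * U) y x = ∑ v ∈ s, ent T y v * ent U v x := by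
  classical
  have h1 : ent (T * U) y x = (U.1 (single x 1)).sum fun v a => entE T.1 y v * a := entE_mul T.1 U.1 y x
  rw [h1, Finsupp.sum]
  refine (Finset.sum_subset (fun v hv => hs v ?_) fun v _ hv => ?_)
  · simpa [ent, entE] using hv
  · have : (U.1 (single x 1)) v = 0 := by simpa using hv
    rw [this, mul_zero]

/-- The product: the sum may be taken over any finite set which contains the columns of the row `y` of
`T` with non-zero entry. -/
theorem ent_mul_row (T U : RCF Ω A) (y x : Ω) (s : Finset Ω) (hs : ∀ v, ent T y v ≠ 0 → v ∈ s) :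
    ent (T * U) y x = ∑ v ∈ s, ent T y v * ent U v x := by
  classical
  rw [ent_mul_col T U y x (s ∪ (ent_col U x).toFinset) fun v hv => by
    rw [Finset.mem_union, Set.Finite.mem_toFinset]; exact Or.inr hv]
  refine (Finset.sum_subset Finset.subset_union_left fun v _ hv => ?_).symm
  have : ent T y v = 0 := by
    by_contra h
    exact hv (hs v h)
  rw [this, zero_mul]

theorem exists_of_ent_mul {T U : RCF Ω A} {y x : Ω} (h : ent (T * U) y x ≠ 0) :
    ∃ v, ent T y v * ent U v x ≠ 0 := by
  rw [ent_mul_col T U y x (ent_col U x).toFinset fun v hv => by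
    rw [Set.Finite.mem_toFinset]; exact hv] at h
  obtain ⟨v, _, hv⟩ := Finset.exists_ne_zero_of_sum_ne_zero h
  exact ⟨v, hv⟩

/-- The row and column finite matrix with given entries. -/
theorem exists_ent (a : Ω → Ω → A) (hr : ∀ y, {x | a y x ≠ 0}.Finite)
    (hc : ∀ x, {y | a y x ≠ 0}.Finite) : ∃ T : RCF Ω A, ∀ y x, ent T y x = a y x := by
  classical
  let c : Ω → (Ω →₀ A) := fun x => Finsupp.onFinset (hc x).toFinset (fun y => a y x) fun y hy => by
    rw [Set.Finite.mem_toFinset]; exact hy
  let T : Module.End Aᵐᵒᵖ (Ω →₀ A) :=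
    { toFun := fun f => f.sum fun x b => MulOpposite.op b • c x
      map_add' := fun f g => by
        rw [Finsupp.sum_add_index']
        · intro x; simp
        · intro x b b'; rw [MulOpposite.op_add, add_smul]
      map_smul' := fun b f => by
        rw [Finsupp.sum_smul_index' (by intro x; simp), RingHom.id_apply, Finsupp.smul_sum]
        refine Finsupp.sum_congr fun x _ => ?_
        rw [← mul_smul]
        congr 1 }
  have hT : ∀ y x, entE T y x = a y x := by
    intro y x
    have h1 : T (single x 1) = MulOpposite.op (1 : A) • c x := by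
      change (single x (1 : A)).sum (fun x b => MulOpposite.op b • c x) = _
      rw [Finsupp.sum_single_index (by simp)]
    rw [entE, h1, MulOpposite.op_one, one_smul]
    rfl
  refine ⟨⟨T, fun y => ?_⟩, hT⟩
  simp only [hT]
  exact hr y

/-- The row and column finite matrix with given entries. -/
noncomputable def mkK (a : Ω → Ω → A) (hr : ∀ y, {x | a y x ≠ 0}.Finite)
    (hc : ∀ x, {y | a y x ≠ 0}.Finite) : RCF Ω A := (exists_ent a hr hc).choose

theorem ent_mkK (a : Ω → Ω → A) (hr : ∀ y, {x | a y x ≠ 0}.Finite)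
    (hc : ∀ x, {y | a y x ≠ 0}.Finite) (y x : Ω) : ent (mkK a hr hc) y x = a y x :=
  (exists_ent a hr hc).choose_spec y x

end Ent

section Gr

variable {Ω L Γ : Type} [CommRing L] [Group Γ]

/-- The coefficient of `g` in the entry in the row `y` and the column `x`. -/
noncomputable def cf (T : RCF Ω (MonoidAlgebra L Γ)) (g : Γ) (y x : Ω) : L := (ent T y x).coeff g

theorem cf_ext {T U : RCF Ω (MonoidAlgebra L Γ)} (h : ∀ g y x, cf T g y x = cf U g y x) : T = U :=
  ent_ext fun y x => MonoidAlgebra.ext (Finsupp.ext fun g => h g y x)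

theorem cf_ne_of_ne {T : RCF Ω (MonoidAlgebra L Γ)} {g : Γ} {y x : Ω} (h : cf T g y x ≠ 0) :
    ent T y x ≠ 0 := by
  intro h0
  exact h (by rw [cf, h0]; rfl)

theorem cf_add (T U : RCF Ω (MonoidAlgebra L Γ)) (g : Γ) (y x : Ω) :
    cf (T + U) g y x = cf T g y x + cf U g y x := by
  rw [cf, ent_add, MonoidAlgebra.coeff_add]
  rfl

theorem cf_neg (T : RCF Ω (MonoidAlgebra L Γ)) (g : Γ) (y x : Ω) :
    cf (-T) g y x = - cf T g y x := by
  have h := cf_add (-T) T g y x
  rw [neg_add_cancel] at h
  have h0 : cf (0 : RCF Ω (MonoidAlgebra L Γ)) g y x = 0 := by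
    rw [cf, ent_zero, MonoidAlgebra.coeff_zero]
    rfl
  rw [h0] at h
  exact eq_neg_of_add_eq_zero_left h.symm

theorem cf_zero (g : Γ) (y x : Ω) : cf (0 : RCF Ω (MonoidAlgebra L Γ)) g y x = 0 := by
  rw [cf, ent_zero, MonoidAlgebra.coeff_zero]
  rfl

theorem cf_one_ne {g : Γ} {y x : Ω} (h : cf (1 : RCF Ω (MonoidAlgebra L Γ)) g y x ≠ 0) :
    g = 1 ∧ y = x := by
  classical
  rw [cf, ent_one] at h
  by_cases hyx : y = x
  · refine ⟨?_, hyx⟩
    rw [if_pos hyx] at h
    by_contra hg
    refine h ?_
    rw [MonoidAlgebra.one_def, MonoidAlgebra.coeff_single, Finsupp.single_apply,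
      if_neg (fun h => hg h.symm)]
  · rw [if_neg hyx, MonoidAlgebra.coeff_zero] at h
    exact absurd rfl h

/-- A non-zero coefficient of a product comes from non-zero coefficients of the factors. -/
theorem exists_of_cf_mul {T U : RCF Ω (MonoidAlgebra L Γ)} {g : Γ} {y x : Ω}
    (h : cf (T * U) g y x ≠ 0) :
    ∃ (v : Ω) (k l : Γ), k * l = g ∧ cf T k y v ≠ 0 ∧ cf U l v x ≠ 0 := by
  classical
  obtain ⟨v, k, l, hkl, h1, h2⟩ : ∃ (v : Ω) (k l : Γ), k * l = g ∧
      (ent T y v).coeff k * (ent U v x).coeff l ≠ 0 ∧ True := by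
    by_contra hcon
    push_neg at hcon
    refine h ?_
    rw [cf, ent_mul_col T U y x (ent_col U x).toFinset fun v hv => by
      rw [Set.Finite.mem_toFinset]; exact hv, MonoidAlgebra.coeff_sum, Finsupp.finset_sum_apply]
    refine Finset.sum_eq_zero fun v _ => ?_
    rw [MonoidAlgebra.coeff_mul, Finsupp.sum]
    refine Finset.sum_eq_zero fun k _ => ?_
    rw [Finsupp.sum]
    refine Finset.sum_eq_zero fun l _ => ?_
    by_cases hkl : k * l = g
    · rw [if_pos hkl]
      by_contra hne
      exact hcon v k l hkl hne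
    · rw [if_neg hkl]
  exact ⟨v, k, l, hkl, left_ne_zero_of_mul h1, right_ne_zero_of_mul h1⟩

end Gr

end Pool.Agent.TQ
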