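import Pool.Agent.Lib.MP_8f66f0_al_TQ.XXR
import Pool.Agent.Lib.MP_8f66f0_al_CC.Geo.GraphCube
import Pool.Agent.Lib.MP_8f66f0_al_CC.Geo.SubCub
import Pool.Agent.Lib.MP_8f66f0_al_CC.Geo.Pow

/-!
# Theorem CC for classes of groups

`S_CCP P`: the class `P` is closed under actions without inversions on median structures of finite
dimension with all vertex stabilizers in the class. From `S_CCP P` we get this property for `Star P`
(extensions), and for `PC P` (commensurable groups) with inversions.
-/

set_option autoImplicit false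

namespace Pool.Agent.TQ

open scoped Pointwise
open Pool.Agent Pool.Agent.TreeC Pool.Agent.CC Pool.Agent.QT

/-- Closure under actions without inversions on median structures of finite dimension. -/
def S_CCP (P : (G : Type) → [Group G] → Prop) : Prop :=
  ∀ (Γ V : Type) [Group Γ] [MulAction Γ V] [Nonempty V] (X : Med V) (_ : Act Γ X) (N : ℕ),
    X.Dim N → (∀ v : V, P (MulAction.stabilizer Γ v)) → P Γ

/-- Closure under actions on median structures of finite dimension. -/
def S_CCI (P : (G : Type) → [Group G] → Prop) : Prop :=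
  ∀ (Γ V : Type) [Group Γ] [MulAction Γ V] [Nonempty V] (X : Med V), X.Inv Γ → ∀ (N : ℕ),
    X.Dim N → (∀ v : V, P (MulAction.stabilizer Γ v)) → P Γ

section

variable {P : (G : Type) → [Group G] → Prop}

/-- The preimage of a subgroup `K` with `Star P K`. -/
theorem star_comap3 (hP : TClv P) {G Q : Type} [Group G] [Group Q] (f : G →* Q) (h : P f.ker)
    (K : Subgroup Q) (hK : Star P K) : P (K.comap f) := by
  refine hK (K.comap f) (f.subgroupComap K) ?_
  have hle : f.ker ≤ K.comap f := by
    intro x hx
    rw [Subgroup.mem_comap, MonoidHom.mem_ker.1 hx]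
    exact K.one_mem
  have h1 : (f.subgroupComap K).ker = f.ker.subgroupOf (K.comap f) := by
    ext x
    rw [MonoidHom.mem_ker, Subgroup.mem_subgroupOf, MonoidHom.mem_ker]
    exact Subtype.ext_iff
  rw [h1]
  exact hP.iso _ _ (Subgroup.subgroupOfEquivOfLe hle).symm h

/-- Extensions, actions without inversions. -/
theorem ccp_star (hP : TClv P) (h : S_CCP P) : S_CCP (Star P) := by
  intro Γ V _ _ _ X A N hN hv G _ f hf
  let _ : MulAction G V := MulAction.compHom V f
  have hs : ∀ (g : G) (k : Set V), g • k = f g • k := fun _ _ => rfl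
  refine h G V X ⟨fun g k hk => ?_, A.pos, A.pos_sub, fun g k hk => ?_, A.pos_or⟩ N hN fun v => ?_
  · rw [hs]
    exact A.smul_mem (f g) k hk
  · rw [hs]
    exact A.pos_smul (f g) k hk
  · exact star_comap3 hP f hf (MulAction.stabilizer Γ v) (hv v)

/-- Extensions. -/
theorem cci_star (hP : TClv P) (h : S_CCI P) : S_CCI (Star P) := by
  intro Γ V _ _ _ X A N hN hv G _ f hf
  let _ : MulAction G V := MulAction.compHom V f
  have hs : ∀ (g : G) (k : Set V), g • k = f g • k := fun _ _ => rfl
  refine h G V X (fun g k hk => ?_) N hN fun v => ?_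
  · rw [hs]
    exact A (f g) k hk
  · exact star_comap3 hP f hf (MulAction.stabilizer Γ v) (hv v)

/-- From actions without inversions to all actions, if the class is closed under finite index
overgroups. -/
theorem cci_of_ccp (h : S_CCP P) (hfi : ∀ (G : Type) [Group G] (K : Subgroup G), K.FiniteIndex →
    P K → P G) (hemb : ∀ (G G' : Type) [Group G] [Group G'] (f : G' →* G), Function.Injective f →
    P G → P G') : S_CCI P := by
  intro Γ V _ _ _ X hI N hN hv
  let _ := hI.act
  have _ : Nonempty X.Cub := Med.cub_nonempty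
  refine h Γ X.Cub X.sbd hI.actSub N hN.sbd fun c => ?_
  rw [hI.stab_cube c]
  obtain ⟨v, hvc⟩ := c.2.nonempty
  refine hfi _ _ (Med.finiteIndex c.2 hvc) ?_
  refine hemb _ _ (((MulAction.stabilizer Γ c.1).subtype.comp
    (Subgroup.subtype _)).codRestrict (MulAction.stabilizer Γ v) fun x => x.2) ?_ (hv v)
  intro x y hxy
  exact Subtype.ext (Subtype.ext (congrArg (fun z : MulAction.stabilizer Γ v => (z : Γ)) hxy))

theorem pc_med (h : S_CCP P) : S_CCP (PC P) := by
  intro G V _ _ _ X A N hN hv Λ _ hΛ H hHf f hf
  have hfin : Finite (Λ ⧸ H) := inferInstance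
  have hne : Nonempty (PowT (cocOf H f) V) := ⟨fun _ : Λ ⧸ H => Classical.arbitrary V⟩
  refine h Λ (PowT (cocOf H f) V) (Med.powT (cocOf H f) X) (Act.powT (cocOf H f) A) _
    (Med.powT_dim hN) fun w => ?_
  let c : Tw (cocOf H f) (Set V) := fun q => some {w q}
  have hfix : ∀ g ∈ MulAction.stabilizer Λ w, g • c = c := by
    intro g hg
    refine ((tw_eq_iff (D := cocOf H f) g c c).2 fun q => ?_).symm
    change some {w (g • q)} = some ((cocOf H f).c g q • ({w q} : Set V))
    rw [Set.smul_set_singleton, ← powT_smul, MulAction.mem_stabilizer_iff.1 hg]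
  obtain ⟨C', φ, h1, h2, h3⟩ := lab_emb H hHf f hf (MulAction.stabilizer Λ w) c hfix
    (QuotientGroup.mk 1) _ rfl
  refine hv (w (QuotientGroup.mk 1)) _ (hΛ.sub _) C' h1 (φ.codRestrict _ fun y => ?_)
    fun a b hab => h2 (congrArg (fun z : MulAction.stabilizer G (w (QuotientGroup.mk 1)) =>
      (z : G)) hab)
  have h4 := h3 y
  rw [Set.smul_set_singleton] at h4
  exact Set.singleton_injective h4

/-- The class `PC P` is closed under actions on median structures of finite dimension. -/
theorem pc_cci (h : S_CCP P) : S_CCI (PC P) :=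
  cci_of_ccp (pc_med h) (fun _ _ K hK h => pc_fi K hK h)
    (fun _ _ _ _ f hf h => pc_emb f hf h)

end

end Pool.Agent.TQ
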