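import Pool.Agent.Lib.MP_8f66f0_al_TQ.Ker
import Pool.Agent.Lib.MP_8f66f0_al_Wald.Defs
import Pool.Agent.Lib.MP_8f66f0_al_Ind.Defs

/-!
# Theorem TQ: the rings

`Γ` acts on the finite set `Q` of coordinates. A coordinate of an object is `none` (the base point) or a
slot `(o, n)`. An object is `(S, w)` with `S ⊆ Q` (the component) and coordinates `w`. Bounded in the
coordinate `j` means: contained in a finite set of coordinates. The matrices in `Dl lab` have entries in
the group algebra `L[Γ]`; the part `g` of the entry in the row `y` and the column `x` can be non-zero only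
if `y` is in the component `g S` (`S` the component of `x`) and `g • lab x = lab y`; they are controlled
and coupled outside a finite set of coordinates. The big ring `D` is the case of the trivial label.
-/

set_option autoImplicit false

namespace Pool.Agent.TQ

open scoped Pointwise
open Pool.Agent.Wald

/-- The coordinates: the base point, and the slots `(o, n)`. -/
abbrev Cd (O : Type) : Type := Option (O × ℕ)

/-- The objects: a component and coordinates. -/
abbrev Ob (Q O : Type) : Type := Finset Q × (Q → Cd O)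

/-- The coordinates without the numbers of the slots. -/
def ori {Q O : Type} (w : Q → Cd O) : Q → Option O := fun j => (w j).map Prod.fst

section Ring

variable {L Γ Q O C : Type} [CommRing L] [Group Γ] [DecidableEq Q] [MulAction Γ Q] [MulAction Γ C]

/-- The label of an object. -/
def lb (lab : Finset Q → (Q → Option O) → C) (x : Ob Q O) : C := lab x.1 (ori x.2)

/-- The part `g` goes from the component `S` to the component `g S` and respects the labels. -/
def Str (lab : Finset Q → (Q → Option O) → C) (T : RCF (Ob Q O) (MonoidAlgebra L Γ)) : Prop :=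
  ∀ g y x, cf T g y x ≠ 0 → y.1 = g • x.1 ∧ lb lab y = g • lb lab x

/-- Control: a finite set of values of the coordinate `j` of `x` corresponds to a finite set of values of
the coordinate `g j` of `y`. -/
def Ctl (T : RCF (Ob Q O) (MonoidAlgebra L Γ)) : Prop :=
  ∀ B : Finset (Cd O), ∃ B' : Finset (Cd O), ∀ g y x, cf T g y x ≠ 0 → ∀ j,
    (x.2 j ∈ B → y.2 (g • j) ∈ B') ∧ (y.2 (g • j) ∈ B → x.2 j ∈ B')

/-- Coupling: the components `S` and `S ∪ {j}` agree, if the coordinate `j` is outside a finite set. -/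
def Cpl (T : RCF (Ob Q O) (MonoidAlgebra L Γ)) : Prop :=
  ∃ B : Finset (Cd O), ∀ (g : Γ) (S : Finset Q) (w w' : Q → Cd O) (j : Q), j ∉ S →
    (w j ∉ B ∨ w' (g • j) ∉ B) →
    cf T g (insert (g • j) (g • S), w') (insert j S, w) = cf T g (g • S, w') (S, w)

/-- Formula for the product. -/
theorem cf_mul_sum {Ω : Type} (T U : RCF Ω (MonoidAlgebra L Γ)) (g : Γ) (y x : Ω) (s : Finset Ω)
    (t : Finset Γ) (hs : ∀ v l, cf U l v x ≠ 0 → v ∈ s ∧ l ∈ t) :
    cf (T * U) g y x = ∑ l ∈ t, ∑ v ∈ s, cf T (g * l⁻¹) y v * cf U l v x := by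
  classical
  have hs' : ∀ v, ent U v x ≠ 0 → v ∈ s := by
    intro v hv
    by_contra hvs
    refine hv (MonoidAlgebra.ext (Finsupp.ext fun l => ?_))
    by_contra h
    exact hvs (hs v l h).1
  rw [cf, ent_mul_col T U y x s hs', MonoidAlgebra.coeff_sum, Finsupp.finset_sum_apply,
    Finset.sum_comm]
  refine Finset.sum_congr rfl fun v _ => ?_
  rw [MonoidAlgebra.coeff_mul, Finsupp.sum]
  have h1 : ∀ m₁, ((ent U v x).coeff.sum fun m₂ r₂ =>
      if m₁ * m₂ = g then (ent T y v).coeff m₁ * r₂ else 0) =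
      ∑ l ∈ t, if m₁ * l = g then (ent T y v).coeff m₁ * (ent U v x).coeff l else 0 := by
    intro m₁
    rw [Finsupp.sum]
    refine Finset.sum_subset (fun l hl => (hs v l (Finsupp.mem_support_iff.1 hl)).2) fun l _ hl => ?_
    rw [Finsupp.notMem_support_iff.1 hl, mul_zero, ite_self]
  simp only [h1]
  rw [Finset.sum_comm]
  refine Finset.sum_congr rfl fun l _ => ?_
  have h2 : ∀ m₁ : Γ, (m₁ * l = g) ↔ (m₁ = g * l⁻¹) := fun m₁ => eq_mul_inv_iff_mul_eq.symm
  simp only [h2]
  by_cases hm : g * l⁻¹ ∈ (ent T y v).coeff.support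
  · rw [Finset.sum_ite_eq' _ _ fun m₁ => (ent T y v).coeff m₁ * (ent U v x).coeff l, if_pos hm]
    rfl
  · rw [Finset.sum_ite_eq' _ _ fun m₁ => (ent T y v).coeff m₁ * (ent U v x).coeff l, if_neg hm]
    have : cf T (g * l⁻¹) y v = 0 := Finsupp.notMem_support_iff.1 hm
    rw [this, zero_mul]

theorem exists_cf_fin {Ω : Type} (U : RCF Ω (MonoidAlgebra L Γ)) (x : Ω) :
    ∃ (s : Finset Ω) (t : Finset Γ), ∀ v l, cf U l v x ≠ 0 → v ∈ s ∧ l ∈ t := by
  classical
  refine ⟨(ent_col U x).toFinset, (ent_col U x).toFinset.biUnion fun v => (ent U v x).coeff.support,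
    fun v l h => ?_⟩
  have hv : v ∈ (ent_col U x).toFinset := by
    rw [Set.Finite.mem_toFinset]
    exact cf_ne_of_ne h
  exact ⟨hv, Finset.mem_biUnion.2 ⟨v, hv, Finsupp.mem_support_iff.2 h⟩⟩

/-- Formula for the product, if the factor on the right goes from the component `S` to `l S`. -/
theorem cf_mul_sum' (T U : RCF (Ob Q O) (MonoidAlgebra L Γ))
    (hU : ∀ g y x, cf U g y x ≠ 0 → y.1 = g • x.1) (g : Γ) (y x : Ob Q O)
    (s : Finset (Q → Cd O)) (t : Finset Γ) (hs : ∀ v l, cf U l v x ≠ 0 → v.2 ∈ s ∧ l ∈ t) :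
    cf (T * U) g y x =
      ∑ l ∈ t, ∑ w ∈ s, cf T (g * l⁻¹) y (l • x.1, w) * cf U l (l • x.1, w) x := by
  classical
  rw [cf_mul_sum T U g y x ((t.image fun l => l • x.1) ×ˢ s) t fun v l h => by
    have h1 := hs v l h
    have h2 := hU l v x h
    refine ⟨Finset.mem_product.2 ⟨?_, h1.1⟩, h1.2⟩
    rw [h2]
    exact Finset.mem_image_of_mem _ h1.2]
  refine Finset.sum_congr rfl fun l hl => ?_
  rw [Finset.sum_product]
  refine (Finset.sum_eq_single_of_mem (l • x.1) (Finset.mem_image_of_mem _ hl) ?_)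
  intro S _ hS
  refine Finset.sum_eq_zero fun w _ => ?_
  have : cf U l (S, w) x = 0 := by
    by_contra h
    exact hS (hU l (S, w) x h)
  rw [this, mul_zero]

theorem str_mul {lab : Finset Q → (Q → Option O) → C} {T U : RCF (Ob Q O) (MonoidAlgebra L Γ)}
    (hT : Str lab T) (hU : Str lab U) : Str lab (T * U) := by
  intro g y x h
  obtain ⟨v, k, l, rfl, h1, h2⟩ := exists_of_cf_mul h
  obtain ⟨a1, a2⟩ := hT k y v h1
  obtain ⟨b1, b2⟩ := hU l v x h2
  exact ⟨by rw [a1, b1, mul_smul], by rw [a2, b2, mul_smul]⟩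

theorem ctl_mul {T U : RCF (Ob Q O) (MonoidAlgebra L Γ)} (hT : Ctl T) (hU : Ctl U) :
    Ctl (T * U) := by
  classical
  intro B
  obtain ⟨B1, hB1⟩ := hU B
  obtain ⟨B2, hB2⟩ := hT B1
  obtain ⟨B3, hB3⟩ := hT B
  obtain ⟨B4, hB4⟩ := hU B3
  refine ⟨B2 ∪ B4, fun g y x h j => ?_⟩
  obtain ⟨v, k, l, rfl, h1, h2⟩ := exists_of_cf_mul h
  rw [mul_smul]
  refine ⟨fun hx => ?_, fun hy => ?_⟩
  · exact Finset.mem_union_left _ ((hB2 k y v h1 (l • j)).1 ((hB1 l v x h2 j).1 hx))
  · exact Finset.mem_union_right _ ((hB4 l v x h2 j).2 ((hB3 k y v h1 (l • j)).2 hy))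

theorem cpl_mul {T U : RCF (Ob Q O) (MonoidAlgebra L Γ)}
    (hT0 : ∀ g y x, cf T g y x ≠ 0 → y.1 = g • x.1)
    (hU0 : ∀ g y x, cf U g y x ≠ 0 → y.1 = g • x.1) (hT : Ctl T) (hU : Ctl U) (hTc : Cpl T)
    (hUc : Cpl U) : Cpl (T * U) := by
  classical
  obtain ⟨BT, hBT⟩ := hTc
  obtain ⟨BU, hBU⟩ := hUc
  obtain ⟨B1, hB1⟩ := hU BT
  obtain ⟨B2, hB2⟩ := hT BU
  refine ⟨BT ∪ BU ∪ B1 ∪ B2, fun g S w w' j hj hw => ?_⟩
  obtain ⟨s1, t1, h1⟩ := exists_cf_fin U (insert j S, w)
  obtain ⟨s2, t2, h2⟩ := exists_cf_fin U (S, w)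
  rw [cf_mul_sum' T U hU0 g _ (insert j S, w) ((s1 ∪ s2).image Prod.snd) (t1 ∪ t2) fun v l h =>
      ⟨Finset.mem_image_of_mem _ (Finset.mem_union_left _ (h1 v l h).1),
        Finset.mem_union_left _ (h1 v l h).2⟩,
    cf_mul_sum' T U hU0 g _ (S, w) ((s1 ∪ s2).image Prod.snd) (t1 ∪ t2) fun v l h =>
      ⟨Finset.mem_image_of_mem _ (Finset.mem_union_right _ (h2 v l h).1),
        Finset.mem_union_right _ (h2 v l h).2⟩]
  refine Finset.sum_congr rfl fun l _ => Finset.sum_congr rfl fun u _ => ?_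
  have hins : l • (insert j S : Finset Q) = insert (l • j) (l • S) := Finset.smul_finset_insert _ _ _
  have hlj : l • j ∉ l • S := by rwa [Finset.smul_mem_smul_finset_iff]
  have hg1 : (g * l⁻¹) • l • j = g • j := by rw [← mul_smul, inv_mul_cancel_right]
  have hg2 : (g * l⁻¹) • l • S = g • S := by rw [← mul_smul, inv_mul_cancel_right]
  simp only [hins]
  have key : ∀ (b1 : Prop), b1 → b1 := fun _ h => h
  -- the coordinate of the intermediate object
  have hTe : (u (l • j) ∉ BT ∨ w' (g • j) ∉ BT) →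
      cf T (g * l⁻¹) (insert (g • j) (g • S), w') (insert (l • j) (l • S), u) =
        cf T (g * l⁻¹) (g • S, w') (l • S, u) := by
    intro h
    have := hBT (g * l⁻¹) (l • S) u w' (l • j) hlj (by rw [hg1]; exact h)
    rwa [hg1, hg2] at this
  have hUe : (w j ∉ BU ∨ u (l • j) ∉ BU) →
      cf U l (insert (l • j) (l • S), u) (insert j S, w) = cf U l (l • S, u) (S, w) :=
    fun h => hBU l S w u j hj h
  rcases hw with hw | hw
  · have hwU : w j ∉ BU := fun h => hw (by simp [h])
    have hw1 : w j ∉ B1 := fun h => hw (by simp [h])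
    rw [hUe (Or.inl hwU)]
    by_cases h0 : cf U l (l • S, u) (S, w) = 0
    · rw [h0, mul_zero, mul_zero]
    · rw [hTe (Or.inl fun h => hw1 ((hB1 l _ _ h0 j).2 h))]
  · have hwT : w' (g • j) ∉ BT := fun h => hw (by simp [h])
    have hw2 : w' (g • j) ∉ B2 := fun h => hw (by simp [h])
    rw [hTe (Or.inr hwT)]
    by_cases h0 : cf T (g * l⁻¹) (g • S, w') (l • S, u) = 0
    · rw [h0, zero_mul, zero_mul]
    · rw [hUe (Or.inr fun h => hw2 (by
        have := (hB2 (g * l⁻¹) _ _ h0 (l • j)).1 h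
        rwa [hg1] at this))]

variable (L Γ)

/-- The ring of the controlled, coupled matrices which respect the labels. -/
def Dl (lab : Finset Q → (Q → Option O) → C) : Subring (RCF (Ob Q O) (MonoidAlgebra L Γ)) where
  carrier := {T | Str lab T ∧ Ctl T ∧ Cpl T}
  mul_mem' := fun {T U} hT hU => ⟨str_mul hT.1 hU.1, ctl_mul hT.2.1 hU.2.1,
    cpl_mul (fun g y x h => (hT.1 g y x h).1) (fun g y x h => (hU.1 g y x h).1) hT.2.1 hU.2.1
      hT.2.2 hU.2.2⟩
  one_mem' := by
    refine ⟨fun g y x h => ?_, fun B => ⟨B, fun g y x h j => ?_⟩, ⟨∅, fun g S w w' j hj _ => ?_⟩⟩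
    · obtain ⟨rfl, rfl⟩ := cf_one_ne h
      exact ⟨(one_smul _ _).symm, (one_smul _ _).symm⟩
    · obtain ⟨rfl, rfl⟩ := cf_one_ne h
      rw [one_smul]
      exact ⟨fun h => h, fun h => h⟩
    · classical
      rw [cf, cf, ent_one, ent_one]
      by_cases hg : g = 1
      · subst hg
        simp only [one_smul, Prod.mk.injEq, true_and]
      · have h1 : (if ((insert (g • j) (g • S), w') : Ob Q O) = (insert j S, w) then
            (1 : MonoidAlgebra L Γ) else 0).coeff g = 0 := by
          split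
          · rw [MonoidAlgebra.one_def, MonoidAlgebra.coeff_single, Finsupp.single_apply,
              if_neg (fun h => hg h.symm)]
          · rfl
        have h2 : (if ((g • S, w') : Ob Q O) = (S, w) then
            (1 : MonoidAlgebra L Γ) else 0).coeff g = 0 := by
          split
          · rw [MonoidAlgebra.one_def, MonoidAlgebra.coeff_single, Finsupp.single_apply,
              if_neg (fun h => hg h.symm)]
          · rfl
        rw [h1, h2]
  add_mem' := by
    classical
    rintro T U ⟨hT1, hT2, BT, hT3⟩ ⟨hU1, hU2, BU, hU3⟩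
    have hor : ∀ g y x, cf (T + U) g y x ≠ 0 → cf T g y x ≠ 0 ∨ cf U g y x ≠ 0 := by
      intro g y x h
      by_contra hcon
      push_neg at hcon
      exact h (by rw [cf_add, hcon.1, hcon.2, add_zero])
    refine ⟨fun g y x h => ?_, fun B => ?_, BT ∪ BU, fun g S w w' j hj hw => ?_⟩
    · rcases hor g y x h with h | h
      · exact hT1 g y x h
      · exact hU1 g y x h
    · obtain ⟨B1, hB1⟩ := hT2 B
      obtain ⟨B2, hB2⟩ := hU2 B
      refine ⟨B1 ∪ B2, fun g y x h j => ?_⟩
      rcases hor g y x h with h | h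
      · exact ⟨fun hx => Finset.mem_union_left _ ((hB1 g y x h j).1 hx),
          fun hy => Finset.mem_union_left _ ((hB1 g y x h j).2 hy)⟩
      · exact ⟨fun hx => Finset.mem_union_right _ ((hB2 g y x h j).1 hx),
          fun hy => Finset.mem_union_right _ ((hB2 g y x h j).2 hy)⟩
    · rw [cf_add, cf_add, hT3 g S w w' j hj (hw.imp (fun h h' => h (Finset.mem_union_left _ h'))
        (fun h h' => h (Finset.mem_union_left _ h'))),
        hU3 g S w w' j hj (hw.imp (fun h h' => h (Finset.mem_union_right _ h'))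
        (fun h h' => h (Finset.mem_union_right _ h')))]
  zero_mem' := ⟨fun g y x h => absurd (cf_zero g y x) h,
    fun B => ⟨B, fun g y x h => absurd (cf_zero g y x) h⟩, ∅, fun g S w w' j _ _ => by
      rw [cf_zero, cf_zero]⟩
  neg_mem' := by
    rintro T ⟨hT1, hT2, BT, hT3⟩
    have hne : ∀ g y x, cf (-T) g y x ≠ 0 → cf T g y x ≠ 0 := by
      intro g y x h h'
      exact h (by rw [cf_neg, h', neg_zero])
    refine ⟨fun g y x h => hT1 g y x (hne g y x h), fun B => ?_, BT, fun g S w w' j hj hw => ?_⟩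
    · obtain ⟨B1, hB1⟩ := hT2 B
      exact ⟨B1, fun g y x h j => hB1 g y x (hne g y x h) j⟩
    · rw [cf_neg, cf_neg, hT3 g S w w' j hj hw]

variable {L Γ}

/-- The matrix `Z` is the identity outside the entry at the object `x`. -/
def IsBlk {lab : Finset Q → (Q → Option O) → C} {n : Type} [DecidableEq n]
    (Z : Matrix n n (Dl L Γ lab)) (x : Ob Q O) : Prop :=
  ∀ i j y y', (y ≠ x ∨ y' ≠ x) →
    ent (Z i j).1 y y' = ent ((1 : Matrix n n (Dl L Γ lab)) i j).1 y y'

/-- Monomial matrices: one non-zero entry, a unit of `L` times an element of `Γ`, in every row and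
column. -/
def IsMon {lab : Finset Q → (Q → Option O) → C} {n : Type} (Z : Matrix n n (Dl L Γ lab)) : Prop :=
  ∃ (σ : (n × Ob Q O) ≃ (n × Ob Q O)) (γ : n × Ob Q O → Γ) (ε : n × Ob Q O → Lˣ),
    (∀ p : n × Ob Q O, ent (Z (σ p).1 p.1).1 (σ p).2 p.2 =
      MonoidAlgebra.single (γ p) ((ε p : Lˣ) : L)) ∧
    ∀ i j y x, σ (j, x) ≠ (i, y) → ent (Z i j).1 y x = 0

end Ring

/-- The injection `al` of the coordinates: even numbers. -/
def al {O : Type} (c : Cd O) : Cd O := c.map fun p => (p.1, 2 * p.2)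

/-- The injections `th o₀ m` of the coordinates into the slots with odd numbers. The images are disjoint
for different `m`, and the base point is moved to a slot at `o₀`. -/
def th {O : Type} (o₀ : O) (m : ℕ) : Cd O → Cd O
  | none => some (o₀, 2 * Nat.pair m 0 + 1)
  | some (o, n) => some (o, 2 * Nat.pair m (n + 1) + 1)

end Pool.Agent.TQ
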