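import Pool.Agent.Lib.MP_8f66f0_al_TQ.VVT
import Pool.Agent.Lib.MP_8f66f0_al_CC.AllQ

/-! The theorem on the class `VC`. -/

set_option autoImplicit false

namespace Pool.Agent.WhVan

theorem vv_all {Γ : Type} [Group Γ] (h : VC Γ) (L : Type) [CommRing L] [IsDomain L]
    (hL : IsEuc L) : K1Units L Γ :=
  vv_of_cc CC.ccQ h L hL

end Pool.Agent.WhVan
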