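import Pool.Agent.Lib.MP_8f66f0_al_TQ.Kr
import Pool.Agent.Lib.MP_8f66f0_al_WaldL.KK

/-!
# Lemma K: isomorphisms between labelled finite sets

If the entries of the invertible matrix `Z` respect labels in a `G`-set and `K₁` of the group rings of
the stabilizers of the labels is generated by trivial units, then the invariant of `Z` is trivial.
-/

set_option autoImplicit false

namespace Pool.Agent.TQ

open Pool.Agent.Wald Pool.Agent.WaldL Pool.Agent.Ind Pool.Agent.FH Matrix

section Units

variable {L G K : Type} [CommRing L] [Group G] [CommGroup K]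

private theorem ku_entry {κ : K1Fun (MonoidAlgebra L G) K} (hκ : KU κ) (g : G) (u : Lˣ)
    (M : Matrix (Fin 1) (Fin 1) (MonoidAlgebra L G)) (hM : M 0 0 = MonoidAlgebra.single g (u : L)) :
    κ.f M = 1 := by
  rw [← hκ g u]
  congr 1
  ext i j : 2
  rw [Subsingleton.elim i 0, Subsingleton.elim j 0, hM]
  rfl

theorem kperm_of_ku {κ : K1Fun (MonoidAlgebra L G) K} (hκ : KU κ) : KPerm κ := by
  intro n _ d σ
  induction σ using Equiv.Perm.swap_induction_on with
  | one =>
    change κ.f ((1 : Matrix n n (MonoidAlgebra L G)).submatrix id id) = 1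
    rw [submatrix_id_id, κ.f_one]
  | swap_mul f x y hxy ih =>
    have h0 : (1 : Matrix n n (MonoidAlgebra L G)).submatrix (Equiv.swap x y * f) id =
        (1 : Matrix n n (MonoidAlgebra L G)).submatrix f id *
          (1 : Matrix n n (MonoidAlgebra L G)).submatrix (Equiv.swap x y) id := by
      rw [perm_mul, submatrix_submatrix]
      rfl
    rw [h0, κ.mul _ _ (isUnit_perm _) (isUnit_perm _), ih, one_mul]
    let C : Matrix n (Fin 1) (MonoidAlgebra L G) := fun a _ =>
      (if a = x then 1 else 0) - (if a = y then 1 else 0)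
    let R : Matrix (Fin 1) n (MonoidAlgebra L G) := fun _ b =>
      (if b = x then 1 else 0) - (if b = y then 1 else 0)
    have h1 : (1 : Matrix n n (MonoidAlgebra L G)).submatrix (Equiv.swap x y) id = 1 - C * R := by
      refine Matrix.ext fun a b => ?_
      rw [submatrix_apply, Matrix.sub_apply, mul_apply, one_apply, one_apply, Fin.sum_univ_one]
      simp only [C, R, id]
      by_cases hax : a = x
      · rw [hax, Equiv.swap_apply_left]
        by_cases hb : b = x
        · rw [hb]; simp [hxy, Ne.symm hxy]
        · by_cases hb' : b = y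
          · rw [hb']; simp [hxy, Ne.symm hxy]
          · simp [hxy, hb, hb', Ne.symm hb, Ne.symm hb']
      · by_cases hay : a = y
        · rw [hay, Equiv.swap_apply_right]
          by_cases hb : b = x
          · rw [hb]; simp [hxy, Ne.symm hxy]
          · by_cases hb' : b = y
            · rw [hb']; simp [hxy, Ne.symm hxy]
            · simp [Ne.symm hxy, hb, hb', Ne.symm hb, Ne.symm hb']
        · rw [Equiv.swap_apply_of_ne_of_ne hax hay, if_neg hax, if_neg hay]
          simp
    have h2 := sameK_swap C R (h1 ▸ isUnit_perm (Equiv.swap x y))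
    rw [h1, ← h2.2 K κ]
    refine ku_entry hκ 1 (-1) _ ?_
    have h3 : (R * C) 0 0 = 2 := by
      rw [mul_apply]
      simp only [C, R]
      have h4 : ∀ a : n, ((if a = x then (1 : MonoidAlgebra L G) else 0) - (if a = y then 1 else 0)) *
          ((if a = x then 1 else 0) - (if a = y then 1 else 0)) =
          (if a = x then 1 else 0) + (if a = y then 1 else 0) := by
        intro a
        by_cases h1 : a = x
        · subst h1
          rw [if_pos rfl, if_neg hxy]
          simp
        · by_cases h2 : a = y
          · rw [if_neg h1, if_pos h2]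
            simp
          · rw [if_neg h1, if_neg h2]
            simp
      simp only [h4]
      rw [Finset.sum_add_distrib, Finset.sum_ite_eq' , Finset.sum_ite_eq', if_pos (Finset.mem_univ _),
        if_pos (Finset.mem_univ _)]
      norm_num
    rw [Matrix.sub_apply, h3, one_apply_eq, Units.val_neg, Units.val_one, MonoidAlgebra.single_neg,
      ← MonoidAlgebra.one_def]
    norm_num

/-- The diagonal matrices with group elements as entries are killed. -/
theorem f_diag {κ : K1Fun (MonoidAlgebra L G) K} (hκ : KU κ) {n : Type} [Fintype n]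
    [DecidableEq n] (γ : n → G) (u : n → Lˣ) :
    κ.f (diagonal fun i => MonoidAlgebra.single (γ i) ((u i : Lˣ) : L)) = 1 ∧
      IsUnit (diagonal fun i => MonoidAlgebra.single (γ i) ((u i : Lˣ) : L)) := by
  have key : ∀ s : Finset n,
      κ.f (diagonal fun i => if i ∈ s then MonoidAlgebra.single (γ i) ((u i : Lˣ) : L) else 1) = 1 ∧
      IsUnit (diagonal fun i => if i ∈ s then MonoidAlgebra.single (γ i) ((u i : Lˣ) : L) else
        (1 : MonoidAlgebra L G)) := by
    intro s
    induction s using Finset.induction_on with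
    | empty =>
      have : (diagonal fun i : n => if i ∈ (∅ : Finset n) then
          MonoidAlgebra.single (γ i) ((u i : Lˣ) : L) else (1 : MonoidAlgebra L G)) = 1 := by
        simp
      rw [this]
      exact ⟨κ.f_one, isUnit_one⟩
    | insert a s ha ih =>
      let C : Matrix n (Fin 1) (MonoidAlgebra L G) := fun b _ =>
        if b = a then 1 - MonoidAlgebra.single (γ a) ((u a : Lˣ) : L) else 0
      let R : Matrix (Fin 1) n (MonoidAlgebra L G) := fun _ b => if b = a then 1 else 0
      have h1 : (1 : Matrix n n (MonoidAlgebra L G)) - C * R =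
          diagonal fun i => if i = a then MonoidAlgebra.single (γ i) ((u i : Lˣ) : L) else 1 := by
        refine Matrix.ext fun i j => ?_
        rw [Matrix.sub_apply, mul_apply, Fin.sum_univ_one, one_apply, diagonal_apply]
        simp only [C, R]
        by_cases hij : i = j
        · subst hij
          rw [if_pos rfl, if_pos rfl]
          by_cases hi : i = a
          · subst hi
            rw [if_pos rfl, if_pos rfl, if_pos rfl]
            simp
          · rw [if_neg hi, if_neg hi, if_neg hi]
            simp
        · rw [if_neg hij, if_neg hij]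
          by_cases hi : i = a
          · subst hi
            rw [if_neg (Ne.symm hij)]
            simp
          · rw [if_neg hi]
            simp
      have hu : IsUnit ((1 : Matrix n n (MonoidAlgebra L G)) - C * R) := by
        rw [h1]
        refine ⟨⟨diagonal fun i => if i = a then MonoidAlgebra.single (γ i) ((u i : Lˣ) : L) else 1,
          diagonal fun i => if i = a then
          MonoidAlgebra.single (γ i)⁻¹ (((u i)⁻¹ : Lˣ) : L) else 1, ?_, ?_⟩, rfl⟩
        · rw [diagonal_mul_diagonal, ← diagonal_one]
          congr 1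
          funext i
          by_cases hi : i = a
          · rw [if_pos hi, if_pos hi, MonoidAlgebra.single_mul_single, mul_inv_cancel,
              Units.mul_inv, ← MonoidAlgebra.one_def]
          · rw [if_neg hi, if_neg hi, one_mul]
        · rw [diagonal_mul_diagonal, ← diagonal_one]
          congr 1
          funext i
          by_cases hi : i = a
          · rw [if_pos hi, if_pos hi, MonoidAlgebra.single_mul_single, inv_mul_cancel,
              Units.inv_mul, ← MonoidAlgebra.one_def]
          · rw [if_neg hi, if_neg hi, one_mul]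
      have h2 := sameK_swap C R hu
      have h3 : κ.f (1 - C * R) = 1 := by
        rw [← h2.2 K κ]
        refine ku_entry hκ (γ a) (u a) _ ?_
        rw [Matrix.sub_apply, mul_apply, one_apply_eq]
        simp only [C, R]
        rw [Finset.sum_eq_single a]
        · simp
        · intro b _ hb
          rw [if_neg hb, zero_mul]
        · intro h
          exact absurd (Finset.mem_univ a) h
      have h4 : (diagonal fun i => if i ∈ insert a s then
          MonoidAlgebra.single (γ i) ((u i : Lˣ) : L) else (1 : MonoidAlgebra L G)) =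
          (diagonal fun i => if i ∈ s then MonoidAlgebra.single (γ i) ((u i : Lˣ) : L) else 1) *
            (1 - C * R) := by
        rw [h1, diagonal_mul_diagonal]
        congr 1
        funext i
        by_cases hi : i = a
        · subst hi
          rw [if_pos (Finset.mem_insert_self _ _), if_neg ha, if_pos rfl, one_mul]
        · rw [if_neg hi, mul_one]
          by_cases hs : i ∈ s
          · rw [if_pos hs, if_pos (Finset.mem_insert_of_mem hs)]
          · rw [if_neg hs, if_neg]
            rw [Finset.mem_insert]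
            exact fun h => h.elim hi hs
      rw [h4]
      exact ⟨by rw [κ.mul _ _ ih.2 hu, ih.1, h3, one_mul], ih.2.mul hu⟩
  have h := key Finset.univ
  simpa using h

end Units

section Lab

variable {L G : Type} [CommRing L] [Group G]

theorem ibn_gr [Nontrivial L] : InvariantBasisNumber (MonoidAlgebra L G) := by
  rw [invariantBasisNumber_iff_matrix]
  intro n m M N h1 h2
  let f : MonoidAlgebra L G →+* L := (MonoidAlgebra.lift L L G (1 : G →* L)).toRingHom
  have h3 : M.map f * N.map f = 1 := by
    rw [← Matrix.map_mul, h1, Matrix.map_one _ (map_zero f) (map_one f)]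
  have h4 : N.map f * M.map f = 1 := by
    rw [← Matrix.map_mul, h2, Matrix.map_one _ (map_zero f) (map_one f)]
  have h5 := Matrix.square_of_invertible _ _ h3 h4
  simpa using h5

private theorem coeff_l (g h : G) (f : MonoidAlgebra L G) :
    (MonoidAlgebra.single g (1 : L) * f).coeff h = f.coeff (g⁻¹ * h) := by
  rw [MonoidAlgebra.coeff_single_mul_eq_mul_coeff (g⁻¹ * h), one_mul]
  intro m _
  exact eq_inv_mul_iff_mul_eq.symm

private theorem coeff_r (g h : G) (f : MonoidAlgebra L G) :
    (f * MonoidAlgebra.single g (1 : L)).coeff h = f.coeff (h * g⁻¹) := by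
  rw [MonoidAlgebra.coeff_mul_single_eq_coeff_mul (h * g⁻¹), mul_one]
  intro m _
  exact eq_mul_inv_iff_mul_eq.symm

/-- Restriction of the coefficients. -/
private noncomputable def rst (Γ : Subgroup G) (f : MonoidAlgebra L G) : MonoidAlgebra L Γ :=
  MonoidAlgebra.ofCoeff (f.coeff.comapDomain Subtype.val Subtype.val_injective.injOn)

private theorem inc_rst (Γ : Subgroup G) (f : MonoidAlgebra L G)
    (hf : ∀ g, f.coeff g ≠ 0 → g ∈ Γ) : inc Γ.subtype (rst Γ f) = f := by
  apply MonoidAlgebra.coeff_injective
  change Finsupp.mapDomain Subtype.val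
    (f.coeff.comapDomain Subtype.val Subtype.val_injective.injOn) = f.coeff
  refine Finsupp.mapDomain_comapDomain _ Subtype.val_injective f.coeff ?_
  intro g hg
  exact ⟨⟨g, hf g (Finsupp.mem_support_iff.mp hg)⟩, rfl⟩

private theorem inc_inj (Γ : Subgroup G) : Function.Injective (inc (LL := L) Γ.subtype) :=
  MonoidAlgebra.mapDomain_injective Subtype.val_injective

private theorem dg_mul_dg {n : Type} [Fintype n] [DecidableEq n] (t : n → G) :
    (diagonal fun i => (MonoidAlgebra.single (t i) (1 : L))) *
      (diagonal fun i => (MonoidAlgebra.single (t i)⁻¹ (1 : L))) = 1 := by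
  rw [Matrix.diagonal_mul_diagonal, ← Matrix.diagonal_one]
  congr 1
  funext i
  rw [MonoidAlgebra.single_mul_single, mul_inv_cancel, one_mul, ← MonoidAlgebra.one_def]

private theorem dg_mul_dg' {n : Type} [Fintype n] [DecidableEq n] (t : n → G) :
    (diagonal fun i => (MonoidAlgebra.single (t i)⁻¹ (1 : L))) *
      (diagonal fun i => (MonoidAlgebra.single (t i) (1 : L))) = 1 := by
  rw [Matrix.diagonal_mul_diagonal, ← Matrix.diagonal_one]
  congr 1
  funext i
  rw [MonoidAlgebra.single_mul_single, inv_mul_cancel, one_mul, ← MonoidAlgebra.one_def]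

variable {K : Type} [CommGroup K] {X : Type} [MulAction G X]

/-- The case of one orbit of labels. -/
private theorem kr_orbit [IsDomain L] (hL : IsEuc L) {κ : K1Fun (MonoidAlgebra L G) K}
    (hκ : KU κ) {n n' : Type} [Fintype n] [DecidableEq n] [Fintype n'] [DecidableEq n']
    (lab : n → X) (lab' : n' → X) {Z : Matrix n' n (MonoidAlgebra L G)}
    {Z' : Matrix n n' (MonoidAlgebra L G)} (h1 : Z * Z' = 1) (h2 : Z' * Z = 1)
    (h3 : ∀ i j g, (Z i j).coeff g ≠ 0 → lab' i = g • lab j)
    (h4 : ∀ j i g, (Z' j i).coeff g ≠ 0 → lab j = g • lab' i) (x : X)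
    (hK : KK (MulAction.stabilizer G x)) (t : n → G) (ht : ∀ j, t j • x = lab j)
    (t' : n' → G) (ht' : ∀ i, t' i • x = lab' i) : kr κ Z = 1 := by
  haveI : InvariantBasisNumber (MonoidAlgebra L G) := ibn_gr
  have hP := kperm_of_ku hκ
  let D : Matrix n n (MonoidAlgebra L G) := diagonal fun i => MonoidAlgebra.single (t i) (1 : L)
  let Di : Matrix n n (MonoidAlgebra L G) := diagonal fun i => MonoidAlgebra.single (t i)⁻¹ (1 : L)
  let E : Matrix n' n' (MonoidAlgebra L G) := diagonal fun i => MonoidAlgebra.single (t' i) (1 : L)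
  let Ei : Matrix n' n' (MonoidAlgebra L G) :=
    diagonal fun i => MonoidAlgebra.single (t' i)⁻¹ (1 : L)
  have hD : D * Di = 1 := dg_mul_dg t
  have hD' : Di * D = 1 := dg_mul_dg' t
  have hE : E * Ei = 1 := dg_mul_dg t'
  have hE' : Ei * E = 1 := dg_mul_dg' t'
  have cn : Fintype.card n = Fintype.card n' := Matrix.square_of_invertible _ _ h2 h1
  let W : Matrix n' n (MonoidAlgebra L G) := Ei * Z * D
  let W' : Matrix n n' (MonoidAlgebra L G) := Di * Z' * E
  have hW : W * W' = 1 := by
    change Ei * Z * D * (Di * Z' * E) = 1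
    calc Ei * Z * D * (Di * Z' * E) = Ei * Z * (D * Di) * Z' * E := by
          simp only [Matrix.mul_assoc]
      _ = Ei * (Z * Z') * E := by rw [hD, Matrix.mul_one]; simp only [Matrix.mul_assoc]
      _ = 1 := by rw [h1, Matrix.mul_one, hE']
  have hW' : W' * W = 1 := by
    change Di * Z' * E * (Ei * Z * D) = 1
    calc Di * Z' * E * (Ei * Z * D) = Di * Z' * (E * Ei) * Z * D := by
          simp only [Matrix.mul_assoc]
      _ = Di * (Z' * Z) * D := by rw [hE, Matrix.mul_one]; simp only [Matrix.mul_assoc]
      _ = 1 := by rw [h2, Matrix.mul_one, hD']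
  have hWc : ∀ i j g, (W i j).coeff g = (Z i j).coeff (t' i * g * (t j)⁻¹) := by
    intro i j g
    change ((Ei * Z * D) i j).coeff g = _
    rw [mul_diagonal, diagonal_mul, coeff_r, coeff_l, inv_inv, mul_assoc]
  have hWc' : ∀ j i g, (W' j i).coeff g = (Z' j i).coeff (t j * g * (t' i)⁻¹) := by
    intro i j g
    change ((Di * Z' * E) i j).coeff g = _
    rw [mul_diagonal, diagonal_mul, coeff_r, coeff_l, inv_inv, mul_assoc]
  let Γ := MulAction.stabilizer G x
  have hm : ∀ i j g, (W i j).coeff g ≠ 0 → g ∈ Γ := by
    intro i j g hg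
    rw [hWc] at hg
    have := h3 _ _ _ hg
    rw [← ht, ← ht', ← mul_smul, inv_mul_cancel_right, mul_smul] at this
    exact (MulAction.mem_stabilizer_iff).2 (MulAction.injective (t' i) this.symm)
  have hm' : ∀ j i g, (W' j i).coeff g ≠ 0 → g ∈ Γ := by
    intro j i g hg
    rw [hWc'] at hg
    have := h4 _ _ _ hg
    rw [← ht, ← ht', ← mul_smul, inv_mul_cancel_right, mul_smul] at this
    exact (MulAction.mem_stabilizer_iff).2 (MulAction.injective (t j) this.symm)
  let w : Matrix n' n (MonoidAlgebra L Γ) := fun i j => rst Γ (W i j)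
  let w' : Matrix n n' (MonoidAlgebra L Γ) := fun j i => rst Γ (W' j i)
  have hw : w.map (inc Γ.subtype) = W := Matrix.ext fun i j => inc_rst Γ _ (hm i j)
  have hw' : w'.map (inc Γ.subtype) = W' := Matrix.ext fun i j => inc_rst Γ _ (hm' i j)
  have inj : ∀ {a b : Type} (M N : Matrix a b (MonoidAlgebra L Γ)),
      M.map (inc Γ.subtype) = N.map (inc Γ.subtype) → M = N := fun M N h =>
    Matrix.ext fun i j => inc_inj Γ (congrFun (congrFun h i) j)
  have hww : w * w' = 1 := inj _ _ (by
    rw [Matrix.map_mul, hw, hw', hW, Matrix.map_one _ (map_zero _) (map_one _)])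
  have hww' : w' * w = 1 := inj _ _ (by
    rw [Matrix.map_mul, hw, hw', hW', Matrix.map_one _ (map_zero _) (map_one _)])
  have e : n ≃ n' := Fintype.equivOfCardEq cn
  have kW : kr κ W = 1 := by
    rw [kr_eq hP hW hW' e, ← hw, submatrix_map]
    exact hK L hL K (pullK (inc Γ.subtype) κ) (fun g u => by
      change κ.f (Matrix.map _ _) = 1
      rw [← hκ (g : G) u]
      congr 1
      refine Matrix.ext fun i j => ?_
      rw [Matrix.map_apply, Matrix.of_apply, Matrix.of_apply, inc_single]
      rfl) n _ (isUnit_sub hww hww' e)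
  have kD : ∀ {m : Type} [Fintype m] [DecidableEq m] (s : m → G),
      kr κ (diagonal fun i => MonoidAlgebra.single (s i) (1 : L)) = 1 := by
    intro m _ _ s
    have := f_diag hκ s (fun _ => 1)
    rw [Units.val_one] at this
    rw [kr_square hP this.2, this.1]
  have hZ : Z = E * (W * Di) := by
    change Z = E * (Ei * Z * D * Di)
    calc Z = E * Ei * Z * (D * Di) := by rw [hE, hD, Matrix.one_mul, Matrix.mul_one]
      _ = _ := by simp only [Matrix.mul_assoc]
  have h5 : W * Di * (D * W') = 1 := by
    rw [Matrix.mul_assoc, ← Matrix.mul_assoc Di, hD', Matrix.one_mul, hW]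
  have h6 : D * W' * (W * Di) = 1 := by
    rw [Matrix.mul_assoc, ← Matrix.mul_assoc W', hW', Matrix.one_mul, hD]
  rw [hZ, kr_mul hP h5 h6 hE hE' cn rfl, kr_mul hP hD' hD hW hW' rfl cn, kW, one_mul]
  change kr κ E * kr κ Di = 1
  rw [kD t', kD fun i => (t i)⁻¹, one_mul]

/-- **Lemma K.** -/
theorem kr_lab [IsDomain L] (hL : IsEuc L) {κ : K1Fun (MonoidAlgebra L G) K}
    (hκ : KU κ) {n n' : Type} [Fintype n] [DecidableEq n] [Fintype n'] [DecidableEq n']
    (lab : n → X) (lab' : n' → X) {Z : Matrix n' n (MonoidAlgebra L G)}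
    {Z' : Matrix n n' (MonoidAlgebra L G)} (h1 : Z * Z' = 1) (h2 : Z' * Z = 1)
    (h3 : ∀ i j g, (Z i j).coeff g ≠ 0 → lab' i = g • lab j)
    (h4 : ∀ j i g, (Z' j i).coeff g ≠ 0 → lab j = g • lab' i)
    (hK : ∀ j, KK (MulAction.stabilizer G (lab j))) : kr κ Z = 1 := by
  haveI : InvariantBasisNumber (MonoidAlgebra L G) := ibn_gr
  have hP := kperm_of_ku hκ
  have key : ∀ (N : ℕ) (n n' : Type) [Fintype n] [DecidableEq n] [Fintype n'] [DecidableEq n']
      (lab : n → X) (lab' : n' → X) (Z : Matrix n' n (MonoidAlgebra L G))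
      (Z' : Matrix n n' (MonoidAlgebra L G)), Fintype.card n = N → Z * Z' = 1 → Z' * Z = 1 →
      (∀ i j g, (Z i j).coeff g ≠ 0 → lab' i = g • lab j) →
      (∀ j i g, (Z' j i).coeff g ≠ 0 → lab j = g • lab' i) →
      (∀ j, KK (MulAction.stabilizer G (lab j))) → kr κ Z = 1 := by
    intro N
    induction N using Nat.strong_induction_on with
    | _ N ih =>
      intro n n' _ _ _ _ lab lab' Z Z' hN h1 h2 h3 h4 hK
      rcases isEmpty_or_nonempty n with hE | ⟨⟨j₀⟩⟩
      · have cn : Fintype.card n = Fintype.card n' := Matrix.square_of_invertible _ _ h2 h1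
        rw [kr_eq hP h1 h2 (Fintype.equivOfCardEq cn)]
        rw [show Z.submatrix (Fintype.equivOfCardEq cn) id = 1 from
          Matrix.ext fun i => isEmptyElim i, κ.f_one]
      · classical
        have z3 : ∀ i j, lab' i ∉ MulAction.orbit G (lab j₀) → lab j ∈ MulAction.orbit G (lab j₀) →
            Z i j = 0 := by
          intro i j hi hj
          refine MonoidAlgebra.ext (Finsupp.ext fun g => ?_)
          by_contra hg
          exact hi (by rw [h3 i j g hg]; exact MulAction.mem_orbit_of_mem_orbit g hj)
        have z4 : ∀ j i, lab j ∉ MulAction.orbit G (lab j₀) → lab' i ∈ MulAction.orbit G (lab j₀) →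
            Z' j i = 0 := by
          intro j i hj hi
          refine MonoidAlgebra.ext (Finsupp.ext fun g => ?_)
          by_contra hg
          exact hj (by rw [h4 j i g hg]; exact MulAction.mem_orbit_of_mem_orbit g hi)
        obtain ⟨e1, e2, e3, e4, e5⟩ := kr_split hP h1 h2 (fun j => lab j ∈ MulAction.orbit G (lab j₀))
          (fun i => lab' i ∈ MulAction.orbit G (lab j₀)) z3 z4
        rw [e5]
        have a1 : kr κ (piece Z (fun i => lab' i ∈ MulAction.orbit G (lab j₀))
            fun j => lab j ∈ MulAction.orbit G (lab j₀)) = 1 := by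
          have f1 : ∀ j : {j // lab j ∈ MulAction.orbit G (lab j₀)}, ∃ g : G,
              g • lab j₀ = lab j.1 := fun j => j.2
          have f2 : ∀ i : {i // lab' i ∈ MulAction.orbit G (lab j₀)}, ∃ g : G,
              g • lab j₀ = lab' i.1 := fun i => i.2
          choose t ht using f1
          choose t' ht' using f2
          exact kr_orbit hL hκ (fun j : {j // lab j ∈ MulAction.orbit G (lab j₀)} => lab j.1)
            (fun i : {i // lab' i ∈ MulAction.orbit G (lab j₀)} => lab' i.1) e1 e2
            (fun i j g h => h3 i.1 j.1 g h) (fun j i g h => h4 j.1 i.1 g h) (lab j₀) (hK j₀) t ht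
            t' ht'
        have a2 : kr κ (piece Z (fun i => ¬ lab' i ∈ MulAction.orbit G (lab j₀))
            fun j => ¬ lab j ∈ MulAction.orbit G (lab j₀)) = 1 := by
          refine ih (Fintype.card {j // ¬ lab j ∈ MulAction.orbit G (lab j₀)}) ?_ _ _
            (fun j => lab j.1) (fun i => lab' i.1) _ _ rfl e3 e4
            (fun i j g h => h3 i.1 j.1 g h) (fun j i g h => h4 j.1 i.1 g h) (fun j => hK j.1)
          rw [← hN]
          exact Fintype.card_subtype_lt (x := j₀) (not_not.2 (MulAction.mem_orbit_self _))
        rw [a1, a2, one_mul]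
  exact key _ n n' lab lab' Z Z' rfl h1 h2 h3 h4 hK

end Lab

end Pool.Agent.TQ
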