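import Pool.Agent.Lib.MP_8f66f0_al_TQ.LemK
import Pool.Agent.Lib.MP_8f66f0_al_Q.Defs
import Pool.Agent.Lib.MP_8f66f0_al_HierZ.Poly

/-!
# Triangular labelled isomorphisms, and the homotopy

`kr_tri_lab`: isomorphisms between labelled sets which are triangular with respect to a grading.
`kr_H1`: the invariants of the two evaluations of an isomorphism over `L[t][Γ]` are equal.
-/

set_option autoImplicit false

namespace Pool.Agent.TQ

open Pool.Agent.Wald Pool.Agent.WaldL Pool.Agent.Ind Pool.Agent.FH Pool.Agent.Hier Pool.Agent.QT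
  Matrix

section Tri

variable {L G K X : Type} [CommRing L] [Group G] [CommGroup K] [MulAction G X]

/-- Lemma K for triangular isomorphisms: the entries do not increase the grading, and the entries which
preserve it respect the labels. -/
theorem kr_tri_lab [IsDomain L] (hL : IsEuc L) {κ : K1Fun (MonoidAlgebra L G) K} (hκ : KU κ)
    (N : ℕ) {n n' : Type} [Fintype n] [DecidableEq n] [Fintype n'] [DecidableEq n']
    (r : n → ℕ) (r' : n' → ℕ) (hr : ∀ j, r j < N) (hr' : ∀ i, r' i < N)
    (lab : n → X) (lab' : n' → X) {Z : Matrix n' n (MonoidAlgebra L G)}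
    {Z' : Matrix n n' (MonoidAlgebra L G)} (h1 : Z * Z' = 1) (h2 : Z' * Z = 1)
    (h3 : ∀ i j g, (Z i j).coeff g ≠ 0 → r' i ≤ r j ∧ (r' i = r j → lab' i = g • lab j))
    (h4 : ∀ j i g, (Z' j i).coeff g ≠ 0 → r j ≤ r' i ∧ (r j = r' i → lab j = g • lab' i))
    (hK : ∀ j, KK (MulAction.stabilizer G (lab j))) : kr κ Z = 1 := by
  haveI : InvariantBasisNumber (MonoidAlgebra L G) := ibn_gr
  have hP := kperm_of_ku hκ
  induction N generalizing n n' with
  | zero =>
    haveI : IsEmpty n := ⟨fun j => Nat.not_lt_zero _ (hr j)⟩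
    have cn : Fintype.card n = Fintype.card n' := Matrix.square_of_invertible _ _ h2 h1
    rw [kr_eq hP h1 h2 (Fintype.equivOfCardEq cn),
      show Z.submatrix (Fintype.equivOfCardEq cn) id = 1 from
        Matrix.ext fun i => isEmptyElim i, κ.f_one]
  | succ N ih =>
    have z3 : ∀ i j, ¬ r' i < N → r j < N → Z i j = 0 := by
      intro i j hi hj
      refine MonoidAlgebra.ext (Finsupp.ext fun g => ?_)
      by_contra hg
      have := (h3 i j g hg).1
      omega
    have z4 : ∀ j i, ¬ r j < N → r' i < N → Z' j i = 0 := by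
      intro j i hj hi
      refine MonoidAlgebra.ext (Finsupp.ext fun g => ?_)
      by_contra hg
      have := (h4 j i g hg).1
      omega
    obtain ⟨e1, e2, e3, e4, e5⟩ := kr_split hP h1 h2 (fun j => r j < N) (fun i => r' i < N) z3 z4
    have a1 : kr κ (piece Z (fun i => r' i < N) fun j => r j < N) = 1 :=
      ih (fun j => r j.1) (fun i => r' i.1) (fun j => j.2) (fun i => i.2) (fun j => lab j.1)
        (fun i => lab' i.1) e1 e2 (fun i j g h => h3 i.1 j.1 g h) (fun j i g h => h4 j.1 i.1 g h)
        (fun j => hK j.1)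
    have a2 : kr κ (piece Z (fun i => ¬ r' i < N) fun j => ¬ r j < N) = 1 := by
      refine kr_lab hL hκ (fun j : {j // ¬ r j < N} => lab j.1)
        (fun i : {i // ¬ r' i < N} => lab' i.1) e3 e4 (fun i j g h => ?_) (fun j i g h => ?_)
        (fun j => hK j.1)
      · have b1 := hr j.1
        have b2 := hr' i.1
        exact (h3 i.1 j.1 g h).2 (by have := i.2; have := j.2; omega)
      · have b1 := hr j.1
        have b2 := hr' i.1
        exact (h4 j.1 i.1 g h).2 (by have := i.2; have := j.2; omega)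
    rw [e5, a1, a2, one_mul]

/-- The invariant of a triangular isomorphism is the one of the top piece. -/
theorem kr_tri_top [IsDomain L] (hL : IsEuc L) {κ : K1Fun (MonoidAlgebra L G) K} (hκ : KU κ)
    (N : ℕ) {n n' : Type} [Fintype n] [DecidableEq n] [Fintype n'] [DecidableEq n']
    (r : n → ℕ) (r' : n' → ℕ) (hr : ∀ j, r j ≤ N) (hr' : ∀ i, r' i ≤ N)
    (lab : n → X) (lab' : n' → X) {Z : Matrix n' n (MonoidAlgebra L G)}
    {Z' : Matrix n n' (MonoidAlgebra L G)} (h1 : Z * Z' = 1) (h2 : Z' * Z = 1)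
    (h3 : ∀ i j g, (Z i j).coeff g ≠ 0 → r' i ≤ r j ∧ (r' i = r j → r j < N → lab' i = g • lab j))
    (h4 : ∀ j i g, (Z' j i).coeff g ≠ 0 → r j ≤ r' i ∧ (r j = r' i → r j < N → lab j = g • lab' i))
    (hK : ∀ j, r j < N → KK (MulAction.stabilizer G (lab j))) :
    piece Z (fun i => r' i = N) (fun j => r j = N) * piece Z' (fun j => r j = N)
      (fun i => r' i = N) = 1 ∧
    piece Z' (fun j => r j = N) (fun i => r' i = N) * piece Z (fun i => r' i = N)
      (fun j => r j = N) = 1 ∧
    kr κ Z = kr κ (piece Z (fun i => r' i = N) fun j => r j = N) := by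
  haveI : InvariantBasisNumber (MonoidAlgebra L G) := ibn_gr
  have hP := kperm_of_ku hκ
  have z3 : ∀ i j, ¬ (¬ r' i = N) → (¬ r j = N) → Z i j = 0 := by
    intro i j hi hj
    refine MonoidAlgebra.ext (Finsupp.ext fun g => ?_)
    by_contra hg
    have := (h3 i j g hg).1
    have := hr j
    omega
  have z4 : ∀ j i, ¬ (¬ r j = N) → (¬ r' i = N) → Z' j i = 0 := by
    intro j i hj hi
    refine MonoidAlgebra.ext (Finsupp.ext fun g => ?_)
    by_contra hg
    have := (h4 j i g hg).1
    have := hr' i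
    omega
  obtain ⟨e1, e2, e3, e4, e5⟩ := kr_split hP h1 h2 (fun j => ¬ r j = N) (fun i => ¬ r' i = N) z3 z4
  have a1 : kr κ (piece Z (fun i => ¬ r' i = N) fun j => ¬ r j = N) = 1 := by
    refine kr_tri_lab hL hκ N (fun j => r j.1) (fun i => r' i.1)
      (fun j => lt_of_le_of_ne (hr j.1) j.2) (fun i => lt_of_le_of_ne (hr' i.1) i.2)
      (fun j => lab j.1) (fun i => lab' i.1) e1 e2 (fun i j g h => ?_) (fun j i g h => ?_)
      (fun j => hK j.1 (lt_of_le_of_ne (hr j.1) j.2))
    · exact ⟨(h3 i.1 j.1 g h).1, fun h' => (h3 i.1 j.1 g h).2 h' (lt_of_le_of_ne (hr j.1) j.2)⟩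
    · exact ⟨(h4 j.1 i.1 g h).1, fun h' => (h4 j.1 i.1 g h).2 h' (lt_of_le_of_ne (hr j.1) j.2)⟩
  have f1 : piece Z (fun i => r' i = N) (fun j => r j = N) * piece Z' (fun j => r j = N)
      (fun i => r' i = N) = 1 := by
    rw [piece_mul _ _ _ _ _ (fun i v j hi hv _ => by
      rw [z3 i v (not_not.2 hi) hv, zero_mul]), h1, piece_one]
  have f2 : piece Z' (fun j => r j = N) (fun i => r' i = N) * piece Z (fun i => r' i = N)
      (fun j => r j = N) = 1 := by
    rw [piece_mul _ _ _ _ _ (fun i v j hi hv _ => by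
      rw [z4 i v (not_not.2 hi) hv, zero_mul]), h2, piece_one]
  refine ⟨f1, f2, ?_⟩
  rw [e5, a1, one_mul]
  have c1 : ∀ j, r j = N ↔ ¬ ¬ r j = N := fun j => not_not.symm
  have c2 : ∀ i, r' i = N ↔ ¬ ¬ r' i = N := fun i => not_not.symm
  exact kr_reindex hP f1 f2 (Equiv.subtypeEquivRight fun j => (c1 j).symm)
    (Equiv.subtypeEquivRight fun i => (c2 i).symm)

end Tri

section H1

variable {L Γ K : Type} [CommRing L] [Group Γ] [CommGroup K]

/-- The map from the polynomials over the group algebra. -/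
private noncomputable def psi : Polynomial (MonoidAlgebra L Γ) →+* MonoidAlgebra (Polynomial L) Γ :=
  Polynomial.eval₂RingHom' (coA (L := L) (Γ := Γ)) (MonoidAlgebra.single 1 Polynomial.X) fun a => by
    induction a using MonoidAlgebra.induction_linear with
    | zero => simp
    | add f g hf hg => rw [map_add]; exact hf.add_left hg
    | single g r =>
      rw [coA, MonoidAlgebra.mapRingHom_single]
      change _ * _ = _ * _
      rw [MonoidAlgebra.single_mul_single, MonoidAlgebra.single_mul_single, mul_one, one_mul,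
        mul_comm]

private theorem psi_coeff (p : Polynomial (MonoidAlgebra L Γ)) (g : Γ) (n : ℕ) :
    ((psi p).coeff g).coeff n = (p.coeff n).coeff g := by
  induction p using Polynomial.induction_on' with
  | add p q hp hq =>
    rw [map_add, MonoidAlgebra.coeff_add, Finsupp.add_apply, Polynomial.coeff_add, hp, hq,
      Polynomial.coeff_add, MonoidAlgebra.coeff_add, Finsupp.add_apply]
  | monomial m a =>
    have h1 : psi (Polynomial.monomial m a) = coA a * MonoidAlgebra.single 1 (Polynomial.X ^ m) := by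
      change Polynomial.eval₂ _ _ _ = _
      rw [Polynomial.eval₂_monomial, MonoidAlgebra.single_pow, one_pow]
    rw [h1, MonoidAlgebra.coeff_mul_single_eq_coeff_mul g (fun x _ => by rw [mul_one]), coA,
      MonoidAlgebra.coeff_mapRingHom, Polynomial.coeff_C_mul, Polynomial.coeff_X_pow,
      Polynomial.coeff_monomial]
    by_cases h : n = m
    · subst h
      simp
    · rw [if_neg h, if_neg (Ne.symm h), mul_zero, MonoidAlgebra.coeff_zero]
      rfl

private theorem psi_inj : Function.Injective (psi : Polynomial (MonoidAlgebra L Γ) →+* _) := by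
  intro p q h
  refine Polynomial.ext fun n => MonoidAlgebra.ext (Finsupp.ext fun g => ?_)
  rw [← psi_coeff, ← psi_coeff, h]

private theorem psi_surj : Function.Surjective (psi : Polynomial (MonoidAlgebra L Γ) →+* _) := by
  classical
  intro F
  induction F using MonoidAlgebra.induction_linear with
  | zero => exact ⟨0, map_zero _⟩
  | add f g hf hg =>
    obtain ⟨p, rfl⟩ := hf
    obtain ⟨q, rfl⟩ := hg
    exact ⟨p + q, map_add _ _ _⟩
  | single g r =>
    induction r using Polynomial.induction_on' with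
    | add p q hp hq =>
      obtain ⟨p', hp'⟩ := hp
      obtain ⟨q', hq'⟩ := hq
      exact ⟨p' + q', by rw [map_add, hp', hq', MonoidAlgebra.single_add]⟩
    | monomial m a =>
      refine ⟨Polynomial.monomial m (MonoidAlgebra.single g a), ?_⟩
      refine MonoidAlgebra.ext (Finsupp.ext fun h => Polynomial.ext fun n => ?_)
      rw [psi_coeff, Polynomial.coeff_monomial, MonoidAlgebra.coeff_single]
      by_cases hn : m = n
      · subst hn
        rw [if_pos rfl, MonoidAlgebra.coeff_single, Finsupp.single_apply, Finsupp.single_apply]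
        split
        · rw [Polynomial.coeff_monomial, if_pos rfl]
        · rw [Polynomial.coeff_zero]
      · rw [if_neg hn, MonoidAlgebra.coeff_zero, Finsupp.single_apply]
        split
        · rw [Polynomial.coeff_monomial, if_neg hn]; rfl
        · rw [Polynomial.coeff_zero]; rfl

private theorem psi_C (a : MonoidAlgebra L Γ) : psi (Polynomial.C a) = coA a := by
  change Polynomial.eval₂ _ _ _ = _
  rw [Polynomial.eval₂_C]

/-- `NK₁ = 0` for the group algebra over the polynomials. -/
theorem kt_coA [IsDomain L] (hL : IsEuc L) (hS : Hier.SS Γ) :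
    Hier.KT (coA : MonoidAlgebra L Γ →+* MonoidAlgebra (Polynomial L) Γ) := by
  have h0 : Hier.KT (Polynomial.C : MonoidAlgebra L Γ →+* Polynomial (MonoidAlgebra L Γ)) :=
    hS L hL _ _ _ _ _ _ (isLT_poly L Γ)
  intro K _ κ hκ n _ _ A hA
  let e : Polynomial (MonoidAlgebra L Γ) ≃+* MonoidAlgebra (Polynomial L) Γ :=
    RingEquiv.ofBijective psi ⟨psi_inj, psi_surj⟩
  have h1 : (A.map e.symm).map psi = A := by
    refine Matrix.ext fun i j => ?_
    exact e.apply_symm_apply (A i j)
  have h2 : IsUnit (A.map e.symm) := hA.map (RingHom.mapMatrix (e.symm : MonoidAlgebra (Polynomial L) Γ →+* Polynomial (MonoidAlgebra L Γ)))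
  have h3 := h0 K (pullK psi κ) (fun m _ _ B hB => by
    change κ.f ((B.map Polynomial.C).map psi) = 1
    rw [← hκ m B hB]
    congr 1
    exact Matrix.ext fun i j => psi_C (B i j)) n (A.map e.symm) h2
  change κ.f ((A.map e.symm).map psi) = 1 at h3
  rw [h1] at h3
  exact h3

theorem evA_coA (c : L) (a : MonoidAlgebra L Γ) : evA c (coA a) = a := by
  refine MonoidAlgebra.ext (Finsupp.ext fun g => ?_)
  rw [evA, coA, MonoidAlgebra.coeff_mapRingHom, MonoidAlgebra.coeff_mapRingHom]
  simp

/-- Homotopy invariance. -/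
theorem kr_H1 {κ : K1Fun (MonoidAlgebra L Γ) K} (hκ : KPerm κ) [InvariantBasisNumber (MonoidAlgebra L Γ)]
    (hS : Hier.KT (coA : MonoidAlgebra L Γ →+* MonoidAlgebra (Polynomial L) Γ)) {n n' : Type}
    [Fintype n] [DecidableEq n] [Fintype n'] [DecidableEq n']
    {Z : Matrix n' n (MonoidAlgebra (Polynomial L) Γ)} {Z' : Matrix n n' (MonoidAlgebra (Polynomial L) Γ)}
    (h1 : Z * Z' = 1) (h2 : Z' * Z = 1) (a b : L) :
    kr κ (Z.map (evA a)) = kr κ (Z.map (evA b)) := by
  have e : ∀ c : L, Z.map (evA c) * Z'.map (evA c) = 1 ∧ Z'.map (evA c) * Z.map (evA c) = 1 := by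
    intro c
    rw [← Matrix.map_mul, ← Matrix.map_mul, h1, h2, Matrix.map_one _ (map_zero _) (map_one _),
      Matrix.map_one _ (map_zero _) (map_one _)]
    exact ⟨rfl, rfl⟩
  have f : n ≃ n' := Fintype.equivOfCardEq (Matrix.square_of_invertible _ _ (e a).2 (e a).1)
  rw [kr_eq hκ (e a).1 (e a).2 f, kr_eq hκ (e b).1 (e b).2 f]
  have h3 := hS K (nDiv (pullK (evA a) κ) (pullK (evA b) κ)) (fun m _ _ B hB => by
    change κ.f ((B.map coA).map (evA a)) * (κ.f ((B.map coA).map (evA b)))⁻¹ = 1
    have h4 : ∀ c : L, (B.map coA).map (evA c) = B := fun c =>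
      Matrix.ext fun i j => evA_coA c (B i j)
    rw [h4, h4, mul_inv_cancel]) n (Z.submatrix f id) (isUnit_sub h1 h2 f)
  change κ.f ((Z.submatrix f id).map (evA a)) * (κ.f ((Z.submatrix f id).map (evA b)))⁻¹ = 1 at h3
  rw [mul_inv_eq_one] at h3
  exact h3

end H1

end Pool.Agent.TQ
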