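import Pool.Agent.Lib.MP_8f66f0_al_FH.ASpec
import Pool.Agent.Lib.MP_8f66f0_al_Wald.K1Lem

/-!
# `K₁`-like invariants of invertible rectangular matrices

`kr κ Z` is the value of the invariant `κ` at the invertible matrix `Z` with rows `n'` and columns `n`,
where `n` and `n'` have the same number of elements, after a reindexing. It is independent of the
reindexing if `κ` kills the permutation matrices.
-/

set_option autoImplicit false

namespace Pool.Agent.TQ

open Pool.Agent.Wald Pool.Agent.WaldL Pool.Agent.Ind Matrix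

section Kr

variable {A K : Type} [Ring A] [CommGroup K]

/-- The invariant kills the permutation matrices. -/
def KPerm (κ : K1Fun A K) : Prop :=
  ∀ (n : Type) [Fintype n] [DecidableEq n] (σ : Equiv.Perm n),
    κ.f ((1 : Matrix n n A).submatrix σ id) = 1

open Classical in
/-- The value of the invariant at an invertible rectangular matrix. -/
noncomputable def kr (κ : K1Fun A K) {n n' : Type} [Fintype n] [Fintype n'] (Z : Matrix n' n A) :
    K :=
  if h : Nonempty (n ≃ n') then κ.f (Z.submatrix h.some id) else 1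

theorem f_inst (κ : K1Fun A K) {n : Type} [Fintype n] (d d' : DecidableEq n) (Z : Matrix n n A) :
    @K1Fun.f A _ K _ κ n _ d Z = @K1Fun.f A _ K _ κ n _ d' Z := by
  rw [Subsingleton.elim d d']

variable {n n' n'' m m' : Type} [Fintype n] [Fintype n'] [Fintype n''] [Fintype m] [Fintype m']

theorem isUnit_sub [DecidableEq n] [DecidableEq n'] {Z : Matrix n' n A} {Z' : Matrix n n' A}
    (h1 : Z * Z' = 1) (h2 : Z' * Z = 1) (e : n ≃ n') : IsUnit (Z.submatrix e id) := by
  refine ⟨⟨Z.submatrix e id, Z'.submatrix id e, ?_, ?_⟩, rfl⟩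
  · have := submatrix_mul_equiv Z Z' e (Equiv.refl n) e
    rw [Equiv.coe_refl] at this
    rw [this, h1, submatrix_one_equiv]
  · rw [submatrix_mul_equiv, h2, submatrix_id_id]

theorem perm_mul [DecidableEq n] (σ : Equiv.Perm n) (M : Matrix n n A) :
    (1 : Matrix n n A).submatrix σ id * M = M.submatrix σ id := by
  have := submatrix_mul_equiv (1 : Matrix n n A) M σ (Equiv.refl n) id
  rw [Equiv.coe_refl, submatrix_id_id, one_mul] at this
  exact this

theorem isUnit_perm [DecidableEq n] (σ : Equiv.Perm n) :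
    IsUnit ((1 : Matrix n n A).submatrix σ id) :=
  isUnit_sub (mul_one _) (mul_one _) σ

theorem kr_eq {κ : K1Fun A K} (hκ : KPerm κ) [d : DecidableEq n] [DecidableEq n']
    {Z : Matrix n' n A} {Z' : Matrix n n' A} (h1 : Z * Z' = 1) (h2 : Z' * Z = 1) (e : n ≃ n') :
    kr κ Z = κ.f (Z.submatrix e id) := by
  have h : Nonempty (n ≃ n') := ⟨e⟩
  rw [kr, dif_pos h, f_inst κ _ d]
  have h3 : Z.submatrix h.some id =
      (1 : Matrix n n A).submatrix (h.some.trans e.symm) id * Z.submatrix e id := by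
    rw [perm_mul, submatrix_submatrix]
    congr 1
    funext i
    simp
  rw [h3, κ.mul _ _ (isUnit_perm _) (isUnit_sub h1 h2 e), hκ, one_mul]

theorem kr_square {κ : K1Fun A K} (hκ : KPerm κ) [DecidableEq n] {Z : Matrix n n A}
    (h : IsUnit Z) : kr κ Z = κ.f Z := by
  obtain ⟨u, rfl⟩ := h
  rw [kr_eq hκ u.mul_inv u.inv_mul (Equiv.refl n)]
  congr 1

theorem kr_mul {κ : K1Fun A K} (hκ : KPerm κ) [DecidableEq n] [DecidableEq n'] [DecidableEq n'']
    {Z : Matrix n' n A} {Z' : Matrix n n' A} (h1 : Z * Z' = 1) (h2 : Z' * Z = 1)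
    {Y : Matrix n'' n' A} {Y' : Matrix n' n'' A} (h3 : Y * Y' = 1) (h4 : Y' * Y = 1)
    (hn : Fintype.card n = Fintype.card n') (hn' : Fintype.card n' = Fintype.card n'') :
    kr κ (Y * Z) = kr κ Y * kr κ Z := by
  have e : n ≃ n' := Fintype.equivOfCardEq hn
  have e' : n' ≃ n'' := Fintype.equivOfCardEq hn'
  have h5 : Y * Z * (Z' * Y') = 1 := by
    rw [Matrix.mul_assoc, ← Matrix.mul_assoc Z, h1, Matrix.one_mul, h3]
  have h6 : Z' * Y' * (Y * Z) = 1 := by
    rw [Matrix.mul_assoc, ← Matrix.mul_assoc Y', h4, Matrix.one_mul, h2]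
  rw [kr_eq hκ h5 h6 (e.trans e'), kr_eq hκ h1 h2 e, kr_eq hκ h3 h4 e']
  have h7 : (Y * Z).submatrix (e.trans e') id =
      (Y.submatrix e' id).submatrix e e * Z.submatrix e id := by
    rw [submatrix_submatrix]
    have := submatrix_mul_equiv Y Z (e.trans e') e (id : n → n)
    rw [← this]
    rfl
  have h8 : IsUnit ((Y.submatrix e' id).submatrix e e) := by
    have := K1Fun.isUnit_submatrix e.symm (isUnit_sub h3 h4 e')
    simpa using this
  have h9 := κ.reindex e.symm (Y.submatrix e' id) (isUnit_sub h3 h4 e')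
  rw [Equiv.symm_symm] at h9
  rw [h7, κ.mul _ _ h8 (isUnit_sub h1 h2 e), h9]

theorem kr_one {κ : K1Fun A K} (hκ : KPerm κ) [DecidableEq n] : kr κ (1 : Matrix n n A) = 1 := by
  rw [kr_square hκ isUnit_one, κ.f_one]

/-- Reindexing. -/
theorem kr_reindex {κ : K1Fun A K} (hκ : KPerm κ) [DecidableEq n] [DecidableEq n']
    {Z : Matrix n' n A} {Z' : Matrix n n' A} (h1 : Z * Z' = 1) (h2 : Z' * Z = 1) (e : m ≃ n)
    (e' : m' ≃ n') : kr κ (Z.submatrix e' e) = kr κ Z := by
  classical
  by_cases h : Nonempty (n ≃ n')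
  · obtain ⟨f⟩ := h
    have h3 : Z.submatrix e' e * Z'.submatrix e e' = 1 := by
      rw [submatrix_mul_equiv, h1, submatrix_one_equiv]
    have h4 : Z'.submatrix e e' * Z.submatrix e' e = 1 := by
      rw [submatrix_mul_equiv, h2, submatrix_one_equiv]
    rw [kr_eq hκ h3 h4 ((e.trans f).trans e'.symm), kr_eq hκ h1 h2 f]
    have h5 := κ.reindex e.symm (Z.submatrix f id) (isUnit_sub h1 h2 f)
    rw [Equiv.symm_symm] at h5
    rw [← h5]
    congr 1
    rw [submatrix_submatrix, submatrix_submatrix]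
    congr 1
    funext i
    simp
  · have h' : ¬ Nonempty (m ≃ m') := fun ⟨f⟩ => h ⟨(e.symm.trans f).trans e'⟩
    rw [kr, kr, dif_neg h, dif_neg h']

/-- Triangular block matrices. -/
theorem kr_blocks {κ : K1Fun A K} (hκ : KPerm κ) [DecidableEq n] [DecidableEq n'] [DecidableEq m]
    [DecidableEq m'] {Z : Matrix n' n A} {Z' : Matrix n n' A} (h1 : Z * Z' = 1) (h2 : Z' * Z = 1)
    {Y : Matrix m' m A} {Y' : Matrix m m' A} (h3 : Y * Y' = 1) (h4 : Y' * Y = 1)
    (B : Matrix n' m A) (hn : Fintype.card n = Fintype.card n')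
    (hm : Fintype.card m = Fintype.card m') :
    kr κ (fromBlocks Z B 0 Y) = kr κ Z * kr κ Y := by
  have e : n ≃ n' := Fintype.equivOfCardEq hn
  have f : m ≃ m' := Fintype.equivOfCardEq hm
  have h5 : fromBlocks Z B 0 Y * fromBlocks Z' (-(Z' * B * Y')) 0 Y' = 1 := by
    rw [fromBlocks_multiply, Matrix.mul_zero, add_zero, h1, Matrix.zero_mul, Matrix.mul_zero,
      add_zero, Matrix.zero_mul, zero_add, h3, Matrix.mul_neg, ← Matrix.mul_assoc,
      ← Matrix.mul_assoc, h1, Matrix.one_mul, neg_add_cancel, fromBlocks_one]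
  have h6 : fromBlocks Z' (-(Z' * B * Y')) 0 Y' * fromBlocks Z B 0 Y = 1 := by
    rw [fromBlocks_multiply, Matrix.mul_zero, add_zero, h2, Matrix.zero_mul, Matrix.mul_zero,
      add_zero, Matrix.zero_mul, zero_add, h4, Matrix.neg_mul, Matrix.mul_assoc _ Y' Y, h4,
      Matrix.mul_one, add_neg_cancel, fromBlocks_one]
  rw [kr_eq hκ h5 h6 (Equiv.sumCongr e f), kr_eq hκ h1 h2 e, kr_eq hκ h3 h4 f]
  have h7 : (fromBlocks Z B 0 Y).submatrix (Equiv.sumCongr e f) id =
      fromBlocks (Z.submatrix e id) (B.submatrix e id) 0 (Y.submatrix f id) := by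
    ext (i | i) (j | j) <;> rfl
  rw [h7, κ.tri _ _ _ (isUnit_sub h1 h2 e) (isUnit_sub h3 h4 f)]

/-- The piece of a matrix between two subsets of the index sets. -/
def piece {A n n' : Type} (Z : Matrix n' n A) (p' : n' → Prop) (p : n → Prop) :
    Matrix {i // p' i} {j // p j} A :=
  fun i j => Z i.1 j.1

theorem piece_apply {A n n' : Type} (Z : Matrix n' n A) (p' : n' → Prop) (p : n → Prop)
    (i : {i // p' i}) (j : {j // p j}) : piece Z p' p i j = Z i.1 j.1 := rfl

/-- The product of two pieces. -/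
theorem piece_mul {n n'' : Type} (Z : Matrix n'' n' A) (Y : Matrix n' n A) (p'' : n'' → Prop)
    (p' : n' → Prop) [Fintype {v // p' v}] (p : n → Prop)
    (h : ∀ i v j, p'' i → ¬ p' v → p j → Z i v * Y v j = 0) :
    piece Z p'' p' * piece Y p' p = piece (Z * Y) p'' p := by
  classical
  ext i j
  rw [mul_apply, piece_apply, mul_apply]
  have h1 : ∑ v : {v // p' v}, Z i.1 v.1 * Y v.1 j.1 =
      ∑ v ∈ Finset.univ.filter p', Z i.1 v * Y v j.1 := by
    rw [Finset.sum_subtype (Finset.univ.filter p') (p := p') (fun v => by simp)]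
  change ∑ v : {v // p' v}, Z i.1 v.1 * Y v.1 j.1 = _
  rw [h1]
  refine Finset.sum_subset (Finset.filter_subset _ _) fun v _ hv => ?_
  exact h _ _ _ i.2 (fun hp => hv (Finset.mem_filter.2 ⟨Finset.mem_univ _, hp⟩)) j.2

theorem piece_one {n : Type} [DecidableEq n] (p : n → Prop) [DecidableEq {j // p j}] :
    piece (1 : Matrix n n A) p p = 1 := by
  ext i j
  rw [piece_apply, one_apply, one_apply]
  simp only [Subtype.ext_iff]

/-- Decomposition of a triangular matrix: the entries in the rows outside `p'` and the columns in `p`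
are zero. -/
theorem kr_split {κ : K1Fun A K} (hκ : KPerm κ) [InvariantBasisNumber A] [DecidableEq n]
    [DecidableEq n'] {Z : Matrix n' n A} {Z' : Matrix n n' A} (h1 : Z * Z' = 1) (h2 : Z' * Z = 1)
    (p : n → Prop) (p' : n' → Prop) [DecidablePred p] [DecidablePred p']
    (h3 : ∀ i j, ¬ p' i → p j → Z i j = 0) (h4 : ∀ i j, ¬ p i → p' j → Z' i j = 0) :
    piece Z p' p * piece Z' p p' = 1 ∧ piece Z' p p' * piece Z p' p = 1 ∧
    piece Z (fun i => ¬ p' i) (fun j => ¬ p j) * piece Z' (fun i => ¬ p i) (fun j => ¬ p' j) = 1 ∧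
    piece Z' (fun i => ¬ p i) (fun j => ¬ p' j) * piece Z (fun i => ¬ p' i) (fun j => ¬ p j) = 1 ∧
    kr κ Z = kr κ (piece Z p' p) * kr κ (piece Z (fun i => ¬ p' i) fun j => ¬ p j) := by
  have e1 : piece Z p' p * piece Z' p p' = 1 := by
    rw [piece_mul _ _ _ _ _ (fun i v j _ hv hj => by rw [h4 v j hv hj, mul_zero]), h1, piece_one]
  have e2 : piece Z' p p' * piece Z p' p = 1 := by
    rw [piece_mul _ _ _ _ _ (fun i v j _ hv hj => by rw [h3 v j hv hj, mul_zero]), h2, piece_one]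
  have e3 : piece Z (fun i => ¬ p' i) (fun j => ¬ p j) *
      piece Z' (fun i => ¬ p i) (fun j => ¬ p' j) = 1 := by
    rw [piece_mul _ _ _ _ _ (fun i v j hi hv _ => by rw [h3 i v hi (not_not.1 hv), zero_mul]), h1,
      piece_one]
  have e4 : piece Z' (fun i => ¬ p i) (fun j => ¬ p' j) *
      piece Z (fun i => ¬ p' i) (fun j => ¬ p j) = 1 := by
    rw [piece_mul _ _ _ _ _ (fun i v j hi hv _ => by rw [h4 i v hi (not_not.1 hv), zero_mul]), h2,
      piece_one]
  refine ⟨e1, e2, e3, e4, ?_⟩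
  have c1 := Matrix.square_of_invertible _ _ e2 e1
  have c2 := Matrix.square_of_invertible _ _ e4 e3
  rw [← kr_blocks hκ e1 e2 e3 e4 (piece Z p' fun j => ¬ p j) c1 c2,
    ← kr_reindex hκ h1 h2 (Equiv.sumCompl p) (Equiv.sumCompl p')]
  congr 1
  ext (i | i) (j | j)
  · rfl
  · rfl
  · exact h3 _ _ i.2 j.2
  · rfl

/-- If the pieces of `Z` outside `p'`, `p` are killed. -/
theorem kr_split_left {κ : K1Fun A K} (hκ : KPerm κ) [InvariantBasisNumber A] [DecidableEq n]
    [DecidableEq n'] {Z : Matrix n' n A} {Z' : Matrix n n' A} (h1 : Z * Z' = 1) (h2 : Z' * Z = 1)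
    (p : n → Prop) (p' : n' → Prop) [DecidablePred p] [DecidablePred p']
    (h3 : ∀ i j, ¬ p' i → p j → Z i j = 0) (h4 : ∀ i j, ¬ p i → p' j → Z' i j = 0)
    (h5 : kr κ (piece Z (fun i => ¬ p' i) fun j => ¬ p j) = 1) :
    kr κ Z = kr κ (piece Z p' p) := by
  rw [(kr_split hκ h1 h2 p p' h3 h4).2.2.2.2, h5, mul_one]

end Kr

end Pool.Agent.TQ
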