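import Pool.Agent.Lib.MP_8f66f0_al_TQ.TD

/-! Theorem TQ: coinduction. Let `H` be a subgroup of `Λ` and let `H` act on a tree through
`f : H →* G`. Then `Λ` acts on the forest `(Λ ⧸ H) × T`. -/

set_option autoImplicit false

namespace Pool.Agent.TQ

section

variable {Λ G : Type} [Group Λ] [Group G] (H : Subgroup Λ) (f : H →* G)

/-- The cocycle. -/
noncomputable def cc (g : Λ) (q : Λ ⧸ H) : H :=
  ⟨(g • q).out⁻¹ * (g * q.out), by
    have h1 : (((g * q.out : Λ)) : Λ ⧸ H) = g • q := by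
      rw [← smul_eq_mul, ← MulAction.Quotient.smul_coe, QuotientGroup.out_eq']
    have h2 : (((g • q).out : Λ) : Λ ⧸ H) = g • q := QuotientGroup.out_eq' _
    exact QuotientGroup.eq.1 (h2.trans h1.symm)⟩

theorem cc_one (q : Λ ⧸ H) : cc H 1 q = 1 := by
  refine Subtype.ext ?_
  simp only [cc, one_smul, one_mul, inv_mul_cancel]
  rfl

theorem cc_mul (g h : Λ) (q : Λ ⧸ H) : cc H (g * h) q = cc H g (h • q) * cc H h q := by
  refine Subtype.ext ?_
  simp only [cc, Subgroup.coe_mul, mul_smul]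
  group

/-- The coinduced set. -/
@[ext] structure CoT {Λ G : Type} [Group Λ] [Group G] (H : Subgroup Λ) (_f : H →* G)
    (X : Type) : Type where
  /-- the component -/
  q : Λ ⧸ H
  /-- the point -/
  x : X

noncomputable instance (X : Type) [MulAction G X] : MulAction Λ (CoT H f X) where
  smul g x := ⟨g • x.q, f (cc H g x.q) • x.x⟩
  one_smul x := by
    change (⟨(1 : Λ) • x.q, f (cc H 1 x.q) • x.x⟩ : CoT H f X) = x
    rw [cc_one, map_one, one_smul, one_smul]
  mul_smul g h x := by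
    change (⟨(g * h) • x.q, f (cc H (g * h) x.q) • x.x⟩ : CoT H f X) =
      ⟨g • h • x.q, f (cc H g (h • x.q)) • f (cc H h x.q) • x.x⟩
    rw [cc_mul, map_mul, mul_smul, mul_smul]

theorem co_smul {X : Type} [MulAction G X] (g : Λ) (x : CoT H f X) :
    g • x = ⟨g • x.q, f (cc H g x.q) • x.x⟩ := rfl

variable {V E : Type} [MulAction G V] [MulAction G E] [MulAction G Unit]

/-- The coinduced forest. -/
noncomputable def coTD (D : TreeData G V E Unit) : TreeData Λ (CoT H f V) (CoT H f E) (Λ ⧸ H) where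
  tail x := ⟨x.q, D.tail x.x⟩
  head x := ⟨x.q, D.head x.x⟩
  home x := x.q
  root q := ⟨q, D.root ()⟩
  dep x := D.dep x.x
  par x := ⟨x.q, D.par x.x⟩
  ch x := ⟨x.q, D.ch x.x⟩
  tail_smul g x := by
    rw [co_smul, co_smul]
    exact CoT.ext rfl (D.tail_smul _ _)
  head_smul g x := by
    rw [co_smul, co_smul]
    exact CoT.ext rfl (D.head_smul _ _)
  home_smul g x := by rw [co_smul]
  home_edge x := rfl
  home_root q := rfl
  dep_zero x h := CoT.ext rfl (D.dep_zero x.x h)
  dep_par x h := D.dep_par x.x h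
  dep_ch x := D.dep_ch x.x
  ch_inj x y h := CoT.ext (congrArg (fun z : CoT H f V => z.q) h)
    (D.ch_inj (congrArg (fun z : CoT H f V => z.x) h))
  ch_surj x h := by
    obtain ⟨e, he⟩ := D.ch_surj x.x h
    exact ⟨⟨x.q, e⟩, CoT.ext rfl he⟩
  ends x := by
    rcases D.ends x.x with ⟨h1, h2⟩ | ⟨h1, h2⟩
    · exact Or.inl ⟨CoT.ext rfl h1, CoT.ext rfl h2⟩
    · exact Or.inr ⟨CoT.ext rfl h1, CoT.ext rfl h2⟩

/-- The cell of the original tree. -/
def und : CoT H f V ⊕ CoT H f E → V ⊕ E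
  | .inl x => .inl x.x
  | .inr x => .inr x.x

theorem und_smul (D : TreeData G V E Unit) (g : Λ) (c : CoT H f V ⊕ CoT H f E) :
    und H f (g • c) = f (cc H g ((coTD H f D).homeC c)) • und H f c := by
  rcases c with x | x
  · rfl
  · rfl

/-- The conjugation from the stabilizer of `q`. -/
noncomputable def stHom (q : Λ ⧸ H) : MulAction.stabilizer Λ q →* H where
  toFun g := cc H g.1 q
  map_one' := cc_one H q
  map_mul' g h := by
    change cc H (g.1 * h.1) q = _
    rw [cc_mul, MulAction.mem_stabilizer_iff.1 h.2]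

theorem stHom_inj (q : Λ ⧸ H) : Function.Injective (stHom H q) := by
  intro g h hgh
  have h1 : (g.1 • q).out⁻¹ * (g.1 * q.out) = (h.1 • q).out⁻¹ * (h.1 * q.out) :=
    congrArg Subtype.val hgh
  rw [MulAction.mem_stabilizer_iff.1 g.2, MulAction.mem_stabilizer_iff.1 h.2] at h1
  exact Subtype.ext (mul_right_cancel (mul_left_cancel h1))

/-- A subgroup which fixes a partial cell has a subgroup of finite index which embeds in the
stabilizer of a cell of the original tree. -/
theorem fix_emb (D : TreeData G V E Unit) (hH : H.FiniteIndex) (hf : Function.Injective f)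
    (C : Subgroup Λ) (J : Set (Λ ⧸ H)) (c : Λ ⧸ H → CoT H f V ⊕ CoT H f E) (hJ : J.Nonempty)
    (hc : (coTD H f D).Fixes C J c) :
    ∃ (C' : Subgroup C) (φ : C' →* G) (x : V ⊕ E), C'.FiniteIndex ∧ Function.Injective φ ∧
      ∀ s, φ s • x = x := by
  obtain ⟨j, hj⟩ := hJ
  obtain ⟨h1, h2⟩ := hc
  let S := MulAction.stabilizer Λ j
  have hS : S.FiniteIndex := by
    refine ⟨?_⟩
    rw [MulAction.index_stabilizer]
    have : Finite (Λ ⧸ H) := inferInstance
    exact (Set.ncard_pos (Set.toFinite _)).2 ⟨j, MulAction.mem_orbit_self j⟩ |>.ne'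
  let i : S.subgroupOf C →* S := (C.subtype.comp (S.subgroupOf C).subtype).codRestrict S
    fun x => x.2
  have hi : Function.Injective i := fun x y hxy =>
    Subtype.ext (Subtype.ext (congrArg (fun z : S => (z : Λ)) hxy))
  refine ⟨S.subgroupOf C, f.comp ((stHom H j).comp i), und H f (c j), inferInstance,
    hf.comp ((stHom_inj H j).comp hi), fun s => ?_⟩
  have h3 : s.1.1 • j = j := s.2
  have h4 := (h2 s.1.1 s.1.2 j hj).2
  rw [h3] at h4
  have h5 := und_smul H f D s.1.1 (c j)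
  rw [h1 j hj, ← h4] at h5
  exact h5.symm

/-- The index of `H` decreases in the stabilizer of a set of cosets. -/
theorem index_lt (hH : H.FiniteIndex) (C : Subgroup Λ) (J : Set (Λ ⧸ H)) (hJ : J.Nonempty)
    (hJ' : J ≠ Set.univ) (hC : ∀ g ∈ C, ∀ j ∈ J, g • j ∈ J) :
    (H.subgroupOf C).index < H.index := by
  have hfin : Finite (Λ ⧸ H) := inferInstance
  let pt : Λ ⧸ H := ((1 : Λ) : Λ ⧸ H)
  have h1 : H.subgroupOf C = MulAction.stabilizer C pt := by
    ext g
    rw [Subgroup.mem_subgroupOf, MulAction.mem_stabilizer_iff]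
    change g.1 ∈ H ↔ ((g.1 * 1 : Λ) : Λ ⧸ H) = ((1 : Λ) : Λ ⧸ H)
    rw [mul_one, eq_comm, QuotientGroup.eq, inv_one, one_mul]
  rw [h1, MulAction.index_stabilizer, Subgroup.index, ← Set.ncard_univ]
  refine Set.ncard_lt_ncard (Set.ssubset_univ_iff.2 fun h2 => ?_) (Set.toFinite _)
  have h3 : ∀ x : Λ ⧸ H, ∃ g : C, g.1 • pt = x := fun x => by
    have : x ∈ MulAction.orbit C pt := by
      rw [h2]
      trivial
    exact this
  by_cases h4 : pt ∈ J
  · refine hJ' (Set.eq_univ_of_forall fun x => ?_)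
    obtain ⟨g, rfl⟩ := h3 x
    exact hC g.1 g.2 pt h4
  · obtain ⟨j, hj⟩ := hJ
    obtain ⟨g, rfl⟩ := h3 j
    have h5 := hC g.1⁻¹ (C.inv_mem g.2) _ hj
    rw [inv_smul_smul] at h5
    exact h4 h5

end

end Pool.Agent.TQ
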