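import Pool.Agent.Lib.MP_8f66f0_al_TQ.TD
import Pool.Agent.Lib.MP_8f66f0_al_Tree.Basic

/-! Theorem TQ: the tree of a cut system, subdivided: the vertices are the classes of points and the
pairs `{h, hᶜ}` of cuts, the edges are the cuts. The orientation of the edges is invariant. -/

set_option autoImplicit false

namespace Pool.Agent.TQ

open Pool.Agent.TreeC Pointwise

section

variable {G V : Type} [Group G] [MulAction G V] {𝓗 : Set (Set V)}

/-- The points up to equivalence. -/
def vSetoid (𝓗 : Set (Set V)) : Setoid V := ⟨Eqv 𝓗, Eqv.refl, Eqv.symm, Eqv.trans⟩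

/-- The cuts. -/
def CE (_hH : CutSys G V 𝓗) : Type := {h : Set V // h ∈ 𝓗}

/-- The cuts up to complements. -/
def hSetoid (hH : CutSys G V 𝓗) : Setoid (CE hH) where
  r h k := h.1 = k.1 ∨ h.1 = k.1ᶜ
  iseqv := by
    refine ⟨fun h => Or.inl rfl, ?_, ?_⟩
    · rintro h k (h1 | h1)
      · exact Or.inl h1.symm
      · refine Or.inr ?_
        rw [h1, compl_compl]
    · rintro h k l (h1 | h1) (h2 | h2)
      · exact Or.inl (h1.trans h2)
      · exact Or.inr (h1.trans h2)
      · refine Or.inr ?_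
        rw [h1, h2]
      · refine Or.inl ?_
        rw [h1, h2, compl_compl]

/-- The classes of points. -/
def CV (_hH : CutSys G V 𝓗) : Type := Quotient (vSetoid 𝓗)

/-- The pairs of cuts. -/
def CP (hH : CutSys G V 𝓗) : Type := Quotient (hSetoid hH)

variable (hH : CutSys G V 𝓗)

/-- The class of a point. -/
def cvk (x : V) : CV hH := Quotient.mk (vSetoid 𝓗) x

/-- The class of a cut. -/
def cpk (h : CE hH) : CP hH := Quotient.mk (hSetoid hH) h

theorem cvk_eq {x y : V} : cvk hH x = cvk hH y ↔ Eqv 𝓗 x y := Quotient.eq (r := vSetoid 𝓗)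

theorem cv_ind (u : CV hH) : ∃ x, u = cvk hH x :=
  Quotient.inductionOn u fun x => ⟨x, rfl⟩

theorem cp_ind (p : CP hH) : ∃ h, p = cpk hH h :=
  Quotient.inductionOn p fun h => ⟨h, rfl⟩

theorem cpk_eq {h k : CE hH} : cpk hH h = cpk hH k ↔ h.1 = k.1 ∨ h.1 = k.1ᶜ :=
  Quotient.eq (r := hSetoid hH)

instance : MulAction G (CE hH) where
  smul g h := ⟨g • h.1, hH.smul g h.1 h.2⟩
  one_smul h := Subtype.ext (one_smul G h.1)
  mul_smul g k h := Subtype.ext (mul_smul g k h.1)

theorem ce_smul (g : G) (h : CE hH) : (g • h).1 = g • h.1 := rfl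

instance : MulAction G (CV hH) where
  smul g := Quotient.map (fun x => g • x) fun _ _ h => Eqv.smul hH h g
  one_smul x := by
    obtain ⟨x, rfl⟩ := cv_ind hH x
    exact congrArg (cvk hH) (one_smul G x)
  mul_smul g k x := by
    obtain ⟨x, rfl⟩ := cv_ind hH x
    exact congrArg (cvk hH) (mul_smul g k x)

theorem cvk_smul (g : G) (x : V) : g • cvk hH x = cvk hH (g • x) := rfl

theorem smul_compl' (g : G) (h : Set V) : g • hᶜ = (g • h)ᶜ := Set.smul_set_compl

instance : MulAction G (CP hH) where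
  smul g := Quotient.map (fun h : CE hH => g • h) fun h k hk => by
    rcases hk with h1 | h1
    · exact Or.inl (congrArg (g • ·) h1)
    · refine Or.inr ?_
      change g • h.1 = (g • k.1)ᶜ
      rw [h1, smul_compl']
  one_smul x := by
    obtain ⟨x, rfl⟩ := cp_ind hH x
    exact congrArg (cpk hH) (one_smul G x)
  mul_smul g k x := by
    obtain ⟨x, rfl⟩ := cp_ind hH x
    exact congrArg (cpk hH) (mul_smul g k x)

theorem cpk_smul (g : G) (h : CE hH) : g • cpk hH h = cpk hH (g • h) := rfl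

/-- A point of the cut next to the other side. -/
noncomputable def ea (h : CE hH) : V := (hH.adj h.1 h.2).choose

/-- A point of the other side next to the cut. -/
noncomputable def eb (h : CE hH) : V := (hH.adj h.1 h.2).choose_spec.choose

theorem adj_e (h : CE hH) : Adj 𝓗 h.1 (ea hH h) (eb hH h) :=
  (hH.adj h.1 h.2).choose_spec.choose_spec

/-- The complement. -/
def co (h : CE hH) : CE hH := ⟨h.1ᶜ, hH.compl h.1 h.2⟩

theorem ea_co (h : CE hH) : Eqv 𝓗 (ea hH (co hH h)) (eb hH h) :=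
  (adj_e hH (co hH h)).eqv_left hH (co hH h).2 ((adj_e hH h).compl hH)

theorem eb_co (h : CE hH) : Eqv 𝓗 (eb hH (co hH h)) (ea hH h) :=
  (adj_e hH (co hH h)).eqv_right hH (co hH h).2 ((adj_e hH h).compl hH)

theorem cpk_co (h : CE hH) : cpk hH (co hH h) = cpk hH h := (cpk_eq hH).2 (Or.inr rfl)

theorem ea_smul (g : G) (h : CE hH) : Eqv 𝓗 (ea hH (g • h)) (g • ea hH h) :=
  (adj_e hH (g • h)).eqv_left hH (g • h).2 ((adj_e hH h).smul hH g)

variable (x0 : V)

/-- The sum of the distances of the ends of an edge. -/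
noncomputable def sd (h : CE hH) : ℕ := dist 𝓗 (ea hH h) x0 + dist 𝓗 (eb hH h) x0

theorem sd_co (h : CE hH) : sd hH x0 (co hH h) = sd hH x0 h := by
  rw [sd, sd, dist_congr (ea_co hH h) (Eqv.refl x0), dist_congr (eb_co hH h) (Eqv.refl x0),
    add_comm]

include hH in
/-- Uniqueness of the first edge on the way to `x0`. -/
theorem first_unique {h k : Set V} (hh : h ∈ 𝓗) (hk : k ∈ 𝓗) {a b a' b' : V}
    (hab : Adj 𝓗 h a b) (hab' : Adj 𝓗 k a' b') (he : Eqv 𝓗 a a') (h0 : x0 ∉ h) (h0' : x0 ∉ k) :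
    h = k := by
  by_contra hne
  have h1 : a ∈ k := (he k hk).2 hab'.1
  have h2 : a' ∈ h := (he h hh).1 hab.1
  have h3 : b ∈ k := by
    by_contra h4
    exact hne (hab.2.2 k hk h1 h4).symm
  have h4 : b' ∈ h := by
    by_contra h5
    exact hne (hab'.2.2 h hh h2 h5)
  rcases hH.nest h hh k hk with h5 | h5 | h5 | h5
  · exact hab'.2.1 (h5 h4)
  · exact h5 hab.1 h1
  · exact h0' (h5 h0)
  · exact h5 hab.2.1 h3

theorem exists_up {u : V} (hu : ¬ Eqv 𝓗 u x0) :
    ∃ k : CE hH, x0 ∉ k.1 ∧ Eqv 𝓗 u (ea hH k) := by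
  obtain ⟨k, hk, h1⟩ := exists_first hH hu
  have h2 := h1 _ _ (adj_e hH ⟨k, hk⟩)
  refine ⟨⟨k, hk⟩, fun h3 => ?_, h2.1⟩
  have h4 := dist_near hH hk (adj_e hH ⟨k, hk⟩) h3
  have h5 := dist_congr h2.1 (Eqv.refl x0)
  omega

open Classical in
/-- The edge above a point. -/
noncomputable def up (u : V) : Option (CE hH) :=
  if hu : ¬ Eqv 𝓗 u x0 then some (exists_up hH x0 hu).choose else none

theorem up_eq {u : V} (k : CE hH) (h0 : x0 ∉ k.1) (h1 : Eqv 𝓗 u (ea hH k)) :
    up hH x0 u = some k := by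
  have hu : ¬ Eqv 𝓗 u x0 := fun h2 => h0 ((h2 k.1 k.2).1 ((h1 k.1 k.2).2 (adj_e hH k).1))
  rw [up, dif_pos hu]
  obtain ⟨h2, h3⟩ := (exists_up hH x0 hu).choose_spec
  congr 1
  exact Subtype.ext (first_unique hH x0 (exists_up hH x0 hu).choose.2 k.2
    (adj_e hH _) (adj_e hH k) (h3.symm.trans h1) h2 h0)

theorem up_some {u : V} (hu : ¬ Eqv 𝓗 u x0) :
    ∃ k : CE hH, up hH x0 u = some k ∧ x0 ∉ k.1 ∧ Eqv 𝓗 u (ea hH k) := by
  obtain ⟨k, h1, h2⟩ := exists_up hH x0 hu
  exact ⟨k, up_eq hH x0 k h1 h2, h1, h2⟩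

theorem up_congr {u v : V} (h : Eqv 𝓗 u v) : up hH x0 u = up hH x0 v := by
  by_cases hu : Eqv 𝓗 u x0
  · have hv : Eqv 𝓗 v x0 := h.symm.trans hu
    rw [up, up, dif_neg (not_not.2 hu), dif_neg (not_not.2 hv)]
  · obtain ⟨k, h1, h2, h3⟩ := up_some hH x0 hu
    rw [h1, up_eq hH x0 k h2 (h.symm.trans h3)]

/-- The vertices. -/
abbrev TV : Type := CV hH ⊕ CP hH

/-- The depth. -/
noncomputable def tdep : TV hH → ℕ
  | .inl u => Quotient.liftOn u (fun u => 2 * dist 𝓗 u x0) fun u v h => by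
      rw [dist_congr (show Eqv 𝓗 u v from h) (Eqv.refl x0)]
  | .inr h => Quotient.liftOn h (fun h : CE hH => sd hH x0 h) fun h k hk => by
      rcases hk with h1 | h1
      · rw [show h = k from Subtype.ext h1]
      · rw [show h = co hH k from Subtype.ext h1, sd_co]

theorem tdep_inl (u : V) : tdep hH x0 (.inl (cvk hH u)) = 2 * dist 𝓗 u x0 := rfl

theorem tdep_inr (h : CE hH) : tdep hH x0 (.inr (cpk hH h)) = sd hH x0 h := rfl

open Classical in
/-- The near end of an edge. -/
noncomputable def near (h : CE hH) : CV hH :=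
  if x0 ∈ h.1 then cvk hH (ea hH h) else cvk hH (eb hH h)

theorem near_co (h : CE hH) : near hH x0 (co hH h) = near hH x0 h := by
  unfold near
  by_cases h1 : x0 ∈ h.1
  · rw [if_pos h1, if_neg (show ¬ x0 ∈ (co hH h).1 from fun h2 => h2 h1), cvk_eq]
    exact eb_co hH h
  · rw [if_neg h1, if_pos (show x0 ∈ (co hH h).1 from h1), cvk_eq]
    exact ea_co hH h

/-- The parent. -/
noncomputable def tpar : TV hH → TV hH
  | .inl u => Quotient.liftOn u (fun u => match up hH x0 u with
      | some k => .inr (cpk hH k)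
      | none => .inl (cvk hH u)) fun u v h => by
        have h1 : cvk hH u = cvk hH v := (cvk_eq hH).2 h
        change (match up hH x0 u with
          | some k => (.inr (cpk hH k) : TV hH)
          | none => .inl (cvk hH u)) = (match up hH x0 v with
          | some k => .inr (cpk hH k)
          | none => .inl (cvk hH v))
        rw [up_congr hH x0 (show Eqv 𝓗 u v from h), h1]
  | .inr h => Quotient.liftOn h (fun h : CE hH => .inl (near hH x0 h)) fun h k hk => by
      rcases hk with h1 | h1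
      · rw [show h = k from Subtype.ext h1]
      · rw [show h = co hH k from Subtype.ext h1, near_co]

theorem tpar_inl {u : V} {k : CE hH} (h : up hH x0 u = some k) :
    tpar hH x0 (.inl (cvk hH u)) = .inr (cpk hH k) := by
  change (match up hH x0 u with
    | some k => (.inr (cpk hH k) : TV hH)
    | none => .inl (cvk hH u)) = _
  rw [h]

theorem tpar_inr (h : CE hH) : tpar hH x0 (.inr (cpk hH h)) = .inl (near hH x0 h) := rfl

open Classical in
/-- The far end of a half edge. -/
noncomputable def tch (h : CE hH) : TV hH :=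
  if x0 ∈ h.1 then .inr (cpk hH h) else .inl (cvk hH (ea hH h))

theorem sd_pos (h : CE hH) : sd hH x0 h ≠ 0 := by
  intro h0
  rw [sd] at h0
  by_cases h1 : x0 ∈ h.1
  · have := dist_near hH h.2 (adj_e hH h) h1
    omega
  · have := dist_far hH h.2 (adj_e hH h) h1
    omega

/-- The subdivided tree of a cut system. -/
noncomputable def cutTD [MulAction G Unit] : TreeData G (TV hH) (CE hH) Unit where
  tail h := .inr (cpk hH h)
  head h := .inl (cvk hH (ea hH h))
  home _ := ()
  root _ := .inl (cvk hH x0)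
  dep := tdep hH x0
  par := tpar hH x0
  ch := tch hH x0
  tail_smul g h := rfl
  head_smul g h := by
    change _ = (Sum.inl (cvk hH (g • ea hH h)) : TV hH)
    rw [(cvk_eq hH).2 (ea_smul hH g h)]
  home_smul _ _ := rfl
  home_edge _ := rfl
  home_root _ := rfl
  dep_zero v h := by
    rcases v with u | p
    · obtain ⟨u, rfl⟩ := cv_ind hH u
      have h1 : 2 * dist 𝓗 u x0 = 0 := h
      have h2 : Eqv 𝓗 u x0 := by
        by_contra h3
        have := dist_pos hH h3
        omega
      exact congrArg Sum.inl ((cvk_eq hH).2 h2)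
    · obtain ⟨p, rfl⟩ := cp_ind hH p
      exact absurd h (sd_pos hH x0 p)
  dep_par v h := by
    rcases v with u | p
    · obtain ⟨u, rfl⟩ := cv_ind hH u
      have h1 : 2 * dist 𝓗 u x0 ≠ 0 := h
      have h2 : ¬ Eqv 𝓗 u x0 := fun h3 => h1 (by rw [dist_of_eqv h3])
      obtain ⟨k, h3, h4, h5⟩ := up_some hH x0 h2
      change tdep hH x0 (tpar hH x0 (.inl (cvk hH u))) + 1 = 2 * dist 𝓗 u x0
      rw [tpar_inl hH x0 h3, tdep_inr, sd, dist_congr h5 (Eqv.refl x0)]
      have := dist_far hH k.2 (adj_e hH k) h4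
      omega
    · obtain ⟨p, rfl⟩ := cp_ind hH p
      change tdep hH x0 (.inl (near hH x0 p)) + 1 = sd hH x0 p
      rw [near, sd]
      by_cases h1 : x0 ∈ p.1
      · rw [if_pos h1, tdep_inl]
        have := dist_near hH p.2 (adj_e hH p) h1
        omega
      · rw [if_neg h1, tdep_inl]
        have := dist_far hH p.2 (adj_e hH p) h1
        omega
  dep_ch h := by
    rw [tch]
    by_cases h1 : x0 ∈ h.1
    · rw [if_pos h1, tdep_inr]
      exact sd_pos hH x0 h
    · rw [if_neg h1, tdep_inl]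
      have := dist_far hH h.2 (adj_e hH h) h1
      omega
  ch_inj h k hk := by
    simp only [tch] at hk
    by_cases h1 : x0 ∈ h.1
    · by_cases h2 : x0 ∈ k.1
      · rw [if_pos h1, if_pos h2] at hk
        rcases (cpk_eq hH).1 (Sum.inr_injective hk) with h3 | h3
        · exact Subtype.ext h3
        · rw [h3] at h1
          exact absurd h2 h1
      · rw [if_pos h1, if_neg h2] at hk
        exact absurd hk Sum.inr_ne_inl
    · by_cases h2 : x0 ∈ k.1
      · rw [if_neg h1, if_pos h2] at hk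
        exact absurd hk Sum.inl_ne_inr
      · rw [if_neg h1, if_neg h2] at hk
        exact Subtype.ext (first_unique hH x0 h.2 k.2 (adj_e hH h) (adj_e hH k)
          ((cvk_eq hH).1 (Sum.inl_injective hk)) h1 h2)
  ch_surj v h := by
    rcases v with u | p
    · obtain ⟨u, rfl⟩ := cv_ind hH u
      have h1 : 2 * dist 𝓗 u x0 ≠ 0 := h
      have h2 : ¬ Eqv 𝓗 u x0 := fun h3 => h1 (by rw [dist_of_eqv h3])
      obtain ⟨k, _, h4, h5⟩ := up_some hH x0 h2
      refine ⟨k, ?_⟩
      rw [tch, if_neg h4]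
      exact congrArg Sum.inl ((cvk_eq hH).2 h5.symm)
    · obtain ⟨p, rfl⟩ := cp_ind hH p
      by_cases h1 : x0 ∈ p.1
      · refine ⟨p, ?_⟩
        rw [tch, if_pos h1]
      · refine ⟨co hH p, ?_⟩
        rw [tch, if_pos (show x0 ∈ (co hH p).1 from h1), cpk_co]
  ends h := by
    rw [tch]
    by_cases h1 : x0 ∈ h.1
    · left
      rw [if_pos h1, tpar_inr, near, if_pos h1]
      exact ⟨rfl, rfl⟩
    · right
      rw [if_neg h1, tpar_inl hH x0 (up_eq hH x0 h h1 (Eqv.refl _))]
      exact ⟨rfl, rfl⟩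

/-- An element which fixes a cell is in the stabilizer of a vertex or of an edge. -/
theorem cut_fix (c : TV hH ⊕ CE hH) :
    (∃ x, ∀ g : G, g • c = c → g ∈ stV G hH x) ∨ ∃ h ∈ 𝓗, ∀ g : G, g • c = c → g ∈ stE G h := by
  rcases c with (u | p) | h
  · obtain ⟨u, rfl⟩ := cv_ind hH u
    exact Or.inl ⟨u, fun g hg => (cvk_eq hH).1 (Sum.inl_injective (Sum.inl_injective hg))⟩
  · obtain ⟨p, rfl⟩ := cp_ind hH p
    · refine Or.inr ⟨p.1, p.2, fun g hg => ?_⟩
      have h1 : cpk hH (g • p) = cpk hH p := Sum.inr_injective (Sum.inl_injective hg)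
      rcases (cpk_eq hH).1 h1 with h2 | h2
      · exact MulAction.mem_stabilizer_iff.2 h2
      · exact absurd h2 (hH.noinv g p.1 p.2)
  · refine Or.inr ⟨h.1, h.2, fun g hg => ?_⟩
    exact MulAction.mem_stabilizer_iff.2 (congrArg Subtype.val (Sum.inr_injective hg))

end

end Pool.Agent.TQ
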