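import Pool.Agent.Lib.MP_8f66f0_al_TQ.XXD
import Pool.Agent.Lib.MP_8f66f0_al_FH.FinalE
import Pool.Agent.Lib.MP_8f66f0_al_FH.VT
import Pool.Agent.Lib.MP_8f66f0_al_FH.VC

/-! The class `XX` contains all elementary amenable groups, and is closed under elementary amenable
quotients. -/

set_option autoImplicit false

namespace Pool.Agent.TQ

open Pool.Agent Pool.Agent.WhVan Pool.Agent.FH

theorem xx_emb {G G' : Type} [Group G] [Group G'] (f : G' →* G) (hf : Function.Injective f)
    (h : XX G) : XX G' :=
  XX.iso (MonoidHom.ofInjective hf).symm (XX.sub f.range h)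

/-- Groups with a subgroup of finite index in the class. -/
theorem xx_fi {G : Type} [Group G] (K : Subgroup G) (hK : K.FiniteIndex) (h : XX K) : XX G := by
  refine XX.ext (QuotientGroup.mk' K.normalCore) ?_ (XX.fin inferInstance)
  rw [QuotientGroup.ker_mk']
  exact xx_emb (Subgroup.inclusion K.normalCore_le) (Subgroup.inclusion_injective _) h

theorem xx_int : XX (Multiplicative ℤ) := by
  let j : ℤ →+* FractionRing (MvPolynomial Empty ℤ) :=
    (algebraMap (MvPolynomial Empty ℤ) (FractionRing (MvPolynomial Empty ℤ))).comp MvPolynomial.C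
  have hj : Function.Injective j :=
    (IsFractionRing.injective (MvPolynomial Empty ℤ) _).comp (MvPolynomial.C_injective Empty ℤ)
  let u : Multiplicative ℤ →* Matrix.GeneralLinearGroup (Fin 2) ℤ :=
    Matrix.GeneralLinearGroup.upperRightHom.toMonoidHom
  have hu : Function.Injective u := fun a b hab =>
    Multiplicative.toAdd.injective (Matrix.GeneralLinearGroup.injective_upperRightHom hab)
  refine XX.iso (MonoidHom.ofInjective hu).symm (XX.gl2Q Empty ℤ j u.range hj ?_)
  rintro _ ⟨a, rfl⟩ n hn h
  rw [← map_pow] at h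
  have h1 : a ^ n = 1 := hu (h.trans (map_one u).symm)
  have h2 : (n : ℤ) * a.toAdd = 0 := by
    have h3 := congrArg Multiplicative.toAdd h1
    rw [toAdd_pow, toAdd_one, nsmul_eq_mul] at h3
    exact h3
  have h4 : a.toAdd = 0 := by
    rcases mul_eq_zero.1 h2 with h3 | h3
    · exact absurd (by exact_mod_cast h3) hn.ne'
    · exact h3
  have h5 : a = 1 := Multiplicative.toAdd.injective h4
  rw [h5, map_one]

theorem xx_pi (n : ℕ) : XX (Fin n → Multiplicative ℤ) := by
  induction n with
  | zero => exact XX.fin inferInstance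
  | succ n ih =>
    let f : (Fin (n + 1) → Multiplicative ℤ) →* Multiplicative ℤ := Pi.evalMonoidHom _ 0
    refine XX.ext f ?_ xx_int
    let g : f.ker →* (Fin n → Multiplicative ℤ) :=
      { toFun := fun x i => x.1 i.succ
        map_one' := rfl
        map_mul' := fun x y => rfl }
    refine xx_emb g ?_ ih
    intro x y hxy
    refine Subtype.ext (funext fun i => ?_)
    refine Fin.cases ?_ (fun i => congrFun hxy i) i
    exact (MonoidHom.mem_ker.1 x.2).trans (MonoidHom.mem_ker.1 y.2).symm

theorem xx_vab {Q : Type} [Group Q] (h : VAb Q) : XX Q := by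
  obtain ⟨A, h1, h2, h3⟩ := h
  refine xx_fi A h1 ?_
  let _ : CommGroup A := { (inferInstance : Group A) with
    mul_comm := fun a b => Subtype.ext (h3 a a.2 b b.2) }
  have h4 : Group.FG A := (Group.fg_iff_subgroup_fg A).2 h2
  obtain ⟨n, β, hβ, hf⟩ := exists_beta A
  let f : A →* (Fin n → Multiplicative ℤ) :=
    MonoidHom.mk' (fun a i => Multiplicative.ofAdd (β a i)) fun a b => by
      funext i
      rw [hβ]
      rfl
  refine XX.ext f (XX.fin ?_) (xx_pi n)
  have h5 : Function.Injective fun x : f.ker => (⟨x.1, by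
      funext i
      exact Multiplicative.ofAdd.injective (congrFun (MonoidHom.mem_ker.1 x.2) i)⟩ :
        {a | β a = 0}) := by
    intro x y hxy
    exact Subtype.ext (congrArg (fun z : {a | β a = 0} => z.1) hxy)
  have h6 : Finite {a | β a = 0} := hf
  exact Finite.of_injective _ h5

theorem xx_closedV : ClosedV XX where
  triv := fun G _ h => XX.fin inferInstance
  iso := fun _ _ _ _ e h => XX.iso e h
  directed := fun _ _ S hne hd hS h => XX.directed S hne hd hS h
  vab := fun G Q _ _ θ hQ h => by
    refine XX.ext θ (h _ ?_) (xx_vab hQ)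
    have h1 : θ.ker.map θ = ⊥ := by
      rw [Subgroup.map_eq_bot_iff]
    rw [h1]
    infer_instance

theorem xx_of_eam {G : Type} [Group G] (h : EAm G) : XX G := by
  refine c_of_rel xx_closedV h (MonoidHom.id G) fun U hU => XX.fin ?_
  rwa [Subgroup.map_id] at hU

theorem eam_of_ea {G : Type} [Group G] (h : EA G) : EAm G := by
  induction h with
  | fin h => exact EAm.fin h
  | ab h => exact EAm.ab h
  | sub f hf _ ih => exact EAm.sub f hf ih
  | quot f hf _ ih => exact EAm.quot f hf ih
  | ext N _ _ ih ih' => exact EAm.ext N ih ih'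
  | directed S hne hd hS _ ih => exact EAm.directed S hne hd hS ih

/-- All elementary amenable groups are in the class. -/
theorem xx_ea {G : Type} [Group G] (h : EA G) : XX G := xx_of_eam (eam_of_ea h)

/-- The class is closed under elementary amenable quotients. -/
theorem xx_quot {Γ Q : Type} [Group Γ] [Group Q] (θ : Γ →* Q) (hQ : EA Q)
    (h : ∀ U : Subgroup Γ, Finite (U.map θ) → XX U) : XX Γ :=
  c_of_rel xx_closedV (eam_of_ea hQ) θ h

end Pool.Agent.TQ
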