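import Pool.Agent.Lib.MP_8f66f0_al_Wald.Defs
import Mathlib.RingTheory.TwoSidedIdeal.Basic

/-! Extension of invariants of units from an ideal to a bigger ideal with flasque quotient. -/

set_option autoImplicit false

namespace Pool.Agent.TQ

open Pool.Agent.Wald

/-- Three isometries with orthogonal ranges in a ring. -/
structure Isom (D : Type) [Ring D] where
  s : Fin 3 → D
  t : Fin 3 → D
  ts : ∀ i j, t i * s j = if i = j then 1 else 0

section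

variable {D : Type} [Ring D] (S : Isom D)

theorem Isom.tsx (i j : Fin 3) (x : D) : S.t i * (S.s j * x) = if i = j then x else 0 := by
  rw [← mul_assoc, S.ts]
  split <;> simp

theorem Isom.same (i : Fin 3) : S.t i * S.s i = 1 := by rw [S.ts, if_pos rfl]

theorem Isom.samex (i : Fin 3) (x : D) : S.t i * (S.s i * x) = x := by rw [S.tsx, if_pos rfl]

theorem Isom.ne {i j : Fin 3} (h : i ≠ j) : S.t i * S.s j = 0 := by rw [S.ts, if_neg h]

theorem Isom.nex {i j : Fin 3} (h : i ≠ j) (x : D) : S.t i * (S.s j * x) = 0 := by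
  rw [S.tsx, if_neg h]

theorem Isom.n01 : S.t 0 * S.s 1 = 0 := S.ne (by decide)

theorem Isom.n10 : S.t 1 * S.s 0 = 0 := S.ne (by decide)

theorem Isom.n01x (x : D) : S.t 0 * (S.s 1 * x) = 0 := S.nex (by decide) x

theorem Isom.n10x (x : D) : S.t 1 * (S.s 0 * x) = 0 := S.nex (by decide) x

/-- The element `x` in the block `i`. -/
def Isom.blk (i : Fin 3) (x : D) : D := S.s i * x * S.t i

theorem Isom.blk_add (i : Fin 3) (x y : D) : S.blk i (x + y) = S.blk i x + S.blk i y := by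
  simp [Isom.blk, mul_add, add_mul]

theorem Isom.blk_mul (i : Fin 3) (x y : D) : S.blk i x * S.blk i y = S.blk i (x * y) := by
  simp [Isom.blk, mul_assoc, S.tsx]

theorem Isom.blk_zero (i : Fin 3) : S.blk i 0 = 0 := by
  simp [Isom.blk]

/-- The unit `u` in the block `i`. -/
def Isom.bu (i : Fin 3) (u : Dˣ) : Dˣ where
  val := 1 + S.blk i (u - 1)
  inv := 1 + S.blk i (↑u⁻¹ - 1)
  val_inv := by
    have h : S.blk i ((u : D) - 1) + S.blk i (↑u⁻¹ - 1) +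
        S.blk i ((u : D) - 1) * S.blk i (↑u⁻¹ - 1) = 0 := by
      rw [S.blk_mul, ← S.blk_add, ← S.blk_add]
      have : ((u : D) - 1 + (↑u⁻¹ - 1) + (↑u - 1) * (↑u⁻¹ - 1)) = 0 := by
        simp only [mul_sub, sub_mul, Units.mul_inv, mul_one, one_mul]
        abel
      rw [this, S.blk_zero]
    calc (1 + S.blk i ((u : D) - 1)) * (1 + S.blk i (↑u⁻¹ - 1))
        = 1 + (S.blk i ((u : D) - 1) + S.blk i (↑u⁻¹ - 1) +
          S.blk i ((u : D) - 1) * S.blk i (↑u⁻¹ - 1)) := by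
          simp only [mul_add, add_mul, mul_one, one_mul]
          abel
      _ = 1 := by rw [h, add_zero]
  inv_val := by
    have h : S.blk i (↑u⁻¹ - 1) + S.blk i ((u : D) - 1) +
        S.blk i (↑u⁻¹ - 1) * S.blk i ((u : D) - 1) = 0 := by
      rw [S.blk_mul, ← S.blk_add, ← S.blk_add]
      have : (((↑u⁻¹ : D) - 1) + ((u : D) - 1) + (↑u⁻¹ - 1) * (↑u - 1)) = 0 := by
        simp only [mul_sub, sub_mul, Units.inv_mul, mul_one, one_mul]
        abel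
      rw [this, S.blk_zero]
    calc (1 + S.blk i (↑u⁻¹ - 1)) * (1 + S.blk i ((u : D) - 1))
        = 1 + (S.blk i (↑u⁻¹ - 1) + S.blk i ((u : D) - 1) +
          S.blk i (↑u⁻¹ - 1) * S.blk i ((u : D) - 1)) := by
          simp only [mul_add, add_mul, mul_one, one_mul]
          abel
      _ = 1 := by rw [h, add_zero]

theorem Isom.bu_val (i : Fin 3) (u : Dˣ) : (S.bu i u : D) = 1 + S.blk i (u - 1) := rfl

theorem Isom.bu_mul (i : Fin 3) (u v : Dˣ) : S.bu i (u * v) = S.bu i u * S.bu i v := by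
  ext
  rw [Units.val_mul, S.bu_val, S.bu_val, S.bu_val]
  have h : ((u * v : Dˣ) : D) - 1 = (↑u - 1) + (↑v - 1) + (↑u - 1) * (↑v - 1) := by
    simp only [Units.val_mul, mul_sub, sub_mul, mul_one, one_mul]
    abel
  rw [h, S.blk_add, S.blk_add, ← S.blk_mul]
  simp only [mul_add, add_mul, mul_one, one_mul]
  abel

theorem Isom.bu_one (i : Fin 3) : S.bu i 1 = 1 := by
  ext
  rw [S.bu_val, Units.val_one, sub_self, S.blk_zero, add_zero]

theorem Isom.bu_inv (i : Fin 3) (u : Dˣ) : S.bu i u⁻¹ = (S.bu i u)⁻¹ := by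
  rw [eq_inv_iff_mul_eq_one, ← S.bu_mul, inv_mul_cancel, S.bu_one]

/-- The units which are congruent to `1` modulo an ideal. -/
def GI (I : TwoSidedIdeal D) : Subgroup Dˣ where
  carrier := {u | (u : D) - 1 ∈ I}
  mul_mem' {u v} hu hv := by
    have h : ((u * v : Dˣ) : D) - 1 = (↑u - 1) + (↑v - 1) + (↑u - 1) * (↑v - 1) := by
      simp only [Units.val_mul, mul_sub, sub_mul, mul_one, one_mul]
      abel
    change ((u * v : Dˣ) : D) - 1 ∈ I
    rw [h]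
    exact I.add_mem (I.add_mem hu hv) (I.mul_mem_left _ _ hv)
  one_mem' := by
    change ((1 : Dˣ) : D) - 1 ∈ I
    rw [Units.val_one, sub_self]
    exact I.zero_mem
  inv_mem' {u} hu := by
    have h : ((u⁻¹ : Dˣ) : D) - 1 = -(↑u⁻¹ * ((u : D) - 1)) := by
      rw [mul_sub, Units.inv_mul, mul_one]
      abel
    change ((u⁻¹ : Dˣ) : D) - 1 ∈ I
    rw [h]
    exact I.neg_mem (I.mul_mem_left _ _ hu)

theorem mem_GI {I : TwoSidedIdeal D} {u : Dˣ} : u ∈ GI I ↔ (u : D) - 1 ∈ I := Iff.rfl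

theorem GI_mono {I J : TwoSidedIdeal D} (h : J ≤ I) {u : Dˣ} (hu : u ∈ GI J) : u ∈ GI I := h hu

theorem GI_conj {I : TwoSidedIdeal D} (g : Dˣ) {u : Dˣ} (hu : u ∈ GI I) :
    g * u * g⁻¹ ∈ GI I := by
  rw [mem_GI]
  have h : ((g * u * g⁻¹ : Dˣ) : D) - 1 = g * ((u : D) - 1) * ↑g⁻¹ := by
    rw [mul_sub, sub_mul, mul_one, Units.mul_inv]
    rfl
  rw [h]
  exact I.mul_mem_right _ _ (I.mul_mem_left _ _ hu)

theorem bu_mem {I : TwoSidedIdeal D} (i : Fin 3) {u : Dˣ} (hu : u ∈ GI I) : S.bu i u ∈ GI I := by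
  rw [mem_GI, S.bu_val, add_sub_cancel_left]
  exact I.mul_mem_right _ _ (I.mul_mem_left _ _ hu)

/-- Invariants of the units which are congruent to `1` modulo an ideal. -/
structure Fn (D : Type) [Ring D] (I : TwoSidedIdeal D) (K : Type) [CommGroup K] where
  f : Dˣ → K
  mul : ∀ u v : Dˣ, u ∈ GI I → v ∈ GI I → f (u * v) = f u * f v
  swap : ∀ (a b : D) (u v : Dˣ), a ∈ I → (u : D) = 1 + a * b → (v : D) = 1 + b * a → f u = f v

/-- Invariants of the units which are congruent to `1` modulo an ideal: the weak form of the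
axioms. -/
structure Fw (S : Isom D) (I : TwoSidedIdeal D) (K : Type) [CommGroup K] where
  f : Dˣ → K
  mul : ∀ u v : Dˣ, u ∈ GI I → v ∈ GI I → f (u * v) = f u * f v
  conj : ∀ g u : Dˣ, u ∈ GI I → f (g * u * g⁻¹) = f u
  stab : ∀ u : Dˣ, u ∈ GI I → f (S.bu 0 u) = f u

variable {I : TwoSidedIdeal D} {K : Type} [CommGroup K]

theorem Fn.conj (φ : Fn D I K) (g u : Dˣ) (hu : u ∈ GI I) : φ.f (g * u * g⁻¹) = φ.f u := by
  refine φ.swap (g * ((u : D) - 1)) ↑g⁻¹ _ _ (I.mul_mem_left _ _ hu) ?_ ?_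
  · rw [mul_sub, sub_mul, mul_one, Units.mul_inv]
    simp
  · rw [← mul_assoc, Units.inv_mul, one_mul]
    abel

theorem Fn.stab (φ : Fn D I K) (i : Fin 3) (u : Dˣ) (hu : u ∈ GI I) : φ.f (S.bu i u) = φ.f u := by
  refine φ.swap (S.s i * ((u : D) - 1)) (S.t i) _ _ (I.mul_mem_left _ _ hu) rfl ?_
  rw [S.tsx, if_pos rfl]
  abel

/-- The strong form of the axioms gives the weak form. -/
def Fn.weak (φ : Fn D I K) : Fw S I K where
  f := φ.f
  mul := φ.mul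
  conj := φ.conj
  stab := φ.stab S 0

section Fw

variable {S} (φ : Fw S I K)

theorem Fw.one : φ.f 1 = 1 := by
  have h := φ.mul 1 1 (GI I).one_mem (GI I).one_mem
  rw [mul_one] at h
  exact left_eq_mul.1 h

theorem Fw.inv (u : Dˣ) (hu : u ∈ GI I) : φ.f u⁻¹ = (φ.f u)⁻¹ := by
  rw [eq_inv_iff_mul_eq_one, ← φ.mul _ _ ((GI I).inv_mem hu) hu, inv_mul_cancel, φ.one]

/-- Elementary matrices. -/
def el (S : Isom D) (i j : Fin 3) (h : i ≠ j) (y : D) : Dˣ where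
  val := 1 + S.s i * y * S.t j
  inv := 1 - S.s i * y * S.t j
  val_inv := by
    have h1 : S.s i * y * S.t j * (S.s i * y * S.t j) = 0 := by
      simp [mul_assoc, S.tsx, h.symm]
    simp only [mul_sub, add_mul, mul_one, one_mul, h1]
    abel
  inv_val := by
    have h1 : S.s i * y * S.t j * (S.s i * y * S.t j) = 0 := by
      simp [mul_assoc, S.tsx, h.symm]
    simp only [mul_add, sub_mul, mul_one, one_mul, h1]
    abel

theorem el_val (i j : Fin 3) (h : i ≠ j) (y : D) : (el S i j h y : D) = 1 + S.s i * y * S.t j := rfl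

theorem el_inv_val (i j : Fin 3) (h : i ≠ j) (y : D) :
    (((el S i j h y)⁻¹ : Dˣ) : D) = 1 - S.s i * y * S.t j := rfl

theorem el_mem (i j : Fin 3) (h : i ≠ j) {y : D} (hy : y ∈ I) : el S i j h y ∈ GI I := by
  rw [mem_GI, el_val, add_sub_cancel_left]
  exact I.mul_mem_right _ _ (I.mul_mem_left _ _ hy)

theorem el_comm (i j k : Fin 3) (hij : i ≠ j) (hik : i ≠ k) (hkj : k ≠ j) (y : D) :
    el S i j hij y = el S i k hik y * el S k j hkj 1 * (el S i k hik y)⁻¹ *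
      (el S k j hkj 1)⁻¹ := by
  ext
  simp only [Units.val_mul, el_val, el_inv_val, mul_one]
  simp only [mul_sub, sub_mul, mul_add, add_mul, mul_one, one_mul, mul_assoc, S.same, S.samex,
    S.nex hik.symm, S.nex hkj.symm, S.nex hij.symm, S.ne hik.symm, S.ne hkj.symm, S.ne hij.symm,
    S.nex hik, S.nex hkj, S.nex hij, mul_zero, zero_mul]
  abel

theorem Fw.el (i j k : Fin 3) (hij : i ≠ j) (hik : i ≠ k) (hkj : k ≠ j) {y : D} (hy : y ∈ I) :
    φ.f (el S i j hij y) = 1 := by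
  have h1 : TQ.el S i k hik y ∈ GI I := el_mem i k hik hy
  rw [el_comm i j k hij hik hkj, mul_assoc, mul_assoc,
    φ.mul _ _ h1 (by
      rw [← mul_assoc]
      exact GI_conj _ ((GI I).inv_mem h1)),
    ← mul_assoc, φ.conj _ _ ((GI I).inv_mem h1), φ.inv _ h1, mul_inv_cancel]

/-- Exchange of two blocks. -/
def sw (S : Isom D) : Dˣ where
  val := 1 - S.s 0 * S.t 0 - S.s 1 * S.t 1 + S.s 0 * S.t 1 + S.s 1 * S.t 0
  inv := 1 - S.s 0 * S.t 0 - S.s 1 * S.t 1 + S.s 0 * S.t 1 + S.s 1 * S.t 0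
  val_inv := by
    simp only [mul_sub, sub_mul, mul_add, add_mul, mul_one, one_mul, mul_assoc, S.tsx]
    simp
  inv_val := by
    simp only [mul_sub, sub_mul, mul_add, add_mul, mul_one, one_mul, mul_assoc, S.tsx]
    simp

theorem sw_conj (x : D) : (sw S : D) * S.blk 0 x * ((sw S)⁻¹ : Dˣ) = S.blk 1 x := by
  have h1 : (((sw S)⁻¹ : Dˣ) : D) =
    1 - S.s 0 * S.t 0 - S.s 1 * S.t 1 + S.s 0 * S.t 1 + S.s 1 * S.t 0 := rfl
  have h2 : ((sw S : Dˣ) : D) =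
    1 - S.s 0 * S.t 0 - S.s 1 * S.t 1 + S.s 0 * S.t 1 + S.s 1 * S.t 0 := rfl
  rw [h1, h2, Isom.blk, Isom.blk]
  simp only [mul_sub, sub_mul, mul_add, add_mul, mul_one, one_mul, mul_assoc, S.same, S.samex,
    S.n01, S.n10, S.n01x, S.n10x, mul_zero, zero_mul]
  abel

theorem Fw.stab1 (u : Dˣ) (hu : u ∈ GI I) : φ.f (S.bu 1 u) = φ.f u := by
  rw [← φ.stab u hu, ← φ.conj (sw S) (S.bu 0 u) (bu_mem S 0 hu)]
  congr 1
  ext
  rw [Units.val_mul, Units.val_mul, S.bu_val, S.bu_val, mul_add, mul_one, add_mul, sw_conj,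
    Units.mul_inv]

/-- The weak form of the axioms gives the strong form. -/
theorem Fw.swap (a b : D) (u v : Dˣ) (ha : a ∈ I) (hu : (u : D) = 1 + a * b)
    (hv : (v : D) = 1 + b * a) : φ.f u = φ.f v := by
  have hu' : u ∈ GI I := by
    rw [mem_GI, hu, add_sub_cancel_left]
    exact I.mul_mem_right _ _ ha
  have hv' : v ∈ GI I := by
    rw [mem_GI, hv, add_sub_cancel_left]
    exact I.mul_mem_left _ _ ha
  have e1 : b * ↑u⁻¹ = b - b * ↑u⁻¹ * a * b := by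
    have h : (↑u⁻¹ : D) * (1 + a * b) = 1 := by rw [← hu, Units.inv_mul]
    have h' : (↑u⁻¹ : D) = 1 - ↑u⁻¹ * (a * b) := by
      rw [mul_add, mul_one] at h
      exact eq_sub_of_add_eq h
    calc b * ↑u⁻¹ = b * (1 - ↑u⁻¹ * (a * b)) := by rw [← h']
      _ = b - b * ↑u⁻¹ * a * b := by noncomm_ring
  have e0 : (↑u⁻¹ : D) = 1 - a * b * ↑u⁻¹ := by
    have h : (1 + a * b) * (↑u⁻¹ : D) = 1 := by rw [← hu, Units.mul_inv]
    rw [add_mul, one_mul] at h
    exact eq_sub_of_add_eq h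
  have e2 : (↑v⁻¹ : D) = 1 - b * ↑u⁻¹ * a := by
    have h : (v : D) * (1 - b * ↑u⁻¹ * a) = 1 := by
      calc (v : D) * (1 - b * ↑u⁻¹ * a) = 1 + b * a - b * (↑u⁻¹ + a * b * ↑u⁻¹) * a := by
            rw [hv]
            noncomm_ring
        _ = 1 + b * a - b * 1 * a := by
            congr 3
            exact (eq_sub_iff_add_eq.1 e0)
        _ = 1 := by noncomm_ring
    calc (↑v⁻¹ : D) = ↑v⁻¹ * ((v : D) * (1 - b * ↑u⁻¹ * a)) := by rw [h, mul_one]
      _ = 1 - b * ↑u⁻¹ * a := by rw [← mul_assoc, Units.inv_mul, one_mul]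
  set p : D := ↑u⁻¹ with hp
  -- the product of the two blocks
  have key : S.bu 0 u * (S.bu 1 v)⁻¹ = TQ.el S 1 0 (by decide) (b * p * a * b) *
      ((TQ.el S 1 0 (by decide) b)⁻¹ * TQ.el S 0 1 (by decide) a *
        ((TQ.el S 1 0 (by decide) b)⁻¹)⁻¹) * (TQ.el S 0 1 (by decide) (p * a))⁻¹ := by
    ext
    rw [inv_inv, ← S.bu_inv]
    simp only [Units.val_mul, S.bu_val, el_val, el_inv_val, e2, ← hp, hu, Isom.blk]
    have e3 : a * (b * p) = 1 - p := by rw [← mul_assoc]; rw [eq_sub_iff_add_eq, add_comm]; exact (eq_sub_iff_add_eq.1 e0)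
    have e4 : p * (a * b) = 1 - p := by
      have h : (p : D) * (1 + a * b) = 1 := by rw [← hu, hp, Units.inv_mul]
      rw [mul_add, mul_one] at h
      rw [eq_sub_iff_add_eq, add_comm]
      exact h
    have e3x : ∀ x : D, a * (b * (p * x)) = x - p * x := by
      intro x
      rw [← mul_assoc b, ← mul_assoc a, e3, sub_mul, one_mul]
    have e4x : ∀ x : D, p * (a * (b * x)) = x - p * x := by
      intro x
      rw [← mul_assoc a, ← mul_assoc p, e4, sub_mul, one_mul]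
    simp only [mul_sub, sub_mul, mul_add, add_mul, mul_one, one_mul, mul_assoc, S.same, S.samex,
      S.n01, S.n10, S.n01x, S.n10x, mul_zero, zero_mul, e3, e4, e3x, e4x]
    abel
  have h1 : TQ.el S 1 0 (by decide) (b * p * a * b) ∈ GI I := by
    refine el_mem _ _ _ ?_
    exact I.mul_mem_right _ _ (I.mul_mem_left _ _ ha)
  have h2 : TQ.el S 0 1 (by decide) a ∈ GI I := el_mem _ _ _ ha
  have h3 : TQ.el S 0 1 (by decide) (p * a) ∈ GI I := el_mem _ _ _ (I.mul_mem_left _ _ ha)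
  have h4 : φ.f (S.bu 0 u * (S.bu 1 v)⁻¹) = 1 := by
    rw [key, φ.mul _ _ ((GI I).mul_mem h1 (GI_conj _ h2)) ((GI I).inv_mem h3),
      φ.mul _ _ h1 (GI_conj _ h2), φ.conj _ _ h2, φ.inv _ h3,
      φ.el 1 0 2 (by decide) (by decide) (by decide) (I.mul_mem_right _ _ (I.mul_mem_left _ _ ha)),
      φ.el 0 1 2 (by decide) (by decide) (by decide) ha,
      φ.el 0 1 2 (by decide) (by decide) (by decide) (I.mul_mem_left _ _ ha)]
    simp
  rw [φ.mul _ _ (bu_mem S 0 hu') ((GI I).inv_mem (bu_mem S 1 hv')), φ.inv _ (bu_mem S 1 hv'),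
    φ.stab _ hu', φ.stab1 _ hv', mul_inv_eq_one] at h4
  exact h4

/-- The strong form of the axioms. -/
def Fw.strong : Fn D I K where
  f := φ.f
  mul := φ.mul
  swap a b u v ha hu hv := φ.swap a b u v ha hu hv

end Fw

/-! ### The extension lemma -/

/-- The data which are needed to extend invariants from `J` to `I`: a homomorphism `Λ` on `I` which
vanishes on `J`, whose values are orthogonal to the block `0`, and units which move `x + Λ x` to
`Λ x` modulo `J`. -/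
structure Lm (S : Isom D) (I J : TwoSidedIdeal D) where
  Λ : D → D
  le : J ≤ I
  add : ∀ x y : D, x ∈ I → y ∈ I → Λ (x + y) = Λ x + Λ y
  mul : ∀ x y : D, x ∈ I → y ∈ I → Λ (x * y) = Λ x * Λ y
  mem : ∀ x : D, x ∈ I → Λ x ∈ I
  van : ∀ x : D, x ∈ J → Λ x = 0
  orth1 : ∀ x y : D, x ∈ I → y ∈ I → S.blk 0 y * Λ x = 0
  orth2 : ∀ x y : D, x ∈ I → y ∈ I → Λ x * S.blk 0 y = 0
  u : ∀ F : Finset D, (∀ x ∈ F, x ∈ I) → ∃ u : Dˣ, u ∈ GI I ∧
    ∀ x ∈ F, (u : D) * (S.blk 0 x + Λ x) * ((u⁻¹ : Dˣ) : D) - Λ x ∈ J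

section Lm

variable {S} {J : TwoSidedIdeal D} (M : Lm S I J)

theorem Lm.zero : M.Λ 0 = 0 := M.van 0 J.zero_mem

theorem Lm.unit (u : Dˣ) (hu : u ∈ GI I) :
    (1 + M.Λ ((u : D) - 1)) * (1 + M.Λ (((u⁻¹ : Dˣ) : D) - 1)) = 1 := by
  have h1 : (((u⁻¹ : Dˣ) : D)) - 1 ∈ I := (GI I).inv_mem hu
  have h2 : (u : D) - 1 ∈ I := hu
  have h3 : M.Λ ((u : D) - 1) + M.Λ (((u⁻¹ : Dˣ) : D) - 1) +
      M.Λ ((u : D) - 1) * M.Λ (((u⁻¹ : Dˣ) : D) - 1) = 0 := by
    rw [← M.mul _ _ h2 h1, ← M.add _ _ h2 h1, ← M.add _ _ (I.add_mem h2 h1) (I.mul_mem_left _ _ h1)]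
    have : ((u : D) - 1 + (((u⁻¹ : Dˣ) : D) - 1) + (↑u - 1) * (((u⁻¹ : Dˣ) : D) - 1)) = 0 := by
      simp only [mul_sub, sub_mul, Units.mul_inv, mul_one, one_mul]
      abel
    rw [this, M.zero]
  calc _ = 1 + (M.Λ ((u : D) - 1) + M.Λ (((u⁻¹ : Dˣ) : D) - 1) +
      M.Λ ((u : D) - 1) * M.Λ (((u⁻¹ : Dˣ) : D) - 1)) := by
        simp only [mul_add, add_mul, mul_one, one_mul]
        abel
    _ = 1 := by rw [h3, add_zero]

open Classical in
/-- The unit `1 + Λ (u - 1)`. -/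
noncomputable def Lm.lu (u : Dˣ) : Dˣ :=
  if h : u ∈ GI I then
    { val := 1 + M.Λ ((u : D) - 1)
      inv := 1 + M.Λ (((u⁻¹ : Dˣ) : D) - 1)
      val_inv := M.unit u h
      inv_val := by
        have h1 := M.unit u⁻¹ ((GI I).inv_mem h)
        rwa [inv_inv] at h1 }
  else 1

theorem Lm.lu_val {u : Dˣ} (h : u ∈ GI I) : (M.lu u : D) = 1 + M.Λ ((u : D) - 1) := by
  rw [Lm.lu, dif_pos h]

theorem Lm.lu_mem {u : Dˣ} (h : u ∈ GI I) : M.lu u ∈ GI I := by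
  rw [mem_GI, M.lu_val h, add_sub_cancel_left]
  exact M.mem _ h

theorem Lm.lu_mul {u v : Dˣ} (hu : u ∈ GI I) (hv : v ∈ GI I) :
    M.lu (u * v) = M.lu u * M.lu v := by
  have h1 : (u : D) - 1 ∈ I := hu
  have h2 : (v : D) - 1 ∈ I := hv
  ext
  rw [Units.val_mul, M.lu_val hu, M.lu_val hv, M.lu_val ((GI I).mul_mem hu hv)]
  have h : ((u * v : Dˣ) : D) - 1 = (↑u - 1) + (↑v - 1) + (↑u - 1) * (↑v - 1) := by
    simp only [Units.val_mul, mul_sub, sub_mul, mul_one, one_mul]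
    abel
  rw [h, M.add _ _ (I.add_mem h1 h2) (I.mul_mem_left _ _ h2), M.add _ _ h1 h2, M.mul _ _ h1 h2]
  simp only [mul_add, add_mul, mul_one, one_mul]
  abel

theorem Lm.lu_one {u : Dˣ} (hu : u ∈ GI J) : M.lu u = 1 := by
  ext
  rw [M.lu_val (GI_mono M.le hu), M.van _ hu, add_zero, Units.val_one]

theorem Lm.lu_inv {u : Dˣ} (hu : u ∈ GI I) : M.lu u⁻¹ = (M.lu u)⁻¹ := by
  rw [eq_inv_iff_mul_eq_one, ← M.lu_mul ((GI I).inv_mem hu) hu, inv_mul_cancel,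
    M.lu_one (GI J).one_mem]

theorem Lm.bu_lu {u v : Dˣ} (hu : u ∈ GI I) (hv : v ∈ GI I) :
    ((S.bu 0 u * M.lu v : Dˣ) : D) = 1 + (S.blk 0 ((u : D) - 1) + M.Λ ((v : D) - 1)) := by
  rw [Units.val_mul, S.bu_val, M.lu_val hv]
  simp only [mul_add, add_mul, mul_one, one_mul, M.orth1 _ _ hv hu]
  abel

theorem Lm.comm {u v : Dˣ} (hu : u ∈ GI I) (hv : v ∈ GI I) :
    S.bu 0 u * M.lu v = M.lu v * S.bu 0 u := by
  ext
  rw [M.bu_lu hu hv, Units.val_mul, S.bu_val, M.lu_val hv]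
  simp only [mul_add, add_mul, mul_one, one_mul, M.orth2 _ _ hv hu]
  abel

/-- Congruence of units. -/
def Cg (J : TwoSidedIdeal D) (u v : Dˣ) : Prop := (u : D) - v ∈ J

theorem Cg.mul {u v u' v' : Dˣ} (h : Cg J u v) (h' : Cg J u' v') : Cg J (u * u') (v * v') := by
  have e : ((u * u' : Dˣ) : D) - ((v * v' : Dˣ) : D) =
      ((u : D) - v) * u' + v * ((u' : D) - v') := by
    simp only [Units.val_mul, mul_sub, sub_mul]
    abel
  rw [Cg, e]
  exact J.add_mem (J.mul_mem_right _ _ h) (J.mul_mem_left _ _ h')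

theorem Cg.inv {u v : Dˣ} (h : Cg J u v) : Cg J u⁻¹ v⁻¹ := by
  have e : ((u⁻¹ : Dˣ) : D) - ((v⁻¹ : Dˣ) : D) = -(((u⁻¹ : Dˣ) : D) * ((u : D) - v) * ↑v⁻¹) := by
    rw [mul_sub, sub_mul, Units.inv_mul, mul_assoc, Units.mul_inv, mul_one, one_mul]
    abel
  rw [Cg, e]
  exact J.neg_mem (J.mul_mem_right _ _ (J.mul_mem_left _ _ h))

theorem Cg.refl (u : Dˣ) : Cg J u u := by
  rw [Cg, sub_self]
  exact J.zero_mem

theorem cg_one {u : Dˣ} : Cg J u 1 ↔ u ∈ GI J := by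
  rw [Cg, mem_GI, Units.val_one]

/-- The units for which `w` works. -/
def Lm.good (w : Dˣ) : Subgroup Dˣ where
  carrier := {z | z ∈ GI I ∧ Cg J (w * (S.bu 0 z * M.lu z) * w⁻¹) (M.lu z)}
  mul_mem' {y z} hy hz := by
    refine ⟨(GI I).mul_mem hy.1 hz.1, ?_⟩
    have h := Cg.mul hy.2 hz.2
    rw [M.lu_mul hy.1 hz.1, S.bu_mul]
    have e : w * (S.bu 0 y * S.bu 0 z * (M.lu y * M.lu z)) * w⁻¹ =
        w * (S.bu 0 y * M.lu y) * w⁻¹ * (w * (S.bu 0 z * M.lu z) * w⁻¹) := by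
      have h1 := M.comm hz.1 hy.1
      calc w * (S.bu 0 y * S.bu 0 z * (M.lu y * M.lu z)) * w⁻¹
          = w * (S.bu 0 y * (S.bu 0 z * M.lu y) * M.lu z) * w⁻¹ := by group
        _ = w * (S.bu 0 y * (M.lu y * S.bu 0 z) * M.lu z) * w⁻¹ := by rw [h1]
        _ = _ := by group
    rw [e]
    exact h
  one_mem' := by
    refine ⟨(GI I).one_mem, ?_⟩
    rw [M.lu_one (GI J).one_mem, S.bu_one, mul_one, mul_one, mul_inv_cancel]
    exact Cg.refl 1
  inv_mem' {z} hz := by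
    refine ⟨(GI I).inv_mem hz.1, ?_⟩
    have h := Cg.inv hz.2
    rw [M.lu_inv hz.1, S.bu_inv]
    have e : w * ((S.bu 0 z)⁻¹ * (M.lu z)⁻¹) * w⁻¹ = (w * (S.bu 0 z * M.lu z) * w⁻¹)⁻¹ := by
      rw [M.comm hz.1 hz.1]
      group
    rw [e]
    exact h

theorem Lm.good_J {z : Dˣ} (hz : z ∈ GI J) (w : Dˣ) : z ∈ M.good w := by
  refine ⟨GI_mono M.le hz, ?_⟩
  rw [M.lu_one hz, mul_one, cg_one]
  exact GI_conj _ (bu_mem S 0 hz)

theorem Lm.exists_good (F : List Dˣ) (hF : ∀ z ∈ F, z ∈ GI I) :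
    ∃ w ∈ GI I, ∀ z ∈ F, z ∈ M.good w := by
  classical
  obtain ⟨w, hw, h⟩ := M.u (F.map fun z : Dˣ => (z : D) - 1).toFinset (by
    intro x hx
    rw [List.mem_toFinset, List.mem_map] at hx
    obtain ⟨z, hz, rfl⟩ := hx
    exact hF z hz)
  refine ⟨w, hw, fun z hz => ⟨hF z hz, ?_⟩⟩
  have h1 := h ((z : D) - 1) (by
    rw [List.mem_toFinset, List.mem_map]
    exact ⟨z, hz, rfl⟩)
  rw [Cg, Units.val_mul, Units.val_mul, M.bu_lu (hF z hz) (hF z hz), M.lu_val (hF z hz), mul_add,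
    mul_one, add_mul, Units.mul_inv]
  have e : 1 + ↑w * (S.blk 0 ((z : D) - 1) + M.Λ ((z : D) - 1)) * ↑w⁻¹ - (1 + M.Λ ((z : D) - 1)) =
      ↑w * (S.blk 0 ((z : D) - 1) + M.Λ ((z : D) - 1)) * ↑w⁻¹ - M.Λ ((z : D) - 1) := by abel
  rw [e]
  exact h1

/-- The correction. -/
noncomputable def Lm.cor (w z : Dˣ) : Dˣ := S.bu 0 z * (M.lu z * w⁻¹ * (M.lu z)⁻¹ * w)

theorem Lm.cor_mem {w z : Dˣ} (h : z ∈ M.good w) : M.cor w z ∈ GI J := by
  have h1 : Cg J (w * (S.bu 0 z * M.lu z) * w⁻¹ * (M.lu z)⁻¹) 1 := by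
    rw [← mul_inv_cancel (M.lu z)]
    exact Cg.mul h.2 (Cg.refl _)
  have e : M.cor w z = w⁻¹ * (w * (S.bu 0 z * M.lu z) * w⁻¹ * (M.lu z)⁻¹) * w⁻¹⁻¹ := by
    rw [Lm.cor]
    group
  rw [e]
  exact GI_conj _ (cg_one.1 h1)

theorem Lm.cor_mul {w y z : Dˣ} (hy : y ∈ GI I) (hz : z ∈ GI I) :
    M.cor w (y * z) = (S.bu 0 y * M.lu y) * M.cor w z * (S.bu 0 y * M.lu y)⁻¹ * M.cor w y := by
  rw [Lm.cor, Lm.cor, Lm.cor, M.lu_mul hy hz, S.bu_mul]
  have h1 := M.comm hz hy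
  calc S.bu 0 y * S.bu 0 z * (M.lu y * M.lu z * w⁻¹ * (M.lu y * M.lu z)⁻¹ * w)
      = S.bu 0 y * (S.bu 0 z * M.lu y) * M.lu z * w⁻¹ * (M.lu y * M.lu z)⁻¹ * w := by group
    _ = S.bu 0 y * (M.lu y * S.bu 0 z) * M.lu z * w⁻¹ * (M.lu y * M.lu z)⁻¹ * w := by rw [h1]
    _ = _ := by group

variable (φ : Fn D J K)

/-- The value computed with `w`. -/
noncomputable def Lm.psi (w z : Dˣ) : K := φ.f (M.cor w z)

theorem Lm.psi_mul {w y z : Dˣ} (hy : y ∈ M.good w) (hz : z ∈ M.good w) :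
    M.psi φ w (y * z) = M.psi φ w y * M.psi φ w z := by
  have h1 := M.cor_mem hy
  have h2 := M.cor_mem hz
  rw [Lm.psi, M.cor_mul hy.1 hz.1, φ.mul _ _ (GI_conj _ h2) h1, φ.conj _ _ h2, mul_comm]
  rfl

theorem Lm.psi_one {w : Dˣ} : M.psi φ w 1 = 1 := by
  have h := M.psi_mul φ (M.good w).one_mem (M.good w).one_mem
  rw [mul_one] at h
  exact left_eq_mul.1 h

theorem Lm.psi_inv {w z : Dˣ} (hz : z ∈ M.good w) : M.psi φ w z⁻¹ = (M.psi φ w z)⁻¹ := by
  rw [eq_inv_iff_mul_eq_one, ← M.psi_mul φ ((M.good w).inv_mem hz) hz, inv_mul_cancel, M.psi_one]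

theorem Lm.psi_J {w z : Dˣ} (hz : z ∈ GI J) : M.psi φ w z = φ.f z := by
  rw [Lm.psi, Lm.cor, M.lu_one hz, inv_one, one_mul, mul_one, inv_mul_cancel, mul_one,
    φ.stab S 0 z hz]

/-- A homomorphism which extends `φ` does not see the correction. -/
theorem Lm.psi_key {w w' z : Dˣ} (hz : z ∈ M.good w) (h1 : S.bu 0 z ∈ M.good w')
    (h2 : M.lu z ∈ M.good w') (h3 : w ∈ M.good w') : M.psi φ w z = M.psi φ w' (S.bu 0 z) := by
  have h4 : M.psi φ w z = M.psi φ w' (M.cor w z) := (M.psi_J φ (M.cor_mem hz)).symm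
  have h2' := (M.good w').inv_mem h2
  have h3' := (M.good w').inv_mem h3
  have h5 := (M.good w').mul_mem h2 h3'
  have h6 := (M.good w').mul_mem h5 h2'
  rw [h4, Lm.cor, M.psi_mul φ h1 ((M.good w').mul_mem h6 h3), M.psi_mul φ h6 h3,
    M.psi_mul φ h5 h2', M.psi_mul φ h2 h3', M.psi_inv φ h2, M.psi_inv φ h3]
  rw [mul_comm (M.psi φ w' (M.lu z)), mul_inv_cancel_right, inv_mul_cancel, mul_one]

/-- The extension. -/
noncomputable def Lm.ext (z : Dˣ) : K :=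
  open Classical in
  if h : z ∈ GI I then M.psi φ (Classical.choose (M.exists_good [z] (by simpa using h))) z else 1

theorem Lm.ext_eq {w z : Dˣ} (hw : w ∈ GI I) (hz : z ∈ M.good w) : M.ext φ z = M.psi φ w z := by
  have h := hz.1
  rw [Lm.ext, dif_pos h]
  have h0 := Classical.choose_spec (M.exists_good [z] (by simpa using h))
  set w₀ := Classical.choose (M.exists_good [z] (by simpa using h)) with hw₀
  have h1 : z ∈ M.good w₀ := h0.2 z (by simp)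
  obtain ⟨w', hw', h2⟩ := M.exists_good [S.bu 0 z, M.lu z, w, w₀] (by
    intro x hx
    simp only [List.mem_cons, List.not_mem_nil, or_false] at hx
    rcases hx with rfl | rfl | rfl | rfl
    · exact bu_mem S 0 h
    · exact M.lu_mem h
    · exact hw
    · exact h0.1)
  rw [M.psi_key φ h1 (h2 _ (by simp)) (h2 _ (by simp)) (h2 _ (by simp)),
    M.psi_key φ hz (h2 _ (by simp)) (h2 _ (by simp)) (h2 _ (by simp))]

theorem Lm.ext_mul {y z : Dˣ} (hy : y ∈ GI I) (hz : z ∈ GI I) :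
    M.ext φ (y * z) = M.ext φ y * M.ext φ z := by
  obtain ⟨w, hw, h⟩ := M.exists_good [y, z] (by
    intro x hx
    simp only [List.mem_cons, List.not_mem_nil, or_false] at hx
    rcases hx with rfl | rfl
    · exact hy
    · exact hz)
  have h1 := h y (by simp)
  have h2 := h z (by simp)
  rw [M.ext_eq φ hw h1, M.ext_eq φ hw h2, M.ext_eq φ hw ((M.good w).mul_mem h1 h2),
    M.psi_mul φ h1 h2]

theorem Lm.ext_J {z : Dˣ} (hz : z ∈ GI J) : M.ext φ z = φ.f z := by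
  rw [M.ext_eq φ (GI I).one_mem (M.good_J hz 1), M.psi_J φ hz]

theorem Lm.ext_cor {w z : Dˣ} (hw : w ∈ GI I) (hz : z ∈ M.good w) :
    φ.f (M.cor w z) = M.ext φ z := (M.ext_eq φ hw hz).symm

/-- Homomorphisms which extend `φ` are determined on the block `0`. -/
theorem Lm.uniq (χ : Dˣ → K) (h1 : ∀ y z, y ∈ GI I → z ∈ GI I → χ (y * z) = χ y * χ z)
    (h2 : ∀ z, z ∈ GI J → χ z = φ.f z) {z : Dˣ} (hz : z ∈ GI I) :
    χ (S.bu 0 z) = M.ext φ z := by
  obtain ⟨w, hw, h⟩ := M.exists_good [z] (by simpa using hz)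
  have h3 := h z (by simp)
  have h4 : χ 1 = 1 := by
    have h := h1 1 1 (GI I).one_mem (GI I).one_mem
    rw [mul_one] at h
    exact left_eq_mul.1 h
  have h5 : ∀ y, y ∈ GI I → χ y⁻¹ = (χ y)⁻¹ := fun y hy => by
    rw [eq_inv_iff_mul_eq_one, ← h1 _ _ ((GI I).inv_mem hy) hy, inv_mul_cancel, h4]
  have a1 := bu_mem S 0 hz
  have a2 := M.lu_mem hz
  have a3 := (GI I).inv_mem a2
  have a4 := (GI I).inv_mem hw
  have a5 := (GI I).mul_mem a2 a4
  have a6 := (GI I).mul_mem a5 a3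
  rw [← M.ext_cor φ hw h3, ← h2 _ (M.cor_mem h3), Lm.cor, h1 _ _ a1 ((GI I).mul_mem a6 hw),
    h1 _ _ a6 hw, h1 _ _ a5 a3, h1 _ _ a2 a4, h5 _ a2, h5 _ hw,
    mul_comm (χ (M.lu z)), mul_inv_cancel_right, inv_mul_cancel, mul_one]

theorem Lm.ext_stab {z : Dˣ} (hz : z ∈ GI I) : M.ext φ (S.bu 0 z) = M.ext φ z :=
  M.uniq φ (M.ext φ) (fun _ _ hy hz => M.ext_mul φ hy hz) (fun _ hz => M.ext_J φ hz) hz

theorem Lm.ext_conj {g z : Dˣ} (hz : z ∈ GI I) : M.ext φ (g * z * g⁻¹) = M.ext φ z := by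
  have key : ∀ (g : Dˣ) {z : Dˣ}, z ∈ GI I → M.ext φ (g * S.bu 0 z * g⁻¹) = M.ext φ z := by
    intro g z hz
    refine M.uniq φ (fun z => M.ext φ (g * z * g⁻¹)) (fun y z hy hz => ?_) (fun z hz => ?_) hz
    · have e : g * (y * z) * g⁻¹ = g * y * g⁻¹ * (g * z * g⁻¹) := by group
      change M.ext φ (g * (y * z) * g⁻¹) = _
      rw [e, M.ext_mul φ (GI_conj g hy) (GI_conj g hz)]
    · change M.ext φ (g * z * g⁻¹) = _
      rw [M.ext_J φ (GI_conj g hz), φ.conj _ _ hz]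
  rw [← M.ext_stab φ (GI_conj g hz), S.bu_mul, S.bu_mul, S.bu_inv]
  exact key (S.bu 0 g) hz

/-- The extension as an invariant. -/
noncomputable def Lm.extW : Fw S I K where
  f := M.ext φ
  mul _ _ hu hv := M.ext_mul φ hu hv
  conj _ _ hu := M.ext_conj φ hu
  stab _ hu := M.ext_stab φ hu

/-- The extension as an invariant. -/
noncomputable def Lm.extF : Fn D I K := (M.extW φ).strong

theorem Lm.extF_J {z : Dˣ} (hz : z ∈ GI J) : (M.extF φ).f z = φ.f z := M.ext_J φ hz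

theorem Lm.extF_cor {w z : Dˣ} (hw : w ∈ GI I) (hz : z ∈ M.good w) :
    (M.extF φ).f z = φ.f (M.cor w z) := M.ext_eq φ hw hz

/-- Uniqueness of the extension. -/
theorem Lm.unique {S : Isom D} {J : TwoSidedIdeal D} (M : Lm S I J) (χ χ' : Fn D I K) (h : ∀ z, z ∈ GI J → χ.f z = χ'.f z) {z : Dˣ}
    (hz : z ∈ GI I) : χ.f z = χ'.f z := by
  let φ' : Fn D J K :=
    { f := χ'.f
      mul := fun u v hu hv => χ'.mul u v (GI_mono M.le hu) (GI_mono M.le hv)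
      swap := fun a b u v ha hu hv => χ'.swap a b u v (M.le ha) hu hv }
  rw [← χ.stab S 0 z hz, ← χ'.stab S 0 z hz,
    M.uniq φ' χ.f χ.mul h hz, M.uniq φ' χ'.f χ'.mul (fun _ _ => rfl) hz]

end Lm

end

end Pool.Agent.TQ
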