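import Pool.Agent.Lib.MP_8f66f0_al_TQ.FnK1

/-! The unit in the extension lemma as a product of elementary matrices in three blocks. -/

set_option autoImplicit false

namespace Pool.Agent.TQ

section

variable {D : Type} [Ring D] (S : Isom D) {I J : TwoSidedIdeal D}

/-- The unit `1 + w` for `w ^ 2 = 0`. -/
def one_add (w : D) (hw : w * w = 0) : Dˣ where
  val := 1 + w
  inv := 1 - w
  val_inv := by
    simp only [mul_sub, add_mul, mul_one, one_mul, hw]
    abel
  inv_val := by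
    simp only [mul_add, sub_mul, mul_one, one_mul, hw]
    abel

/-- The rotation `(1 + w) (1 - w') (1 + w)`. -/
def rot (w w' : D) (hw : w * w = 0) (hw' : w' * w' = 0) : Dˣ :=
  one_add w hw * (one_add w' hw')⁻¹ * one_add w hw

theorem rot_mem {w w' : D} (hw : w * w = 0) (hw' : w' * w' = 0) (h : w ∈ I) (h' : w' ∈ I) :
    rot w w' hw hw' ∈ GI I := by
  have h1 : one_add w hw ∈ GI I := by
    change (1 + w) - 1 ∈ I
    rw [add_sub_cancel_left]
    exact h
  have h2 : one_add w' hw' ∈ GI I := by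
    change (1 + w') - 1 ∈ I
    rw [add_sub_cancel_left]
    exact h'
  exact (GI I).mul_mem ((GI I).mul_mem h1 ((GI I).inv_mem h2)) h1

/-- Congruence of elements. -/
def Ce (J : TwoSidedIdeal D) (x y : D) : Prop := x - y ∈ J

theorem Ce.refl (x : D) : Ce J x x := by
  rw [Ce, sub_self]
  exact J.zero_mem

theorem Ce.symm {x y : D} (h : Ce J x y) : Ce J y x := by
  rw [Ce, ← neg_sub]
  exact J.neg_mem h

theorem Ce.trans {x y z : D} (h : Ce J x y) (h' : Ce J y z) : Ce J x z := by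
  have e : x - z = (x - y) + (y - z) := by abel
  rw [Ce, e]
  exact J.add_mem h h'

theorem Ce.add {x y x' y' : D} (h : Ce J x y) (h' : Ce J x' y') : Ce J (x + x') (y + y') := by
  have e : x + x' - (y + y') = (x - y) + (x' - y') := by abel
  rw [Ce, e]
  exact J.add_mem h h'

theorem Ce.sub {x y x' y' : D} (h : Ce J x y) (h' : Ce J x' y') : Ce J (x - x') (y - y') := by
  have e : x - x' - (y - y') = (x - y) - (x' - y') := by abel
  rw [Ce, e]
  exact J.sub_mem h h'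

theorem Ce.left {x y : D} (a : D) (h : Ce J x y) : Ce J (a * x) (a * y) := by
  rw [Ce, ← mul_sub]
  exact J.mul_mem_left _ _ h

theorem Ce.right {x y : D} (a : D) (h : Ce J x y) : Ce J (x * a) (y * a) := by
  rw [Ce, ← sub_mul]
  exact J.mul_mem_right _ _ h

theorem Ce.of_eq {x y : D} (h : x = y) : Ce J x y := h ▸ Ce.refl x

/-- The rotation moves `z` to `w z w'`. -/
theorem rot_conj {w w' z : D} (hw : w * w = 0) (hw' : w' * w' = 0) (h1 : z * w = 0)
    (h2 : w' * z = 0) (h3 : Ce J (w' * (w * z)) z) (h4 : Ce J (z * w' * w) z) :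
    Ce J (rot w w' hw hw' * z * ((rot w w' hw hw')⁻¹ : Dˣ)) (w * z * w') := by
  have e1 : (rot w w' hw hw' : D) = (1 + w) * (1 - w') * (1 + w) := rfl
  have e2 : (((rot w w' hw hw')⁻¹ : Dˣ) : D) = (1 - w) * ((1 + w') * (1 - w)) := by
    rw [rot, mul_inv_rev, mul_inv_rev, inv_inv]
    rfl
  have a1 : Ce J ((rot w w' hw hw' : D) * z) (w * z) := by
    rw [e1]
    have b1 : (1 + w) * (1 - w') * (1 + w) * z = (1 + w) * (z + w * z - w' * z - w' * (w * z)) := by
      noncomm_ring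
    rw [b1, h2, sub_zero]
    have b2 : Ce J (z + w * z - w' * (w * z)) (w * z) := by
      refine (Ce.sub (Ce.refl _) h3).trans (Ce.of_eq ?_)
      abel
    refine (Ce.left (1 + w) b2).trans (Ce.of_eq ?_)
    rw [add_mul, one_mul, ← mul_assoc, hw, zero_mul, add_zero]
  have a2 : Ce J (z * ((rot w w' hw hw')⁻¹ : Dˣ)) (z * w') := by
    rw [e2]
    have b1 : z * ((1 - w) * ((1 + w') * (1 - w))) =
        z + z * w' - z * w - z * w' * w - z * w * (1 + w') * (1 - w) := by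
      noncomm_ring
    rw [b1, h1]
    simp only [zero_mul, sub_zero]
    refine (Ce.sub (Ce.refl _) h4).trans (Ce.of_eq ?_)
    abel
  have a3 : w * (z * ((rot w w' hw hw')⁻¹ : Dˣ)) = w * z * ((rot w w' hw hw')⁻¹ : Dˣ) := by
    rw [mul_assoc]
  have a4 : w * (z * w') = w * z * w' := by rw [mul_assoc]
  refine (Ce.right _ a1).trans ?_
  rw [← a3, ← a4]
  exact Ce.left w a2

theorem sq_W (S : Isom D) (a t : D) : (S.s 2 * a * S.t 0 + S.s 2 * t * S.t 1) *
    (S.s 2 * a * S.t 0 + S.s 2 * t * S.t 1) = 0 := by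
  have n02x : ∀ y, S.t 0 * (S.s 2 * y) = 0 := S.nex (by decide)
  have n12x : ∀ y, S.t 1 * (S.s 2 * y) = 0 := S.nex (by decide)
  simp only [mul_add, add_mul, mul_assoc, n02x, n12x, mul_zero, add_zero]

theorem sq_W' (S : Isom D) (a' t' : D) : (S.s 0 * a' * S.t 2 + S.s 1 * t' * S.t 2) *
    (S.s 0 * a' * S.t 2 + S.s 1 * t' * S.t 2) = 0 := by
  have n20x : ∀ y, S.t 2 * (S.s 0 * y) = 0 := S.nex (by decide)
  have n21x : ∀ y, S.t 2 * (S.s 1 * y) = 0 := S.nex (by decide)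
  simp only [mul_add, add_mul, mul_assoc, n20x, n21x, mul_zero, add_zero]

theorem sq_V (S : Isom D) (p : D) : (S.s 2 * p * S.t 1) * (S.s 2 * p * S.t 1) = 0 := by
  have n12x : ∀ y, S.t 1 * (S.s 2 * y) = 0 := S.nex (by decide)
  simp only [mul_assoc, n12x, mul_zero]

theorem sq_V' (S : Isom D) (p : D) : (S.s 1 * p * S.t 2) * (S.s 1 * p * S.t 2) = 0 := by
  have n21x : ∀ y, S.t 2 * (S.s 1 * y) = 0 := S.nex (by decide)
  simp only [mul_assoc, n21x, mul_zero]

/-- The unit which moves the blocks `0` and `1` to the block `1` (through the block `2`). -/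
def uu (S : Isom D) (a a' t t' p : D) : Dˣ :=
  (rot (S.s 2 * p * S.t 1) (S.s 1 * p * S.t 2) (sq_V S p) (sq_V' S p))⁻¹ *
    rot (S.s 2 * a * S.t 0 + S.s 2 * t * S.t 1) (S.s 0 * a' * S.t 2 + S.s 1 * t' * S.t 2)
      (sq_W S a t) (sq_W' S a' t')

theorem uu_mem (S : Isom D) {a a' t t' p : D} (ha : a ∈ I) (ha' : a' ∈ I) (ht : t ∈ I)
    (ht' : t' ∈ I) (hp : p ∈ I) : uu S a a' t t' p ∈ GI I := by
  have m1 : ∀ {i j : Fin 3} {y : D}, y ∈ I → S.s i * y * S.t j ∈ I := fun h =>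
    I.mul_mem_right _ _ (I.mul_mem_left _ _ h)
  exact (GI I).mul_mem ((GI I).inv_mem (rot_mem _ _ (m1 hp) (m1 hp)))
    (rot_mem _ _ (I.add_mem (m1 ha) (m1 ht)) (I.add_mem (m1 ha') (m1 ht')))

/-- The unit `uu` has the property which is needed for the extension lemma. -/
theorem uu_spec (S : Isom D) {a a' t t' p : D} (F : Finset D) (L : D → D) (h1 : Ce J (a' * t) 0)
    (h2 : Ce J (t' * a) 0) (h3 : ∀ x ∈ F, Ce J (a' * (a * x)) x)
    (h4 : ∀ x ∈ F, Ce J (x * a' * a) x) (h5 : ∀ x ∈ F, Ce J (t' * (t * L x)) (L x))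
    (h6 : ∀ x ∈ F, Ce J (L x * t' * t) (L x))
    (h7 : ∀ x ∈ F, Ce J (a * x * a' + t * L x * t') (L x)) (h8 : ∀ x ∈ F, Ce J (p * L x) (L x))
    (h9 : ∀ x ∈ F, Ce J (L x * p) (L x)) :
    ∀ x ∈ F, (uu S a a' t t' p : D) * (S.blk 0 x + S.blk 1 (L x)) *
      (((uu S a a' t t' p)⁻¹ : Dˣ) : D) - S.blk 1 (L x) ∈ J := by
  have n02 : S.t 0 * S.s 2 = 0 := S.ne (by decide)
  have n12 : S.t 1 * S.s 2 = 0 := S.ne (by decide)
  have n20 : S.t 2 * S.s 0 = 0 := S.ne (by decide)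
  have n21 : S.t 2 * S.s 1 = 0 := S.ne (by decide)
  have n02x : ∀ y, S.t 0 * (S.s 2 * y) = 0 := S.nex (by decide)
  have n12x : ∀ y, S.t 1 * (S.s 2 * y) = 0 := S.nex (by decide)
  have n20x : ∀ y, S.t 2 * (S.s 0 * y) = 0 := S.nex (by decide)
  have n21x : ∀ y, S.t 2 * (S.s 1 * y) = 0 := S.nex (by decide)
  have c1 : ∀ {i j : Fin 3} {y y' : D}, Ce J y y' → Ce J (S.s i * y * S.t j) (S.s i * y' * S.t j) :=
    fun h => Ce.right _ (Ce.left _ h)
  let W := S.s 2 * a * S.t 0 + S.s 2 * t * S.t 1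
  let W' := S.s 0 * a' * S.t 2 + S.s 1 * t' * S.t 2
  let V := S.s 2 * p * S.t 1
  let V' := S.s 1 * p * S.t 2
  have hW : W * W = 0 := sq_W S a t
  have hW' : W' * W' = 0 := sq_W' S a' t'
  have hV : V * V = 0 := sq_V S p
  have hV' : V' * V' = 0 := sq_V' S p
  let C := rot W W' hW hW'
  let C' := rot V V' hV hV'
  intro x hx
  have hu : uu S a a' t t' p = C'⁻¹ * C := rfl
  rw [hu]
  have k1 : Ce J ((C : D) * (S.blk 0 x + S.blk 1 (L x)) * ((C⁻¹ : Dˣ) : D)) (S.blk 2 (L x)) := by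
    refine (rot_conj hW hW' ?_ ?_ ?_ ?_).trans ?_
    · simp only [W, Isom.blk, mul_add, add_mul, mul_assoc, n02x, n12x, mul_zero, add_zero]
    · simp only [W', Isom.blk, mul_add, add_mul, mul_assoc, n20x, n21x, mul_zero, add_zero]
    · have e : W' * (W * (S.blk 0 x + S.blk 1 (L x))) =
          (S.s 0 * (a' * (a * x)) * S.t 0 + S.s 0 * (a' * t * L x) * S.t 1) +
            (S.s 1 * (t' * a * x) * S.t 0 + S.s 1 * (t' * (t * L x)) * S.t 1) := by
        simp only [W, W', Isom.blk, mul_add, add_mul, mul_assoc, S.samex, S.n01x, S.n10x, mul_zero,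
          add_zero, zero_add]
        abel
      rw [e]
      refine (Ce.add (Ce.add (c1 (h3 x hx)) (c1 (Ce.right _ h1)))
        (Ce.add (c1 (Ce.right _ h2)) (c1 (h5 x hx)))).trans (Ce.of_eq ?_)
      simp only [zero_mul, mul_zero, add_zero, zero_add]
      rfl
    · have e : (S.blk 0 x + S.blk 1 (L x)) * W' * W =
          (S.s 0 * (x * a' * a) * S.t 0 + S.s 0 * (x * (a' * t)) * S.t 1) +
            (S.s 1 * (L x * (t' * a)) * S.t 0 + S.s 1 * (L x * t' * t) * S.t 1) := by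
        simp only [W, W', Isom.blk, mul_add, add_mul, mul_assoc, S.samex, S.n01x, S.n10x, mul_zero,
          add_zero, zero_add]
        abel
      rw [e]
      refine (Ce.add (Ce.add (c1 (h4 x hx)) (c1 (Ce.left _ h1)))
        (Ce.add (c1 (Ce.left _ h2)) (c1 (h6 x hx)))).trans (Ce.of_eq ?_)
      simp only [zero_mul, mul_zero, add_zero, zero_add]
      rfl
    · have e : W * (S.blk 0 x + S.blk 1 (L x)) * W' =
          S.s 2 * (a * x * a' + t * L x * t') * S.t 2 := by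
        simp only [W, W', Isom.blk, mul_add, add_mul, mul_assoc, S.samex, S.n01x, S.n10x, mul_zero,
          add_zero, zero_add]
      rw [e]
      exact c1 (h7 x hx)
  have k2 : Ce J ((C' : D) * S.blk 1 (L x) * ((C'⁻¹ : Dˣ) : D)) (S.blk 2 (L x)) := by
    refine (rot_conj hV hV' ?_ ?_ ?_ ?_).trans ?_
    · simp only [V, Isom.blk, mul_assoc, n12x, mul_zero]
    · simp only [V', Isom.blk, mul_assoc, n21x, mul_zero]
    · have e : V' * (V * S.blk 1 (L x)) = S.s 1 * (p * (p * L x)) * S.t 1 := by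
        simp only [V, V', Isom.blk, mul_assoc, S.samex]
      rw [e]
      exact c1 ((Ce.left _ (h8 x hx)).trans (h8 x hx))
    · have e : S.blk 1 (L x) * V' * V = S.s 1 * (L x * p * p) * S.t 1 := by
        simp only [V, V', Isom.blk, mul_assoc, S.samex]
      rw [e]
      exact c1 ((Ce.right _ (h9 x hx)).trans (h9 x hx))
    · have e : V * S.blk 1 (L x) * V' = S.s 2 * (p * L x * p) * S.t 2 := by
        simp only [V, V', Isom.blk, mul_assoc, S.samex]
      rw [e]
      exact c1 ((Ce.right _ (h8 x hx)).trans (h9 x hx))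
  have k3 := Ce.right (C' : D) (Ce.left ((C'⁻¹ : Dˣ) : D) (k1.trans k2.symm))
  refine Ce.trans (Ce.of_eq ?_) (k3.trans (Ce.of_eq ?_))
  · rw [Units.val_mul, mul_inv_rev, Units.val_mul, inv_inv]
    simp only [mul_assoc]
  · calc ((C'⁻¹ : Dˣ) : D) * ((C' : D) * S.blk 1 (L x) * ((C'⁻¹ : Dˣ) : D)) * (C' : D)
        = (((C'⁻¹ : Dˣ) : D) * (C' : D)) * S.blk 1 (L x) * (((C'⁻¹ : Dˣ) : D) * (C' : D)) := by
          simp only [mul_assoc]
      _ = S.blk 1 (L x) := by rw [Units.inv_mul, one_mul, mul_one]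

end

end Pool.Agent.TQ
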