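import Pool.Agent.Lib.MP_8f66f0_al_TQ.Ext

/-! Invariants of all units of a ring with orthogonal isometries are invariants of invertible
matrices; the flasque lemma. -/

set_option autoImplicit false

namespace Pool.Agent.TQ

open Pool.Agent.Wald Matrix

section

variable {D : Type} [Ring D]

/-- A family of isometries with orthogonal ranges. -/
structure Fam (D : Type) [Ring D] (n : Type) where
  T : n → D
  T' : n → D
  orth : ∀ i j, i ≠ j → T' i * T j = 0
  one : ∀ i, T' i * T i = 1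

section Fam

variable {n m k : Type} [Fintype n] [Fintype m] [Fintype k]

/-- The element of the ring which corresponds to a matrix. -/
def cmx (F : Fam D n) (G : Fam D m) (A : Matrix n m D) : D := ∑ i, ∑ j, F.T i * A i j * G.T' j

theorem cmx_add (F : Fam D n) (G : Fam D m) (A B : Matrix n m D) :
    cmx F G (A + B) = cmx F G A + cmx F G B := by
  simp only [cmx, Matrix.add_apply, mul_add, add_mul, Finset.sum_add_distrib]

theorem cmx_zero (F : Fam D n) (G : Fam D m) : cmx F G 0 = 0 := by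
  simp only [cmx, Matrix.zero_apply, mul_zero, zero_mul, Finset.sum_const_zero]

theorem cmx_mul (F : Fam D n) (G : Fam D m) (H : Fam D k) (A : Matrix n m D)
    (B : Matrix m k D) : cmx F G A * cmx G H B = cmx F H (A * B) := by
  classical
  have h : ∀ (i : n) (j b : m) (c : k), F.T i * A i j * G.T' j * (G.T b * B b c * H.T' c) =
      if j = b then F.T i * (A i j * B j c) * H.T' c else 0 := by
    intro i j b c
    split
    · next h =>
      subst h
      calc F.T i * A i j * G.T' j * (G.T j * B j c * H.T' c)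
          = F.T i * A i j * (G.T' j * G.T j) * B j c * H.T' c := by simp only [mul_assoc]
        _ = _ := by rw [G.one]; simp only [mul_assoc, one_mul]
    · next h =>
      calc F.T i * A i j * G.T' j * (G.T b * B b c * H.T' c)
          = F.T i * A i j * (G.T' j * G.T b) * B b c * H.T' c := by simp only [mul_assoc]
        _ = 0 := by rw [G.orth _ _ h]; simp
  calc cmx F G A * cmx G H B
      = ∑ i, ∑ j, ∑ b, ∑ c, F.T i * A i j * G.T' j * (G.T b * B b c * H.T' c) := by
        simp only [cmx, Finset.sum_mul]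
        simp only [Finset.mul_sum]
    _ = ∑ i, ∑ j, ∑ c, F.T i * (A i j * B j c) * H.T' c := by
        refine Finset.sum_congr rfl fun i _ => Finset.sum_congr rfl fun j _ => ?_
        simp only [h]
        rw [Finset.sum_comm]
        refine Finset.sum_congr rfl fun c _ => ?_
        rw [Finset.sum_ite_eq, if_pos (Finset.mem_univ j)]
    _ = cmx F H (A * B) := by
        simp only [cmx, Matrix.mul_apply, Finset.mul_sum, Finset.sum_mul]
        refine Finset.sum_congr rfl fun i _ => ?_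
        rw [Finset.sum_comm]

theorem cmx_sub (F : Fam D n) (G : Fam D m) (A B : Matrix n m D) :
    cmx F G (A - B) = cmx F G A - cmx F G B := by
  rw [eq_sub_iff_add_eq, ← cmx_add, sub_add_cancel]

/-- The unit which corresponds to an invertible matrix. -/
def cu [DecidableEq n] (F : Fam D n) (A : (Matrix n n D)ˣ) : Dˣ where
  val := 1 + cmx F F ((A : Matrix n n D) - 1)
  inv := 1 + cmx F F (((A⁻¹ : (Matrix n n D)ˣ) : Matrix n n D) - 1)
  val_inv := by
    have h : cmx F F ((A : Matrix n n D) - 1) + cmx F F (((A⁻¹ : (Matrix n n D)ˣ) : Matrix n n D) - 1) +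
        cmx F F ((A : Matrix n n D) - 1) * cmx F F (((A⁻¹ : (Matrix n n D)ˣ) : Matrix n n D) - 1) = 0 := by
      rw [cmx_mul, ← cmx_add, ← cmx_add]
      have : ((A : Matrix n n D) - 1 + (((A⁻¹ : (Matrix n n D)ˣ) : Matrix n n D) - 1) +
          ((A : Matrix n n D) - 1) * (((A⁻¹ : (Matrix n n D)ˣ) : Matrix n n D) - 1)) = 0 := by
        simp only [mul_sub, sub_mul, Units.mul_inv, mul_one, one_mul]
        abel
      rw [this, cmx_zero]
    calc _ = 1 + (cmx F F ((A : Matrix n n D) - 1) +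
          cmx F F (((A⁻¹ : (Matrix n n D)ˣ) : Matrix n n D) - 1) +
          cmx F F ((A : Matrix n n D) - 1) *
            cmx F F (((A⁻¹ : (Matrix n n D)ˣ) : Matrix n n D) - 1)) := by
          simp only [mul_add, add_mul, mul_one, one_mul]
          abel
      _ = 1 := by rw [h, add_zero]
  inv_val := by
    have h : cmx F F (((A⁻¹ : (Matrix n n D)ˣ) : Matrix n n D) - 1) + cmx F F ((A : Matrix n n D) - 1) +
        cmx F F (((A⁻¹ : (Matrix n n D)ˣ) : Matrix n n D) - 1) * cmx F F ((A : Matrix n n D) - 1) = 0 := by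
      rw [cmx_mul, ← cmx_add, ← cmx_add]
      have : ((((A⁻¹ : (Matrix n n D)ˣ) : Matrix n n D) - 1) + ((A : Matrix n n D) - 1) +
          (((A⁻¹ : (Matrix n n D)ˣ) : Matrix n n D) - 1) * ((A : Matrix n n D) - 1)) = 0 := by
        simp only [mul_sub, sub_mul, Units.inv_mul, mul_one, one_mul]
        abel
      rw [this, cmx_zero]
    calc _ = 1 + (cmx F F (((A⁻¹ : (Matrix n n D)ˣ) : Matrix n n D) - 1) +
          cmx F F ((A : Matrix n n D) - 1) +
          cmx F F (((A⁻¹ : (Matrix n n D)ˣ) : Matrix n n D) - 1) *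
            cmx F F ((A : Matrix n n D) - 1)) := by
          simp only [mul_add, add_mul, mul_one, one_mul]
          abel
      _ = 1 := by rw [h, add_zero]

theorem cu_val [DecidableEq n] (F : Fam D n) (A : (Matrix n n D)ˣ) :
    (cu F A : D) = 1 + cmx F F ((A : Matrix n n D) - 1) := rfl

theorem cu_mul [DecidableEq n] (F : Fam D n) (A B : (Matrix n n D)ˣ) :
    cu F (A * B) = cu F A * cu F B := by
  ext
  rw [Units.val_mul, cu_val, cu_val, cu_val]
  have h : ((A * B : (Matrix n n D)ˣ) : Matrix n n D) - 1 =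
      ((A : Matrix n n D) - 1) + ((B : Matrix n n D) - 1) +
        ((A : Matrix n n D) - 1) * ((B : Matrix n n D) - 1) := by
    simp only [Units.val_mul, mul_sub, sub_mul, mul_one, one_mul]
    abel
  rw [h, cmx_add, cmx_add, ← cmx_mul F F F]
  simp only [mul_add, add_mul, mul_one, one_mul]
  abel

variable {K : Type} [CommGroup K] (φ : Fn D ⊤ K)

/-- Cyclic invariance for matrices. -/
theorem swapM [DecidableEq n] [DecidableEq m] (F : Fam D n) (G : Fam D m) (A : Matrix n m D)
    (B : Matrix m n D) (X : (Matrix n n D)ˣ) (Y : (Matrix m m D)ˣ)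
    (hX : (X : Matrix n n D) = 1 + A * B) (hY : (Y : Matrix m m D) = 1 + B * A) :
    φ.f (cu F X) = φ.f (cu G Y) := by
  refine φ.swap (cmx F G A) (cmx G F B) _ _ (by trivial) ?_ ?_
  · rw [cmx_mul, cu_val, hX, add_sub_cancel_left]
  · rw [cmx_mul, cu_val, hY, add_sub_cancel_left]

theorem fam_indep [DecidableEq n] (F G : Fam D n) (X : (Matrix n n D)ˣ) :
    φ.f (cu F X) = φ.f (cu G X) :=
  swapM φ F G ((X : Matrix n n D) - 1) 1 X X (by rw [mul_one]; abel) (by rw [one_mul]; abel)

end Fam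

/-- A family which is indexed by the natural numbers. -/
def Isom.fam (S : Isom D) : Fam D ℕ where
  T i := S.s 1 ^ i * S.s 0
  T' i := S.t 0 * S.t 1 ^ i
  orth i j h := by
    have h1 : ∀ k : ℕ, S.t 1 ^ k * S.s 1 ^ k = 1 := by
      intro k
      induction k with
      | zero => simp
      | succ k ih =>
        rw [pow_succ (S.t 1), pow_succ' (S.s 1), mul_assoc, ← mul_assoc (S.t 1), S.same, one_mul, ih]
    rcases lt_or_gt_of_ne h with h | h
    · obtain ⟨k, rfl⟩ := Nat.exists_eq_add_of_lt h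
      rw [show i + k + 1 = i + (k + 1) from rfl, pow_add, pow_succ' _ k]
      calc S.t 0 * S.t 1 ^ i * (S.s 1 ^ i * (S.s 1 * S.s 1 ^ k) * S.s 0)
          = S.t 0 * (S.t 1 ^ i * S.s 1 ^ i) * S.s 1 * S.s 1 ^ k * S.s 0 := by simp only [mul_assoc]
        _ = S.t 0 * S.s 1 * S.s 1 ^ k * S.s 0 := by rw [h1, mul_one]
        _ = 0 := by rw [S.n01]; simp
    · obtain ⟨k, rfl⟩ := Nat.exists_eq_add_of_lt h
      rw [show j + k + 1 = (k + 1) + j by ring, pow_add, pow_succ _ k]
      calc S.t 0 * (S.t 1 ^ k * S.t 1 * S.t 1 ^ j) * (S.s 1 ^ j * S.s 0)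
          = S.t 0 * S.t 1 ^ k * S.t 1 * (S.t 1 ^ j * S.s 1 ^ j) * S.s 0 := by simp only [mul_assoc]
        _ = S.t 0 * S.t 1 ^ k * (S.t 1 * S.s 0) := by rw [h1]; simp only [mul_one, mul_assoc]
        _ = 0 := by rw [S.n10]; simp
  one i := by
    have h1 : ∀ k : ℕ, S.t 1 ^ k * S.s 1 ^ k = 1 := by
      intro k
      induction k with
      | zero => simp
      | succ k ih =>
        rw [pow_succ (S.t 1), pow_succ' (S.s 1), mul_assoc, ← mul_assoc (S.t 1), S.same, one_mul, ih]
    calc S.t 0 * S.t 1 ^ i * (S.s 1 ^ i * S.s 0) = S.t 0 * (S.t 1 ^ i * S.s 1 ^ i) * S.s 0 := by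
          simp only [mul_assoc]
      _ = 1 := by rw [h1, mul_one, S.same]

/-- Reindexing of a family. -/
def Fam.comp {n m : Type} (F : Fam D m) (e : n → m) (he : Function.Injective e) : Fam D n where
  T i := F.T (e i)
  T' i := F.T' (e i)
  orth i j h := F.orth _ _ (he.ne h)
  one i := F.one _

/-- A family which is indexed by a finite type. -/
noncomputable def Isom.famF (S : Isom D) (n : Type) [Fintype n] : Fam D n :=
  S.fam.comp (fun i => (Fintype.equivFin n i : ℕ))
    (Fin.val_injective.comp (Fintype.equivFin n).injective)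

section K1

variable {K : Type} [CommGroup K] (S : Isom D) (φ : Fn D ⊤ K)

open Classical in
/-- The value on an invertible matrix. -/
noncomputable def fm {n : Type} [Fintype n] [DecidableEq n] (A : Matrix n n D) : K :=
  if h : IsUnit A then φ.f (cu (S.famF n) h.unit) else 1

theorem fm_eq {n : Type} [Fintype n] [DecidableEq n] (F : Fam D n) (A : (Matrix n n D)ˣ) :
    fm S φ (A : Matrix n n D) = φ.f (cu F A) := by
  have h : IsUnit (A : Matrix n n D) := A.isUnit
  rw [fm, dif_pos h, fam_indep φ _ F]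
  congr 2
  ext1
  rfl

theorem mem_top (u : Dˣ) : u ∈ GI (⊤ : TwoSidedIdeal D) := trivial

theorem fm_mul {n : Type} [Fintype n] [DecidableEq n] (A B : Matrix n n D) (hA : IsUnit A)
    (hB : IsUnit B) : fm S φ (A * B) = fm S φ A * fm S φ B := by
  obtain ⟨A, rfl⟩ := hA
  obtain ⟨B, rfl⟩ := hB
  rw [← Units.val_mul, fm_eq S φ (S.famF n), fm_eq S φ (S.famF n), fm_eq S φ (S.famF n), cu_mul,
    φ.mul _ _ (mem_top _) (mem_top _)]

theorem fm_reindex {n m : Type} [Fintype n] [DecidableEq n] [Fintype m] [DecidableEq m]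
    (e : n ≃ m) (A : Matrix n n D) (hA : IsUnit A) :
    fm S φ (A.submatrix e.symm e.symm) = fm S φ A := by
  obtain ⟨A, rfl⟩ := hA
  let B : (Matrix m m D)ˣ :=
    { val := (A : Matrix n n D).submatrix e.symm e.symm
      inv := ((A⁻¹ : (Matrix n n D)ˣ) : Matrix n n D).submatrix e.symm e.symm
      val_inv := by rw [Matrix.submatrix_mul_equiv, Units.mul_inv, Matrix.submatrix_one_equiv]
      inv_val := by rw [Matrix.submatrix_mul_equiv, Units.inv_mul, Matrix.submatrix_one_equiv] }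
  have hB : (B : Matrix m m D) = (A : Matrix n n D).submatrix e.symm e.symm := rfl
  rw [← hB, fm_eq S φ (S.famF m), fm_eq S φ ((S.famF m).comp e e.injective)]
  congr 1
  ext
  rw [cu_val, cu_val, hB]
  congr 1
  simp only [cmx]
  rw [← Equiv.sum_comp e]
  refine Finset.sum_congr rfl fun i _ => ?_
  rw [← Equiv.sum_comp e]
  refine Finset.sum_congr rfl fun j _ => ?_
  simp only [Matrix.sub_apply, Matrix.submatrix_apply, Equiv.symm_apply_apply, Matrix.one_apply,
    EmbeddingLike.apply_eq_iff_eq]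
  rfl

theorem fm_diag {n m : Type} [Fintype n] [DecidableEq n] [Fintype m] [DecidableEq m]
    (A : (Matrix n n D)ˣ) (B : (Matrix (n ⊕ m) (n ⊕ m) D)ˣ)
    (hB : (B : Matrix (n ⊕ m) (n ⊕ m) D) = Matrix.fromBlocks A 0 0 1) :
    fm S φ (B : Matrix (n ⊕ m) (n ⊕ m) D) = fm S φ (A : Matrix n n D) := by
  rw [fm_eq S φ (S.famF (n ⊕ m)), fm_eq S φ ((S.famF (n ⊕ m)).comp Sum.inl Sum.inl_injective)]
  congr 1
  ext
  rw [cu_val, cu_val, hB]
  congr 1
  simp only [cmx, Fintype.sum_sum_type]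
  simp [Matrix.one_apply, Fam.comp]

theorem fm_diag' {n m : Type} [Fintype n] [DecidableEq n] [Fintype m] [DecidableEq m]
    (A : (Matrix m m D)ˣ) (B : (Matrix (n ⊕ m) (n ⊕ m) D)ˣ)
    (hB : (B : Matrix (n ⊕ m) (n ⊕ m) D) = Matrix.fromBlocks 1 0 0 A) :
    fm S φ (B : Matrix (n ⊕ m) (n ⊕ m) D) = fm S φ (A : Matrix m m D) := by
  rw [fm_eq S φ (S.famF (n ⊕ m)), fm_eq S φ ((S.famF (n ⊕ m)).comp Sum.inr Sum.inr_injective)]
  congr 1
  ext
  rw [cu_val, cu_val, hB]
  congr 1
  simp only [cmx, Fintype.sum_sum_type]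
  simp [Matrix.one_apply, Fam.comp]

theorem fm_one {n : Type} [Fintype n] [DecidableEq n] : fm S φ (1 : Matrix n n D) = 1 := by
  have h := fm_mul S φ (1 : Matrix n n D) 1 isUnit_one isUnit_one
  rw [mul_one] at h
  exact left_eq_mul.1 h

theorem fm_uni {n m : Type} [Fintype n] [DecidableEq n] [Fintype m] [DecidableEq m]
    (C : Matrix n m D) (B : (Matrix (n ⊕ m) (n ⊕ m) D)ˣ)
    (hB : (B : Matrix (n ⊕ m) (n ⊕ m) D) = Matrix.fromBlocks 1 C 0 1) :
    fm S φ (B : Matrix (n ⊕ m) (n ⊕ m) D) = 1 := by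
  rw [fm_eq S φ (S.famF (n ⊕ m)), ← fm_one S φ (n := n ⊕ m), ← Units.val_one,
    fm_eq S φ (S.famF (n ⊕ m))]
  refine swapM φ (S.famF (n ⊕ m)) (S.famF (n ⊕ m)) (Matrix.fromBlocks 0 C 0 0)
    (Matrix.fromBlocks 0 0 0 1) B 1 ?_ ?_
  · rw [hB, Matrix.fromBlocks_multiply, ← Matrix.fromBlocks_one, Matrix.fromBlocks_add]
    simp
  · rw [Units.val_one, Matrix.fromBlocks_multiply]
    simp [Matrix.fromBlocks_zero]

theorem fm_tri {n m : Type} [Fintype n] [DecidableEq n] [Fintype m] [DecidableEq m]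
    (A : Matrix n n D) (B : Matrix n m D) (C : Matrix m m D) (hA : IsUnit A) (hC : IsUnit C) :
    fm S φ (Matrix.fromBlocks A B 0 C) = fm S φ A * fm S φ C := by
  obtain ⟨A, rfl⟩ := hA
  obtain ⟨C, rfl⟩ := hC
  let A' : (Matrix (n ⊕ m) (n ⊕ m) D)ˣ :=
    { val := Matrix.fromBlocks A 0 0 1
      inv := Matrix.fromBlocks ((A⁻¹ : (Matrix n n D)ˣ) : Matrix n n D) 0 0 1
      val_inv := by simp [Matrix.fromBlocks_multiply]
      inv_val := by simp [Matrix.fromBlocks_multiply] }
  let C' : (Matrix (n ⊕ m) (n ⊕ m) D)ˣ :=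
    { val := Matrix.fromBlocks 1 0 0 C
      inv := Matrix.fromBlocks 1 0 0 ((C⁻¹ : (Matrix m m D)ˣ) : Matrix m m D)
      val_inv := by simp [Matrix.fromBlocks_multiply]
      inv_val := by simp [Matrix.fromBlocks_multiply] }
  let B' : (Matrix (n ⊕ m) (n ⊕ m) D)ˣ :=
    { val := Matrix.fromBlocks 1 B 0 1
      inv := Matrix.fromBlocks 1 (-B) 0 1
      val_inv := by simp [Matrix.fromBlocks_multiply]
      inv_val := by simp [Matrix.fromBlocks_multiply] }
  have h : Matrix.fromBlocks (A : Matrix n n D) B 0 (C : Matrix m m D) =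
      (C' : Matrix (n ⊕ m) (n ⊕ m) D) * (B' * A') := by
    simp [A', B', C', Matrix.fromBlocks_multiply]
  rw [h, fm_mul S φ _ _ C'.isUnit (B'.isUnit.mul A'.isUnit), fm_mul S φ _ _ B'.isUnit A'.isUnit,
    fm_uni S φ B B' rfl, fm_diag S φ A A' rfl, fm_diag' S φ C C' rfl, one_mul, mul_comm]

/-- The invariant of invertible matrices. -/
noncomputable def Fn.k1 : K1Fun D K where
  f A := fm S φ A
  mul A B hA hB := fm_mul S φ A B hA hB
  reindex e A hA := fm_reindex S φ e A hA
  tri A B C hA hC := fm_tri S φ A B C hA hC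

/-- The value at a matrix. -/
theorem k1_eq {n : Type} [Fintype n] [DecidableEq n] (F : Fam D n) (A : (Matrix n n D)ˣ) :
    (φ.k1 S).f (A : Matrix n n D) = φ.f (cu F A) := fm_eq S φ F A

end K1

/-! ### The flasque lemma -/

section Flasque

variable {K : Type} [CommGroup K] (S : Isom D) {I : TwoSidedIdeal D} (φ : Fn D I K)

/-- If `x + y` is equivalent to `y` then the invariant of `1 + x` is trivial. -/
theorem Fn.flasque (u v : Dˣ) (hu : u ∈ GI I) (hv : v ∈ GI I) (w w' : D)
    (h1 : w' * w * (S.blk 0 ((u : D) - 1) + S.blk 1 ((v : D) - 1)) =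
      S.blk 0 ((u : D) - 1) + S.blk 1 ((v : D) - 1))
    (h2 : w * (S.blk 0 ((u : D) - 1) + S.blk 1 ((v : D) - 1)) * w' = S.blk 1 ((v : D) - 1)) :
    φ.f u = 1 := by
  have e : ((S.bu 0 u * S.bu 1 v : Dˣ) : D) =
      1 + (S.blk 0 ((u : D) - 1) + S.blk 1 ((v : D) - 1)) := by
    have h3 : S.blk 0 ((u : D) - 1) * S.blk 1 ((v : D) - 1) = 0 := by
      simp only [Isom.blk, mul_assoc, S.n01x, mul_zero]
    rw [Units.val_mul, S.bu_val, S.bu_val, mul_add, add_mul, add_mul, h3]
    simp only [mul_one, one_mul]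
    abel
  have hx : (u : D) - 1 ∈ I := hu
  have hy : (v : D) - 1 ∈ I := hv
  have h4 : φ.f (S.bu 0 u * S.bu 1 v) = φ.f (S.bu 1 v) := by
    refine (φ.swap (w * (S.blk 0 ((u : D) - 1) + S.blk 1 ((v : D) - 1))) w' (S.bu 1 v) _
      (I.mul_mem_left _ _ (I.add_mem ?_ ?_)) ?_ ?_).symm
    · exact I.mul_mem_right _ _ (I.mul_mem_left _ _ hx)
    · exact I.mul_mem_right _ _ (I.mul_mem_left _ _ hy)
    · rw [h2]
      rfl
    · rw [← mul_assoc, h1, e]
  rw [φ.mul _ _ (bu_mem S 0 hu) (bu_mem S 1 hv), φ.stab S 0 u hu] at h4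
  exact mul_eq_right.1 h4

end Flasque

end

end Pool.Agent.TQ
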