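import Pool.Agent.Lib.MP_8f66f0_al_TQ.TD

/-! The polynomial homotopy for one tree. -/

set_option autoImplicit false

namespace Pool.Agent.TQ.TreeData

open Finsupp

variable {Γ V E Q : Type} [Group Γ] [MulAction Γ V] [MulAction Γ E] [MulAction Γ Q]

section Comb

variable (D : TreeData Γ V E Q)

theorem dep_root (q : Q) : D.dep (D.root q) = 0 := by
  have key : ∀ (n : ℕ) (v : V), D.dep v = n → ∃ w, D.dep w = 0 ∧ D.home w = D.home v := by
    intro n
    induction n with
    | zero => exact fun v h => ⟨v, h, rfl⟩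
    | succ n ih =>
      intro v h
      have h0 : D.dep v ≠ 0 := by omega
      obtain ⟨w, h1, h2⟩ := ih (D.par v) (by have := D.dep_par v h0; omega)
      exact ⟨w, h1, h2.trans (D.home_par v h0)⟩
  obtain ⟨w, h1, h2⟩ := key _ (D.root q) rfl
  rw [D.home_root] at h2
  have h3 := D.dep_zero w h1
  rw [h2] at h3
  rw [← h3, h1]

/-- The edges are determined by their ends. -/
theorem edge_unique {e f : E} (h : (D.tail e = D.tail f ∧ D.head e = D.head f) ∨
    (D.tail e = D.head f ∧ D.head e = D.tail f)) : e = f := by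
  have hd : ∀ e : E, D.dep (D.par (D.ch e)) + 1 = D.dep (D.ch e) := fun e => D.dep_par _ (D.dep_ch e)
  have key : ∀ {x y x' y' : V}, D.dep y + 1 = D.dep x → D.dep y' + 1 = D.dep x' →
      ((x = x' ∧ y = y') ∨ (x = y' ∧ y = x')) → x = x' := by
    rintro x y x' y' h1 h2 (⟨h, _⟩ | ⟨h, h'⟩)
    · exact h
    · rw [h, h'] at h1
      omega
  apply D.ch_inj
  refine key (hd e) (hd f) ?_
  rcases D.ends e with ⟨a1, a2⟩ | ⟨a1, a2⟩ <;> rcases D.ends f with ⟨b1, b2⟩ | ⟨b1, b2⟩ <;>
    rw [a1, a2, b1, b2] at h
  · exact h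
  · rcases h with h | h
    · exact Or.inr h
    · exact Or.inl h
  · rcases h with ⟨h, h'⟩ | ⟨h, h'⟩
    · exact Or.inr ⟨h', h⟩
    · exact Or.inl ⟨h', h⟩
  · rcases h with ⟨h, h'⟩ | ⟨h, h'⟩
    · exact Or.inl ⟨h', h⟩
    · exact Or.inr ⟨h', h⟩

/-- The translate of an edge: the end which is further away from the root is the translate of the
corresponding end (first case), or of the other end. -/
theorem smul_ch (g : Γ) (e : E) :
    (g • D.ch e = D.ch (g • e) ∧ g • D.par (D.ch e) = D.par (D.ch (g • e))) ∨
    (g • D.ch e = D.par (D.ch (g • e)) ∧ g • D.par (D.ch e) = D.ch (g • e)) := by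
  have h1 := D.tail_smul g e
  have h2 := D.head_smul g e
  rcases D.ends e with ⟨a1, a2⟩ | ⟨a1, a2⟩ <;> rcases D.ends (g • e) with ⟨b1, b2⟩ | ⟨b1, b2⟩ <;>
    rw [← a2, ← a1, ← b2, ← b1, h1, h2]
  · exact Or.inl ⟨rfl, rfl⟩
  · exact Or.inr ⟨rfl, rfl⟩
  · exact Or.inr ⟨rfl, rfl⟩
  · exact Or.inl ⟨rfl, rfl⟩

/-- The exceptional edges: the translate of the edge points to the other side. -/
def Exc (g : Γ) (e : E) : Prop := g • D.ch e = D.par (D.ch (g • e))

theorem not_exc {g : Γ} {e : E} (h : ¬ D.Exc g e) : g • D.ch e = D.ch (g • e) :=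
  ((D.smul_ch g e).resolve_right fun h' => h h'.1).1

theorem not_exc_par {g : Γ} {e : E} (h : ¬ D.Exc g e) : g • D.par (D.ch e) = D.par (D.ch (g • e)) :=
  ((D.smul_ch g e).resolve_right fun h' => h h'.1).2

theorem exc_par {g : Γ} {e : E} (h : D.Exc g e) : g • D.par (D.ch e) = D.ch (g • e) := by
  rcases D.smul_ch g e with ⟨h1, h2⟩ | h1
  · exfalso
    have h3 := D.dep_par _ (D.dep_ch (g • e))
    rw [Exc, h1] at h
    rw [← h] at h3
    omega
  · exact h1.2

/-- The translate of the far end of an exceptional edge is an ancestor of the translate of the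
root. -/
theorem exc_anc (g : Γ) : ∀ (n : ℕ) (e : E), D.dep (D.ch e) = n → D.Exc g e →
    g • D.ch e = D.par^[n] (g • D.root (D.home (D.ch e))) ∧
      D.dep (g • D.ch e) + n = D.dep (g • D.root (D.home (D.ch e))) := by
  intro n
  induction n with
  | zero => exact fun e h => absurd h (D.dep_ch e)
  | succ n ih =>
    intro e h he
    have h1 := D.dep_par _ (D.dep_ch e)
    have h2 := D.exc_par he
    have h3 : g • D.ch e = D.par (g • D.par (D.ch e)) := by
      rw [h2]
      exact he
    have h4 : D.dep (g • D.ch e) + 1 = D.dep (g • D.par (D.ch e)) := by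
      rw [h3]
      refine D.dep_par _ ?_
      rw [h2]
      exact D.dep_ch _
    have h5 := D.home_par _ (D.dep_ch e)
    by_cases h0 : D.dep (D.par (D.ch e)) = 0
    · have hn : n = 0 := by omega
      subst hn
      have h6 := D.dep_zero _ h0
      rw [h5] at h6
      rw [← h6]
      exact ⟨h3, h4⟩
    · obtain ⟨f, hf⟩ := D.ch_surj _ h0
      have hfe : D.Exc g f := by
        by_contra hne
        have h6 := D.not_exc_par hne
        have h7 := D.not_exc hne
        rw [hf] at h6 h7
        rw [← h7] at h6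
        -- `g • par (par x) = par (g • par x) = g • x`
        have h8 : g • D.par (D.par (D.ch e)) = g • D.ch e := by
          rw [h6, h3]
        have h9 := smul_left_cancel g h8
        have h10 := D.dep_par _ h0
        rw [h9] at h10
        omega
      obtain ⟨i1, i2⟩ := ih f (by rw [hf]; omega) hfe
      rw [hf, h5] at i1 i2
      refine ⟨?_, by omega⟩
      rw [h3, i1, ← Function.iterate_succ_apply' D.par]

/-- There are finitely many exceptional edges. -/
theorem exc_finite [Finite Q] (g : Γ) : {e : E | D.Exc g e}.Finite := by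
  have h1 : (⋃ q : Q, (fun n : ℕ => g⁻¹ • D.par^[n] (g • D.root q)) ''
      (Set.Iic (D.dep (g • D.root q)))).Finite :=
    Set.finite_iUnion fun q => (Set.finite_Iic _).image _
  refine Set.Finite.of_finite_image (f := D.ch) (h1.subset ?_) D.ch_inj.injOn
  rintro _ ⟨e, he, rfl⟩
  obtain ⟨i1, i2⟩ := D.exc_anc g _ e rfl he
  rw [Set.mem_iUnion]
  refine ⟨D.home (D.ch e), D.dep (D.ch e), ?_, ?_⟩
  · rw [Set.mem_Iic]
    omega
  · change g⁻¹ • D.par^[D.dep (D.ch e)] (g • D.root (D.home (D.ch e))) = D.ch e
    rw [← i1, inv_smul_smul]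

end Comb

section Homotopy

variable (D : TreeData Γ V E Q) {R : Type} [CommRing R] (t : R)

/-- `e_v ↦ e_v - t e_(par v)`, and `e_v ↦ e_v` for the roots. -/
noncomputable def UU : (V →₀ R) →ₗ[R] (V →₀ R) :=
  Finsupp.linearCombination R fun v =>
    if D.dep v = 0 then single v 1 else single v 1 - single (D.par v) t

/-- The inverse: `e_v ↦ ∑ t^i e_(par^i v)`. -/
noncomputable def AA : (V →₀ R) →ₗ[R] (V →₀ R) :=
  Finsupp.linearCombination R fun v =>
    ∑ i ∈ Finset.range (D.dep v + 1), single (D.par^[i] v) (t ^ i)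

theorem UU_root {v : V} (h : D.dep v = 0) : D.UU t (single v 1) = single v 1 := by
  rw [UU, linearCombination_single, one_smul, if_pos h]

theorem UU_ne {v : V} (h : D.dep v ≠ 0) :
    D.UU t (single v 1) = single v 1 - single (D.par v) t := by
  rw [UU, linearCombination_single, one_smul, if_neg h]

theorem AA_single (v : V) : D.AA t (single v 1) =
    ∑ i ∈ Finset.range (D.dep v + 1), single (D.par^[i] v) (t ^ i) := by
  rw [AA, linearCombination_single, one_smul]

theorem single_smul (v : V) (r : R) : (single v r : V →₀ R) = r • single v 1 := by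
  rw [Finsupp.smul_single, smul_eq_mul, mul_one]

theorem AA_root {v : V} (h : D.dep v = 0) : D.AA t (single v 1) = single v 1 := by
  rw [AA_single, h]
  simp

theorem AA_ne {v : V} (h : D.dep v ≠ 0) :
    D.AA t (single v 1) = single v 1 + t • D.AA t (single (D.par v) 1) := by
  have h1 := D.dep_par v h
  rw [AA_single, AA_single, ← h1, Finset.sum_range_succ']
  rw [Finset.smul_sum, add_comm]
  congr 1
  · simp
  · refine Finset.sum_congr rfl fun i _ => ?_
    rw [Finsupp.smul_single, Function.iterate_succ_apply, smul_eq_mul, pow_succ' t i]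

theorem AA_UU (x : V →₀ R) : D.AA t (D.UU t x) = x := by
  have h : D.AA t ∘ₗ D.UU t = LinearMap.id := by
    refine Finsupp.lhom_ext' fun v => LinearMap.ext_ring ?_
    simp only [LinearMap.comp_apply, lsingle_apply, LinearMap.id_apply]
    by_cases h : D.dep v = 0
    · rw [UU_root D t h, AA_root D t h]
    · rw [UU_ne D t h, map_sub, single_smul (D.par v) t, map_smul, AA_ne D t h, add_sub_cancel_right]
  exact LinearMap.congr_fun h x

theorem UU_AA (x : V →₀ R) : D.UU t (D.AA t x) = x := by
  have h : D.UU t ∘ₗ D.AA t = LinearMap.id := by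
    refine Finsupp.lhom_ext' fun v => LinearMap.ext_ring ?_
    simp only [LinearMap.comp_apply, lsingle_apply, LinearMap.id_apply]
    have key : ∀ (n : ℕ) (v : V), D.dep v = n → D.UU t (D.AA t (single v 1)) = single v 1 := by
      intro n
      induction n with
      | zero =>
        intro v h
        rw [AA_root D t h, UU_root D t h]
      | succ n ih =>
        intro v h
        have h0 : D.dep v ≠ 0 := by omega
        rw [AA_ne D t h0, map_add, map_smul, ih (D.par v) (by have := D.dep_par v h0; omega),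
          UU_ne D t h0, single_smul (D.par v) t, sub_add_cancel]
    exact key _ v rfl
  exact LinearMap.congr_fun h x

/-- The permutation. -/
noncomputable def pm (g : Γ) : (V →₀ R) →ₗ[R] (V →₀ R) := lmapDomain R R (g • · : V → V)

theorem pm_single (g : Γ) (v : V) (r : R) : pm g (single v r : V →₀ R) = single (g • v) r := by
  rw [pm, lmapDomain_apply, mapDomain_single]

theorem pm_mul (g h : Γ) (x : V →₀ R) : pm (g * h) x = pm g (pm h x) := by
  have e : (pm (g * h) : (V →₀ R) →ₗ[R] (V →₀ R)) = pm g ∘ₗ pm h := by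
    refine Finsupp.lhom_ext' fun v => LinearMap.ext_ring ?_
    simp only [LinearMap.comp_apply, lsingle_apply, pm_single, mul_smul]
  exact LinearMap.congr_fun e x

theorem pm_one (x : V →₀ R) : pm (1 : Γ) x = x := by
  have e : (pm (1 : Γ) : (V →₀ R) →ₗ[R] (V →₀ R)) = LinearMap.id := by
    refine Finsupp.lhom_ext' fun v => LinearMap.ext_ring ?_
    simp only [lsingle_apply, pm_single, one_smul, LinearMap.comp_apply, LinearMap.id_apply]
  exact LinearMap.congr_fun e x

/-- The homotopy. -/
noncomputable def Ph (g : Γ) : (V →₀ R) →ₗ[R] (V →₀ R) := D.AA t ∘ₗ pm g ∘ₗ D.UU t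

theorem Ph_mul (g h : Γ) (x : V →₀ R) : D.Ph t (g * h) x = D.Ph t g (D.Ph t h x) := by
  simp only [Ph, LinearMap.comp_apply, UU_AA, pm_mul]

theorem Ph_one (x : V →₀ R) : D.Ph t (1 : Γ) x = x := by
  simp only [Ph, LinearMap.comp_apply, pm_one, AA_UU]

/-- The columns of the roots. -/
theorem Ph_root (g : Γ) (q : Q) :
    D.Ph t g (single (D.root q) 1) = D.AA t (single (g • D.root q) 1) := by
  simp only [Ph, LinearMap.comp_apply, UU_root D t (D.dep_root q), pm_single]

/-- The columns of the other vertices, if the edge is not exceptional. -/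
theorem Ph_not_exc {g : Γ} {e : E} (h : ¬ D.Exc g e) :
    D.Ph t g (single (D.ch e) 1) = single (g • D.ch e) 1 := by
  have h1 : D.dep (g • D.ch e) ≠ 0 := by
    rw [D.not_exc h]
    exact D.dep_ch _
  simp only [Ph, LinearMap.comp_apply]
  rw [UU_ne D t (D.dep_ch e), map_sub, pm_single, pm_single, D.not_exc_par h, ← D.not_exc h,
    ← UU_ne D t h1, AA_UU]

/-- The columns of the other vertices, if the edge is exceptional. -/
theorem Ph_exc {g : Γ} {e : E} (h : D.Exc g e) :
    D.Ph t g (single (D.ch e) 1) =
      D.AA t (single (g • D.ch e) 1) - t • D.AA t (single (D.ch (g • e)) 1) := by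
  simp only [Ph, LinearMap.comp_apply]
  rw [UU_ne D t (D.dep_ch e), map_sub, pm_single, pm_single, D.exc_par h, map_sub,
    single_smul (D.ch (g • e)) t, map_smul]

/-- The homotopy at `t = 0`. -/
theorem Ph_zero (g : Γ) (x : V →₀ R) : D.Ph (0 : R) g x = pm g x := by
  have hU : ∀ x : V →₀ R, D.UU (0 : R) x = x := by
    intro x
    have e : D.UU (0 : R) = LinearMap.id := by
      refine Finsupp.lhom_ext' fun v => LinearMap.ext_ring ?_
      simp only [LinearMap.comp_apply, lsingle_apply, LinearMap.id_apply]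
      by_cases h : D.dep v = 0
      · rw [UU_root D 0 h]
      · rw [UU_ne D 0 h, single_zero, sub_zero]
    exact LinearMap.congr_fun e x
  have hA : ∀ x : V →₀ R, D.AA (0 : R) x = x := by
    intro x
    rw [← hU (D.AA 0 x), UU_AA]
  simp only [Ph, LinearMap.comp_apply, hU, hA]

/-- The homotopy at `t = 1`: signed permutation of the edges. -/
theorem Ph_one_edge (g : Γ) (e : E) : D.Ph (1 : R) g (single (D.ch e) 1) = single (D.ch (g • e)) 1 ∨
    D.Ph (1 : R) g (single (D.ch e) 1) = - single (D.ch (g • e)) 1 := by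
  by_cases h : D.Exc g e
  · right
    rw [Ph_exc D 1 h, one_smul, AA_ne D 1 (D.dep_ch (g • e)), one_smul]
    rw [show g • D.ch e = D.par (D.ch (g • e)) from h]
    abel
  · left
    rw [Ph_not_exc D 1 h, D.not_exc h]

open Classical in
/-- The coefficient of a root in a column of `AA`. -/
theorem AA_apply_root : ∀ (n : ℕ) (v : V), D.dep v = n → ∀ w : V, D.dep w = 0 →
    D.AA t (single v 1) w = if w = D.root (D.home v) then t ^ n else 0 := by
  intro n
  induction n with
  | zero =>
    intro v hv w _
    rw [AA_root D t hv, single_apply, pow_zero, ← D.dep_zero v hv]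
    exact if_congr eq_comm rfl rfl
  | succ n ih =>
    intro v hv w hw
    have h0 : D.dep v ≠ 0 := by omega
    have h1 : v ≠ w := by
      rintro rfl
      exact h0 hw
    rw [AA_ne D t h0, Finsupp.add_apply, Finsupp.smul_apply, single_apply, if_neg h1, zero_add,
      ih (D.par v) (by have := D.dep_par v h0; omega) w hw, D.home_par v h0, smul_eq_mul, mul_ite,
      mul_zero, pow_succ']

open Classical in
/-- The homotopy at `t = 1`: the root goes to the root plus other vertices. -/
theorem Ph_one_root (g : Γ) (q : Q) (w : V) (h : D.dep w = 0) :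
    D.Ph (1 : R) g (single (D.root q) 1) w = if w = D.root (g • q) then 1 else 0 := by
  rw [Ph_root, D.AA_apply_root 1 _ _ rfl w h, D.home_smul, D.home_root, one_pow]

/-- The columns stay in the component. -/
theorem AA_home : ∀ (n : ℕ) (v : V), D.dep v = n → ∀ w : V,
    D.AA t (single v 1) w ≠ 0 → D.home w = D.home v := by
  intro n
  induction n with
  | zero =>
    intro v hv w hw
    rw [AA_root D t hv] at hw
    by_contra hne
    exact hw (single_eq_of_ne (by rintro rfl; exact hne rfl))
  | succ n ih =>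
    intro v hv w hw
    have h0 : D.dep v ≠ 0 := by omega
    by_cases h1 : v = w
    · rw [h1]
    · rw [AA_ne D t h0, Finsupp.add_apply, Finsupp.smul_apply,
        single_eq_of_ne (by rintro rfl; exact h1 rfl), zero_add] at hw
      rw [ih (D.par v) (by have := D.dep_par v h0; omega) w (by
        rintro h2
        rw [h2, smul_zero] at hw
        exact hw rfl), D.home_par v h0]

end Homotopy

end Pool.Agent.TQ.TreeData
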