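import Pool.Agent.Lib.MP_8f66f0_al_FH.VC
import Pool.Agent.Lib.MP_8f66f0_al_Tree.AllK
import Pool.Agent.Lib.MP_8f66f0_al_Tree.Star

/-! Theorem TQ: the class of the groups `G` such that every torsion-free group which is commensurable
to a subgroup of `G` is in `KS`. -/

set_option autoImplicit false

namespace Pool.Agent.TQ

open Pool.Agent.TreeC Pool.Agent.Hier Pool.Agent.WaldL Pool.Agent.FH

/-- Every torsion-free group with a subgroup of finite index which embeds in `G` is in `KS`. -/
def P0 (G : Type) [Group G] : Prop :=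
  ∀ (Λ : Type) [Group Λ], TF Λ → ∀ H : Subgroup Λ, H.FiniteIndex → ∀ f : H →* G,
    Function.Injective f → KS Λ

theorem p0_emb {G G' : Type} [Group G] [Group G'] (f : G' →* G) (hf : Function.Injective f)
    (h : P0 G) : P0 G' := fun Λ _ hΛ H hH j hj => h Λ hΛ H hH (f.comp j) (hf.comp hj)

/-- The property only depends on the commensurability class. -/
theorem p0_fi {G : Type} [Group G] (K : Subgroup G) (hK : K.FiniteIndex) (h : P0 K) : P0 G := by
  intro Λ _ hΛ H hH f hf
  let H' : Subgroup Λ := (K.comap f).map H.subtype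
  have h1 : H'.FiniteIndex := by
    refine ⟨?_⟩
    rw [Subgroup.index_map_subtype]
    refine mul_ne_zero ?_ hH.index_ne_zero
    rw [Subgroup.index_comap]
    exact fun h0 => hK.index_ne_zero (Subgroup.index_eq_zero_of_relIndex_eq_zero h0)
  let e : K.comap f ≃* H' := (K.comap f).equivMapOfInjective H.subtype H.subtype_injective
  let g : K.comap f →* K := (f.comp (K.comap f).subtype).codRestrict K fun x => x.2
  have hg : Function.Injective g := fun x y hxy =>
    Subtype.ext (hf (congrArg (fun z : K => (z : G)) hxy))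
  exact h Λ hΛ H' h1 (g.comp e.symm.toMonoidHom) (hg.comp e.symm.injective)

theorem p0_triv (G : Type) [Group G] [Subsingleton G] : P0 G := by
  intro Λ _ hΛ H hH f hf
  have h1 : Subsingleton H := ⟨fun a b => hf (Subsingleton.elim _ _)⟩
  have h2 : Finite Λ := by
    rw [Subgroup.finite_iff_finite_and_finiteIndex (H := H)]
    exact ⟨inferInstance, hH⟩
  have h3 : Subsingleton Λ := hΛ.subsingleton
  exact ks_tcl.triv Λ

theorem p0_finite (G : Type) [Group G] (h : Finite G) : P0 G :=
  p0_fi (⊥ : Subgroup G) inferInstance (p0_triv _)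

theorem p0_directed {G : Type} [Group G] (S : Set (Subgroup G)) (hne : S.Nonempty)
    (hd : DirectedOn (· ≤ ·) S) (hS : ∀ g : G, ∃ K ∈ S, g ∈ K) (h : ∀ K ∈ S, P0 K) : P0 G := by
  intro Λ _ hΛ H hH f hf
  refine ks_tcl.directed Λ {U : Subgroup Λ | U.FG} ⟨⊥, Subgroup.FG.bot⟩ ?_ ?_ ?_
  · intro K hK K' hK'
    exact ⟨K ⊔ K', Subgroup.FG.sup hK hK', le_sup_left, le_sup_right⟩
  · intro g
    refine ⟨Subgroup.zpowers g, ⟨{g}, ?_⟩, Subgroup.mem_zpowers g⟩
    rw [Finset.coe_singleton, Subgroup.zpowers_eq_closure]
  · intro U hU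
    have h1 : Group.FG U := (Group.fg_iff_subgroup_fg U).2 hU
    have h2 : Group.FG (H.subgroupOf U) := Subgroup.fg_of_index_ne_zero _
    obtain ⟨T, hT⟩ := Group.fg_def.1 h2
    let j : H.subgroupOf U →* H :=
      (U.subtype.comp (H.subgroupOf U).subtype).codRestrict H fun x => x.2
    classical
    obtain ⟨K, hK, h3⟩ := exists_mem_all S hne hd hS (T.image fun t => f (j t))
    have h4 : ∀ x : H.subgroupOf U, f (j x) ∈ K := by
      intro x
      have h5 : x ∈ (Subgroup.closure (T : Set (H.subgroupOf U))) := by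
        rw [hT]
        trivial
      have h6 : Subgroup.closure (T : Set (H.subgroupOf U)) ≤ K.comap (f.comp j) := by
        rw [Subgroup.closure_le]
        intro t htT
        exact h3 _ (Finset.mem_image_of_mem _ htT)
      exact h6 h5
    refine h K hK U (hΛ.sub U) (H.subgroupOf U) inferInstance
      ((f.comp j).codRestrict K fun x => h4 x) ?_
    intro x y hxy
    have h7 : f (j x) = f (j y) := congrArg (fun z : K => (z : G)) hxy
    have h8 : (j x).1 = (j y).1 := congrArg Subtype.val (hf h7)
    exact Subtype.ext (Subtype.ext h8)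

/-- Finite groups have the property for extensions. -/
theorem star_finite (G : Type) [Group G] (h : Finite G) : Star P0 G := by
  intro Λ _ f hf
  refine p0_fi f.ker ?_ hf
  infer_instance

end Pool.Agent.TQ
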