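import Pool.Agent.Lib.MP_8f66f0_al_Q.Defs
import Pool.Agent.Lib.MP_8f66f0_al_Kuhn.Fst

/-! Theorem Q: the cells of a tree form a partial order; the class `SS` and products of trees with
permuted factors, given by a cocycle. -/

set_option autoImplicit false

namespace Pool.Agent.QT

open scoped Pointwise
open Pool.Agent.Kuhn.Ord

section Cells

variable {G V : Type} [Group G] [MulAction G V] (T : Tr G V)

theorem Tr.par_ne {x : V} (h : x ≠ T.root) : T.par x ≠ x := by
  intro h1
  have := T.dep_par x h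
  rw [h1] at this
  omega

theorem Tr.dep_pos {x : V} (h : x ≠ T.root) : T.dep x ≠ 0 := by
  have := T.dep_par x h
  omega

/-- The cells. -/
inductive Cl (T : Tr G V) : Type
  | v : V → Cl T
  | e : {x : V // x ≠ T.root} → Cl T

/-- The vertices of a cell. -/
def Cl.st {T : Tr G V} : Cl T → Set V
  | .v x => {x}
  | .e x => {x.1, T.par x.1}

theorem Cl.st_cases {T : Tr G V} (c : Cl T) :
    (∃ v, c.st = {v}) ∨ ∃ v, v ≠ T.root ∧ c.st = {v, T.par v} := by
  rcases c with x | x
  · exact Or.inl ⟨x, rfl⟩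
  · exact Or.inr ⟨x.1, x.2, rfl⟩

theorem st_e_sub {T : Tr G V} {x : {x : V // x ≠ T.root}} {s : Set V}
    (h : ({x.1, T.par x.1} : Set V) ⊆ s) : x.1 ∈ s ∧ T.par x.1 ∈ s :=
  ⟨h (Set.mem_insert _ _), h (Set.mem_insert_of_mem _ rfl)⟩

theorem e_eq_of_sub {T : Tr G V} {x y : {x : V // x ≠ T.root}}
    (h : ({x.1, T.par x.1} : Set V) ⊆ {y.1, T.par y.1}) : x = y := by
  obtain ⟨h1, h2⟩ := st_e_sub h
  rcases h1 with h1 | h1
  · exact Subtype.ext h1
  · have h1' : x.1 = T.par y.1 := h1
    have h3 := T.dep_par x.1 x.2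
    have h4 := T.dep_par y.1 y.2
    rcases h2 with h2 | h2
    · rw [h2, h1'] at h3
      omega
    · have h2' : T.par x.1 = T.par y.1 := h2
      rw [h2', h1'] at h3
      omega

theorem not_e_sub_v {T : Tr G V} {x : {x : V // x ≠ T.root}} {y : V} :
    ¬ ({x.1, T.par x.1} : Set V) ⊆ {y} := by
  intro h
  obtain ⟨h1, h2⟩ := st_e_sub h
  exact T.par_ne x.2 ((Set.mem_singleton_iff.1 h2).trans (Set.mem_singleton_iff.1 h1).symm)

theorem Cl.st_inj {T : Tr G V} : Function.Injective (Cl.st (T := T)) := by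
  rintro (x | x) (y | y) h
  · exact congrArg Cl.v (Set.singleton_injective h)
  · exact absurd (h.symm.subset) not_e_sub_v
  · exact absurd h.subset not_e_sub_v
  · exact congrArg Cl.e (e_eq_of_sub h.subset)

instance : PartialOrder (Cl T) := PartialOrder.lift Cl.st Cl.st_inj

theorem cl_le {c c' : Cl T} : c ≤ c' ↔ c.st ⊆ c'.st := Iff.rfl

open Classical in
/-- The action on the cells. -/
noncomputable def clSmul (g : G) : Cl T → Cl T
  | .v x => .v (g • x)
  | .e x => if h : g • x.1 ≠ T.root ∧ T.par (g • x.1) = g • T.par x.1 then .e ⟨g • x.1, h.1⟩ else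
      .e ⟨g • T.par x.1, by
        rcases T.adj g x.1 x.2 with h1 | h1
        · exact absurd h1 h
        · exact h1.1⟩

theorem clSmul_st (g : G) (c : Cl T) : (clSmul T g c).st = g • c.st := by
  rcases c with x | x
  · exact (Set.smul_set_singleton).symm
  · have h2 : g • (Cl.e x : Cl T).st = {g • x.1, g • T.par x.1} := by
      change g • ({x.1, T.par x.1} : Set V) = _
      rw [Set.smul_set_insert, Set.smul_set_singleton]
    rw [h2, clSmul]
    by_cases h : g • x.1 ≠ T.root ∧ T.par (g • x.1) = g • T.par x.1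
    · rw [dif_pos h]
      change ({g • x.1, T.par (g • x.1)} : Set V) = _
      rw [h.2]
    · rw [dif_neg h]
      change ({g • T.par x.1, T.par (g • T.par x.1)} : Set V) = _
      rcases T.adj g x.1 x.2 with h1 | h1
      · exact absurd h1 h
      · rw [h1.2, Set.pair_comm]

noncomputable instance : SMul G (Cl T) := ⟨clSmul T⟩

theorem cl_smul_st (g : G) (c : Cl T) : (g • c).st = g • c.st := clSmul_st T g c

noncomputable instance : MulAction G (Cl T) where
  one_smul c := Cl.st_inj (by rw [cl_smul_st, one_smul])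
  mul_smul g h c := Cl.st_inj (by rw [cl_smul_st, cl_smul_st, cl_smul_st, mul_smul])

/-- The depth. -/
def Cl.dp {T : Tr G V} : Cl T → ℕ
  | .v x => 2 * T.dep x
  | .e x => 2 * T.dep x.1 - 1

open Classical in
/-- The parent. -/
noncomputable def Cl.pa {T : Tr G V} : Cl T → Cl T
  | .v x => if h : x ≠ T.root then .e ⟨x, h⟩ else .v x
  | .e x => .v (T.par x.1)

theorem Cl.pa_v {T : Tr G V} {x : V} (h : x ≠ T.root) : (Cl.v x : Cl T).pa = .e ⟨x, h⟩ := by
  rw [Cl.pa, dif_pos h]

theorem Tr.ne_root {x : V} (h : T.dep x ≠ 0) : x ≠ T.root := by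
  rintro rfl
  exact h T.dep_root

theorem Cl.dp_zero {T : Tr G V} (c : Cl T) (h : c.dp = 0) : c = .v T.root := by
  rcases c with x | x
  · change 2 * T.dep x = 0 at h
    by_contra h1
    have h2 : x ≠ T.root := fun h3 => h1 (congrArg Cl.v h3)
    have := T.dep_pos h2
    omega
  · change 2 * T.dep x.1 - 1 = 0 at h
    have := T.dep_pos x.2
    omega

theorem Cl.dp_pa {T : Tr G V} (c : Cl T) (h : c.dp ≠ 0) : c.pa.dp + 1 = c.dp := by
  rcases c with x | x
  · change 2 * T.dep x ≠ 0 at h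
    have h1 : x ≠ T.root := T.ne_root (by omega)
    rw [Cl.pa_v h1]
    change 2 * T.dep x - 1 + 1 = 2 * T.dep x
    omega
  · have h1 := T.dep_par x.1 x.2
    change 2 * T.dep (T.par x.1) + 1 = 2 * T.dep x.1 - 1
    omega

theorem Cl.lt_cases {T : Tr G V} {x y : Cl T} (h : x < y) :
    (x.dp ≠ 0 ∧ x.pa = y) ∨ (y.dp ≠ 0 ∧ y.pa = x) := by
  have h1 : x.st ⊆ y.st := h.le
  rcases x with x | x <;> rcases y with y | y
  · have h2 : x ∈ ({y} : Set V) := Set.singleton_subset_iff.1 (show ({x} : Set V) ⊆ {y} from h1)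
    exact absurd (congrArg Cl.v (Set.mem_singleton_iff.1 h2)) h.ne
  · have h2 := T.dep_pos y.2
    rcases Set.singleton_subset_iff.1 h1 with h3 | h3
    · left
      subst h3
      refine ⟨?_, Cl.pa_v y.2⟩
      change 2 * T.dep y.1 ≠ 0
      omega
    · right
      have h4 : x = T.par y.1 := h3
      refine ⟨?_, congrArg Cl.v h4.symm⟩
      change 2 * T.dep y.1 - 1 ≠ 0
      omega
  · exact absurd h1 not_e_sub_v
  · exact absurd (congrArg Cl.e (e_eq_of_sub h1)) h.ne

theorem Cl.even {T : Tr G V} (x : Cl T) (h : x.dp ≠ 0) (he : Even x.dp) : x ≤ x.pa := by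
  rcases x with x | x
  · change 2 * T.dep x ≠ 0 at h
    have h1 : x ≠ T.root := T.ne_root (by omega)
    rw [Cl.pa_v h1, cl_le]
    exact Set.singleton_subset_iff.2 (Set.mem_insert _ _)
  · exfalso
    have h1 := T.dep_pos x.2
    have h2 : Even (2 * T.dep x.1 - 1) := he
    rw [Nat.even_iff] at h2
    omega

theorem Cl.odd {T : Tr G V} (x : Cl T) (h : Odd x.dp) : x.pa ≤ x := by
  rcases x with x | x
  · exfalso
    have h1 : Odd (2 * T.dep x) := h
    rw [Nat.odd_iff] at h1
    omega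
  · rw [cl_le]
    exact Set.singleton_subset_iff.2 (Set.mem_insert_of_mem _ rfl)

end Cells

section Forest

variable {Γ G Q V : Type} [Group Γ] [Group G] [MulAction Γ Q] [MulAction G V] (T : Tr G V)
  (D : Coc Γ G Q)

/-- The cells of the forest. -/
@[ext] structure QC (T : Tr G V) (D : Coc Γ G Q) : Type where
  /-- the component -/
  q : Q
  /-- the cell -/
  c : Cl T

instance : PartialOrder (QC T D) where
  le x y := x.q = y.q ∧ x.c ≤ y.c
  le_refl x := ⟨rfl, le_rfl⟩
  le_trans x y z h1 h2 := ⟨h1.1.trans h2.1, h1.2.trans h2.2⟩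
  le_antisymm x y h1 h2 := QC.ext h1.1 (le_antisymm h1.2 h2.2)

noncomputable instance : MulAction Γ (QC T D) where
  smul g x := ⟨g • x.q, D.c g x.q • x.c⟩
  one_smul x := by
    change (⟨(1 : Γ) • x.q, D.c 1 x.q • x.c⟩ : QC T D) = x
    rw [D.c_one, one_smul, one_smul]
  mul_smul g h x := by
    change (⟨(g * h) • x.q, D.c (g * h) x.q • x.c⟩ : QC T D) =
      ⟨g • h • x.q, D.c g (h • x.q) • D.c h x.q • x.c⟩
    rw [D.c_mul, mul_smul, mul_smul]

/-- The forest. -/
noncomputable def qforest : Forest (QC T D) Q where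
  π x := x.q
  D x := x.c.dp
  P x := ⟨x.q, x.c.pa⟩
  root q := ⟨q, .v T.root⟩
  π_P _ := rfl
  π_root _ := rfl
  D_P x h := x.c.dp_pa h
  D_zero x h := QC.ext rfl (x.c.dp_zero h)
  lt x y h := by
    have h1 : x.q = y.q ∧ x.c ≤ y.c := h.le
    have h2 : x.c < y.c := lt_of_le_of_ne h1.2 fun h3 => h.ne (QC.ext h1.1 h3)
    rcases Cl.lt_cases h2 with h3 | h3
    · exact Or.inl ⟨h3.1, QC.ext h1.1 h3.2⟩
    · exact Or.inr ⟨h3.1, QC.ext h1.1.symm h3.2⟩
  even x h he := ⟨rfl, x.c.even h he⟩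
  odd x h := ⟨rfl, x.c.odd h⟩

theorem qmono (g : Γ) (x y : QC T D) (h : x ≤ y) : g • x ≤ g • y := by
  obtain ⟨h1, h2⟩ := h
  rcases x with ⟨q, c⟩
  rcases y with ⟨q', c'⟩
  obtain rfl : q = q' := h1
  refine ⟨rfl, ?_⟩
  rw [cl_le] at h2
  change D.c g q • c ≤ D.c g q • c'
  rw [cl_le, cl_smul_st, cl_smul_st]
  exact Set.smul_set_mono h2

/-- The labels: partial cells. -/
def IsLab {V G : Type} [Group G] [MulAction G V] (T : Tr G V) {Q : Type}
    (c : Q → Option (Set V)) : Prop :=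
  (∃ q, c q ≠ none) ∧ ∀ q s, c q = some s →
    (∃ v, s = {v}) ∨ ∃ v, v ≠ T.root ∧ s = {v, T.par v}

/-- A group which acts on a finite product of trees with permuted factors is in `SS` if all subgroups
which fix a cell are in `SS`. -/
theorem ss_of_tr [Finite Q] [Nonempty Q]
    (h : ∀ (C : Subgroup Γ) (c : Tw D (Set V)), IsLab T c → (∀ g ∈ C, g • c = c) →
      Hier.SS C) : Hier.SS Γ := by
  refine (qforest T D).ss_of_forest (qmono T D) (fun g x => rfl) fun C ⟨c, h1, h2⟩ => ?_
  have h1' : ∀ q, (c q).q = q := h1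
  let l : Tw D (Set V) := fun q => some (c q).c.st
  refine h C l ⟨⟨Classical.arbitrary Q, Option.some_ne_none _⟩, ?_⟩ fun g hg => ?_
  · intro q s hs
    have h3 : (c q).c.st = s := Option.some_injective _ hs
    rw [← h3]
    exact (c q).c.st_cases
  · refine ((tw_eq_iff g l l).2 fun q => ?_).symm
    have h3 : (c (g • q)).c = D.c g (c q).q • (c q).c :=
      congrArg (fun x : QC T D => x.c) (h2 g hg q).symm
    rw [h1'] at h3
    change some (c (g • q)).c.st = some (D.c g q • (c q).c.st)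
    rw [h3, cl_smul_st]

end Forest

end Pool.Agent.QT
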