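import Pool.Agent.Lib.MP_8f66f0_al_TQ.QCell
import Pool.Agent.Lib.MP_8f66f0_al_Q.Spec
import Pool.Agent.Lib.MP_8f66f0_al_Tree.AllK

/-! Theorem Q: the induction on the number of factors. -/

set_option autoImplicit false

namespace Pool.Agent.QT

open scoped Pointwise
open Pool.Agent.TreeC Pool.Agent.Hier Pool.Agent.WaldL

/-- Theorem TQ in the cocycle format. -/
def S_TQC : Prop :=
  ∀ (Γ G Q V : Type) [Group Γ] [Group G] [MulAction Γ Q] [MulAction G V] [Finite Q] [Nonempty Q]
    (T : Tr G V) (D : Coc Γ G Q),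
    (∀ (C : Subgroup Γ) (c : Tw D (Set V)), IsLab T c → (∀ g ∈ C, g • c = c) → KS C) → KS Γ

section Res

variable {Γ G Q V : Type} [Group Γ] [Group G] [MulAction Γ Q] [MulAction G V] (T : Tr G V)
  (D : Coc Γ G Q) (C : Subgroup Γ) (J : Set Q) (hJ : ∀ g ∈ C, ∀ j ∈ J, g • j ∈ J)

/-- The components in `J`. -/
@[ext] structure JQ {Γ Q : Type} [Group Γ] [MulAction Γ Q] (C : Subgroup Γ) (J : Set Q)
    (_hJ : ∀ g ∈ C, ∀ j ∈ J, g • j ∈ J) : Type where
  /-- the component -/
  q : Q
  mem : q ∈ J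

instance : MulAction C (JQ C J hJ) where
  smul g q := ⟨g.1 • q.q, hJ g.1 g.2 q.q q.mem⟩
  one_smul q := JQ.ext (one_smul Γ q.q)
  mul_smul g h q := JQ.ext (mul_smul g.1 h.1 q.q)

/-- The restriction of the cocycle. -/
def resC : Coc C G (JQ C J hJ) where
  c g q := D.c g.1 q.q
  c_one q := D.c_one q.q
  c_mul g h q := D.c_mul g.1 h.1 q.q

open Classical in
/-- The extension of a partial function by infinity. -/
noncomputable def extL (c : Tw (resC D C J hJ) (Set V)) : Tw D (Set V) :=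
  fun q => if h : q ∈ J then c ⟨q, h⟩ else none

omit [MulAction G V] in
theorem extL_mem (c : Tw (resC D C J hJ) (Set V)) (q : JQ C J hJ) :
    extL D C J hJ c q.q = c q := dif_pos q.mem

omit [MulAction G V] in
theorem extL_notMem (c : Tw (resC D C J hJ) (Set V)) (q : Q) (h : q ∉ J) :
    extL D C J hJ c q = none := dif_neg h

theorem extL_lab (c : Tw (resC D C J hJ) (Set V)) (h : IsLab T c) :
    IsLab T (extL D C J hJ c) := by
  obtain ⟨⟨q, hq⟩, h2⟩ := h
  refine ⟨⟨q.q, ?_⟩, fun q s hs => ?_⟩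
  · rw [extL_mem]
    exact hq
  · by_cases hq : q ∈ J
    · exact h2 ⟨q, hq⟩ s ((extL_mem D C J hJ c ⟨q, hq⟩).symm.trans hs)
    · rw [extL_notMem D C J hJ c q hq] at hs
      exact absurd hs.symm (Option.some_ne_none s)

theorem extL_fix (c : Tw (resC D C J hJ) (Set V)) (g : C) (h : g • c = c) :
    g.1 • extL D C J hJ c = extL D C J hJ c := by
  refine ((tw_eq_iff g.1 _ _).2 fun q => ?_).symm
  by_cases hq : q ∈ J
  · have h1 := (tw_eq_iff g c c).1 h.symm ⟨q, hq⟩
    have h2 := extL_mem D C J hJ c (g • (⟨q, hq⟩ : JQ C J hJ))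
    have h3 := extL_mem D C J hJ c ⟨q, hq⟩
    change extL D C J hJ c (g.1 • q) = c (g • (⟨q, hq⟩ : JQ C J hJ)) at h2
    change extL D C J hJ c q = c ⟨q, hq⟩ at h3
    rw [h2, h1, h3]
    rfl
  · rw [extL_notMem D C J hJ c q hq, extL_notMem D C J hJ c (g.1 • q) ?_]
    · rfl
    · intro h1
      have h2 := hJ g.1⁻¹ (C.inv_mem g.2) _ h1
      rw [inv_smul_smul] at h2
      exact hq h2

end Res

/-- The induction on the number of factors. -/
theorem tqc_of_qc (hQ : S_QC) : S_TQC := by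
  have key : ∀ n : ℕ, ∀ (Γ G Q V : Type) [Group Γ] [Group G] [MulAction Γ Q] [MulAction G V]
      [Finite Q] [Nonempty Q] (T : Tr G V) (D : Coc Γ G Q), Nat.card Q = n →
      (∀ (C : Subgroup Γ) (c : Tw D (Set V)), IsLab T c → (∀ g ∈ C, g • c = c) → KS C) →
      KS Γ := by
    intro n
    induction n using Nat.strong_induction_on with
    | _ n ih =>
      intro Γ G Q V _ _ _ _ _ _ T D hn h
      have hss : Hier.SS Γ := ss_of_tr T D fun C c hc hf => (h C c hc hf).2
      refine ⟨hQ Γ G Q V T D (fun C c h1 h2 h3 => h C c ⟨h1, h2⟩ h3)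
        (fun C J hJ hJ' hinv => ?_) hss, hss⟩
      have hinj : Function.Injective fun q : JQ C J hinv => q.q := fun a b hab => JQ.ext hab
      have hfin : Finite (JQ C J hinv) := Finite.of_injective _ hinj
      have hne' : Nonempty (JQ C J hinv) := ⟨⟨hJ.some, hJ.some_mem⟩⟩
      refine ih (Nat.card (JQ C J hinv)) ?_ C G _ V T (resC D C J hinv) rfl
        fun C' c hc hf => ?_
      · obtain ⟨x, hx⟩ := (Set.ne_univ_iff_exists_notMem J).1 hJ'
        rw [← hn]
        cases nonempty_fintype Q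
        cases nonempty_fintype (JQ C J hinv)
        rw [Nat.card_eq_fintype_card, Nat.card_eq_fintype_card]
        exact Fintype.card_lt_of_injective_of_notMem _ hinj (b := x)
          (by rintro ⟨q, rfl⟩; exact hx q.mem)
      · refine ks_tcl.iso _ _ (C'.equivMapOfInjective _ C.subtype_injective).symm
          (h _ (extL D C J hinv c) (extL_lab T D C J hinv c hc) ?_)
        rintro _ ⟨g, hg, rfl⟩
        exact extL_fix D C J hinv c g (hf g hg)
  exact fun Γ G Q V _ _ _ _ _ _ T D h => key _ Γ G Q V T D rfl h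

end Pool.Agent.QT
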