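import Pool.Agent.Lib.MP_8f66f0_al_TQ.P0
import Pool.Agent.Lib.MP_8f66f0_al_TQ.QInd
import Pool.Agent.Lib.MP_8f66f0_al_TQ.Co
import Pool.Agent.Lib.MP_8f66f0_al_TQ.CutTD

/-! Theorem Q: the class `P0` is closed under actions on trees. -/

set_option autoImplicit false

namespace Pool.Agent.TQ

open scoped Pointwise
open Pool.Agent.TreeC Pool.Agent.Hier Pool.Agent.WaldL Pool.Agent.FH Pool.Agent.QT

section

variable {G V E : Type} [Group G] [MulAction G V] [MulAction G E] [MulAction G Unit]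
  (D : TreeData G V E Unit)

theorem dep_root1 : D.dep (D.root ()) = 0 := by
  have key : ∀ n (v : V), D.dep v = n → ∃ w, D.dep w = 0 := by
    intro n
    induction n with
    | zero => exact fun v hv => ⟨v, hv⟩
    | succ n ih =>
      intro v hv
      have h2 := D.dep_par v (by omega)
      exact ih (D.par v) (by omega)
  obtain ⟨w, h3⟩ := key _ (D.root ()) rfl
  rw [D.dep_zero w h3] at h3
  exact h3

theorem dep_ne {v : V} (h : v ≠ D.root ()) : D.dep v ≠ 0 := fun h1 => h (D.dep_zero v h1)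

/-- The tree. -/
def trOf : Tr G V where
  root := D.root ()
  par v := if D.dep v ≠ 0 then D.par v else v
  dep := D.dep
  par_root := by rw [if_neg (not_not.2 (dep_root1 D))]
  dep_root := dep_root1 D
  dep_par v h := by
    rw [if_pos (dep_ne D h)]
    exact (D.dep_par v (dep_ne D h)).symm
  adj g v h := by
    obtain ⟨e, rfl⟩ := D.ch_surj v (dep_ne D h)
    have h0 : ∀ e, D.ch e ≠ D.root () := fun e h1 => D.dep_ch e (by rw [h1, dep_root1])
    rw [if_pos (D.dep_ch e)]
    have h1 := D.tail_smul g e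
    have h2 := D.head_smul g e
    have h3 := D.dep_ch (g • e)
    rcases D.ends e with ⟨h4, h5⟩ | ⟨h4, h5⟩ <;> rcases D.ends (g • e) with ⟨h6, h7⟩ | ⟨h6, h7⟩
    · left
      rw [← h5, ← h4, ← h1, h6, if_pos h3, ← h7, h2]
      exact ⟨h0 _, rfl⟩
    · right
      rw [← h5, ← h2, h6, if_pos h3, ← h7, h1, h4]
      exact ⟨h0 _, rfl⟩
    · right
      rw [← h5, ← h1, h6, if_pos h3, ← h7, h2, h4]
      exact ⟨h0 _, rfl⟩
    · left
      rw [← h5, ← h4, ← h2, h6, if_pos h3, ← h7, h1]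
      exact ⟨h0 _, rfl⟩

theorem trOf_par (e : E) : (trOf D).par (D.ch e) = D.par (D.ch e) := if_pos (D.dep_ch e)

theorem ends_set (e : E) :
    ({D.tail e, D.head e} : Set V) = {D.ch e, (trOf D).par (D.ch e)} := by
  rw [trOf_par]
  rcases D.ends e with ⟨h1, h2⟩ | ⟨h1, h2⟩
  · rw [h1, h2]
  · rw [h1, h2, Set.pair_comm]

/-- The elements which fix a label fix a cell. -/
theorem lab_fix (s : Set V)
    (hs : (∃ v, s = {v}) ∨ ∃ v, v ≠ (trOf D).root ∧ s = {v, (trOf D).par v}) :
    ∃ x : V ⊕ E, ∀ a : G, a • s = s → a • x = x := by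
  rcases hs with ⟨v, rfl⟩ | ⟨v, hv, rfl⟩
  · refine ⟨Sum.inl v, fun a ha => ?_⟩
    rw [Set.smul_set_singleton] at ha
    exact congrArg Sum.inl (Set.singleton_injective ha)
  · obtain ⟨e, rfl⟩ := D.ch_surj v (dep_ne D hv)
    refine ⟨Sum.inr e, fun a ha => ?_⟩
    have h0 : ∀ e, D.ch e ≠ (trOf D).root := fun e h1 => D.dep_ch e (by
      rw [h1]
      exact dep_root1 D)
    have h1 : ({D.ch (a • e), (trOf D).par (D.ch (a • e))} : Set V) =
        {D.ch e, (trOf D).par (D.ch e)} := by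
      rw [← ha, ← ends_set, ← ends_set, Set.smul_set_insert, Set.smul_set_singleton,
        D.tail_smul, D.head_smul]
    have h2 : (⟨D.ch (a • e), h0 _⟩ : {x : V // x ≠ (trOf D).root}) = ⟨D.ch e, h0 e⟩ :=
      e_eq_of_sub (T := trOf D) h1.subset
    exact congrArg Sum.inr (D.ch_inj (congrArg Subtype.val h2))

end

/-- The cocycle of a subgroup. -/
noncomputable def cocOf {Λ G : Type} [Group Λ] [Group G] (H : Subgroup Λ) (f : H →* G) :
    Coc Λ G (Λ ⧸ H) where
  c g q := f (cc H g q)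
  c_one q := by rw [cc_one, map_one]
  c_mul g h q := by rw [cc_mul, map_mul]

/-- A subgroup which fixes a label has a subgroup of finite index which embeds in the stabilizer of a
label of the original tree. -/
theorem lab_emb {Λ G V : Type} [Group Λ] [Group G] [MulAction G V] (H : Subgroup Λ)
    (hH : H.FiniteIndex) (f : H →* G) (hf : Function.Injective f) (C : Subgroup Λ)
    (c : Tw (cocOf H f) (Set V)) (hC : ∀ g ∈ C, g • c = c) (j : Λ ⧸ H) (s : Set V)
    (hj : c j = some s) :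
    ∃ (C' : Subgroup C) (φ : C' →* G), C'.FiniteIndex ∧ Function.Injective φ ∧
      ∀ x, φ x • s = s := by
  let S := MulAction.stabilizer Λ j
  have hS : S.FiniteIndex := by
    refine ⟨?_⟩
    rw [MulAction.index_stabilizer]
    have : Finite (Λ ⧸ H) := inferInstance
    exact (Set.ncard_pos (Set.toFinite _)).2 ⟨j, MulAction.mem_orbit_self j⟩ |>.ne'
  let i : S.subgroupOf C →* S := (C.subtype.comp (S.subgroupOf C).subtype).codRestrict S
    fun x => x.2
  have hi : Function.Injective i := fun x y hxy =>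
    Subtype.ext (Subtype.ext (congrArg (fun z : S => (z : Λ)) hxy))
  refine ⟨S.subgroupOf C, f.comp ((stHom H j).comp i), inferInstance,
    hf.comp ((stHom_inj H j).comp hi), fun x => ?_⟩
  have h3 : x.1.1 • j = j := x.2
  have h4 := (tw_eq_iff x.1.1 c c).1 (hC x.1.1 x.1.2).symm j
  rw [h3, hj] at h4
  exact (Option.some_injective _ h4).symm

theorem p0_tree (hTQ : S_TQC) (G V : Type) [Group G] [MulAction G V] [Nonempty V]
    (𝓗 : Set (Set V)) (hH : CutSys G V 𝓗) (hV : ∀ x : V, P0 (stV G hH x))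
    (hE : ∀ h ∈ 𝓗, P0 (stE G h)) : P0 G := by
  intro Λ _ hΛ H hHf f hf
  let D0 : TreeData G (TV hH) (CE hH) Unit := cutTD hH (Classical.arbitrary V)
  have hfin : Finite (Λ ⧸ H) := inferInstance
  refine hTQ Λ G (Λ ⧸ H) _ (trOf D0) (cocOf H f) fun C c hc hfix => ?_
  obtain ⟨⟨j, hj⟩, hlab⟩ := hc
  obtain ⟨s, hs⟩ := Option.ne_none_iff_exists'.1 hj
  obtain ⟨x, hx⟩ := lab_fix D0 s (hlab j s hs)
  obtain ⟨C', φ, h1, h2, h3⟩ := lab_emb H hHf f hf C c hfix j s hs
  have h4 : ∀ y, φ y • x = x := fun y => hx _ (h3 y)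
  rcases cut_fix hH x with ⟨v, hv⟩ | ⟨h, hh, hv⟩
  · exact hV v C (hΛ.sub C) C' h1 (φ.codRestrict _ fun y => hv _ (h4 y)) fun a b hab =>
      h2 (congrArg (fun z : stV G hH v => (z : G)) hab)
  · exact hE h hh C (hΛ.sub C) C' h1 (φ.codRestrict _ fun y => hv _ (h4 y)) fun a b hab =>
      h2 (congrArg (fun z : stE G h => (z : G)) hab)

theorem p0_tclv (hTQ : S_TQC) : TClv P0 where
  triv := fun G _ _ => p0_triv G
  iso := fun _ _ _ _ e h => p0_emb e.symm.toMonoidHom e.symm.injective h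
  sub := fun _ _ H h => p0_emb H.subtype H.subtype_injective h
  directed := fun _ _ S hne hd hS h => p0_directed S hne hd hS h
  tree := fun G V _ _ _ 𝓗 hH h => by
    refine p0_tree hTQ G V 𝓗 hH h fun k hk => ?_
    obtain ⟨x, y, hxy⟩ := hH.exists_adj hk
    have h1 : stE G k ≤ stV G hH x := fun g hg => ((mem_stE_iff hH hk hxy g).1 hg).1
    exact p0_emb (Subgroup.inclusion h1) (Subgroup.inclusion_injective h1) (h x)

end Pool.Agent.TQ
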