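import Pool.Agent.Lib.MP_8f66f0_al_TQ.TD
import Pool.Agent.Lib.MP_8f66f0_al_Tree.SpecD

/-! Theorem TQ: the statements. -/

set_option autoImplicit false

namespace Pool.Agent.TQ

open Pool.Agent.TreeC Pool.Agent.Hier Pool.Agent.WaldL

/-- Theorem Q. `Γ` acts on a finite product of trees, possibly with a permutation of the factors. All
subgroups which fix a partial cell and all subgroups which leave a nonempty proper subset of the
factors invariant are in `KS`, and `Γ` is in `SS`. Then `Γ` is in `KK`. -/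
def S_Q : Prop :=
  ∀ (Γ V E Q : Type) [Group Γ] [MulAction Γ V] [MulAction Γ E] [MulAction Γ Q] [Finite Q]
    [Nonempty Q] (D : TreeData Γ V E Q),
    (∀ (C : Subgroup Γ) (J : Set Q) (c : Q → V ⊕ E), J.Nonempty → D.Fixes C J c → KS C) →
    (∀ (C : Subgroup Γ) (J : Set Q), J.Nonempty → J ≠ Set.univ →
      (∀ g ∈ C, ∀ j ∈ J, g • j ∈ J) → KS C) →
    SS Γ → KK Γ

/-- Theorem TQ. `Γ` acts on a finite product of trees, possibly with a permutation of the factors.
All subgroups which fix a partial cell are in `KS`. Then `Γ` is in `KS`. -/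
def S_TQ : Prop :=
  ∀ (Γ V E Q : Type) [Group Γ] [MulAction Γ V] [MulAction Γ E] [MulAction Γ Q] [Finite Q]
    [Nonempty Q] (D : TreeData Γ V E Q),
    (∀ (C : Subgroup Γ) (J : Set Q) (c : Q → V ⊕ E), J.Nonempty → D.Fixes C J c → KS C) → KS Γ

end Pool.Agent.TQ
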