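import Pool.Agent.Lib.MP_8f66f0_al_TQ.TDF
import Pool.Agent.Lib.MP_8f66f0_al_TQ.SpecQ
import Pool.Agent.Lib.MP_8f66f0_al_Tree.AllK

/-! Theorem TQ: restriction of a forest to an invariant set of components; the induction on the number
of the components. -/

set_option autoImplicit false

namespace Pool.Agent.TQ

open Pool.Agent.TreeC Pool.Agent.Hier Pool.Agent.WaldL

section

variable {Γ V E Q : Type} [Group Γ] [MulAction Γ V] [MulAction Γ E] [MulAction Γ Q]
  (D : TreeData Γ V E Q) (C : Subgroup Γ) (J : Set Q) (hJ : ∀ g ∈ C, ∀ j ∈ J, g • j ∈ J)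

/-- The components. -/
@[ext] structure RQ {Γ Q : Type} [Group Γ] [MulAction Γ Q] (C : Subgroup Γ) (J : Set Q)
    (_hJ : ∀ g ∈ C, ∀ j ∈ J, g • j ∈ J) : Type where
  /-- the component -/
  q : Q
  mem : q ∈ J

/-- The vertices. -/
@[ext] structure RV (D : TreeData Γ V E Q) (C : Subgroup Γ) (J : Set Q)
    (_hJ : ∀ g ∈ C, ∀ j ∈ J, g • j ∈ J) : Type where
  /-- the vertex -/
  v : V
  mem : D.home v ∈ J

/-- The edges. -/
@[ext] structure RE (D : TreeData Γ V E Q) (C : Subgroup Γ) (J : Set Q)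
    (_hJ : ∀ g ∈ C, ∀ j ∈ J, g • j ∈ J) : Type where
  /-- the edge -/
  e : E
  mem : D.home (D.tail e) ∈ J

instance : MulAction C (RQ C J hJ) where
  smul g q := ⟨g.1 • q.q, hJ g.1 g.2 q.q q.mem⟩
  one_smul q := RQ.ext (one_smul Γ q.q)
  mul_smul g h q := RQ.ext (mul_smul g.1 h.1 q.q)

instance : MulAction C (RV D C J hJ) where
  smul g v := ⟨g.1 • v.v, by rw [D.home_smul]; exact hJ g.1 g.2 _ v.mem⟩
  one_smul v := RV.ext (one_smul Γ v.v)
  mul_smul g h v := RV.ext (mul_smul g.1 h.1 v.v)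

instance : MulAction C (RE D C J hJ) where
  smul g e := ⟨g.1 • e.e, by rw [D.tail_smul, D.home_smul]; exact hJ g.1 g.2 _ e.mem⟩
  one_smul e := RE.ext (one_smul Γ e.e)
  mul_smul g h e := RE.ext (mul_smul g.1 h.1 e.e)

theorem dep_root (q : Q) : D.dep (D.root q) = 0 := by
  by_contra h
  have h1 := D.dep_zero
  have key : ∀ n (v : V), D.dep v = n → ∃ w, D.dep w = 0 ∧ D.home w = D.home v := by
    intro n
    induction n with
    | zero => exact fun v hv => ⟨v, hv, rfl⟩
    | succ n ih =>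
      intro v hv
      have h2 := D.dep_par v (by omega)
      obtain ⟨w, h3, h4⟩ := ih (D.par v) (by omega)
      exact ⟨w, h3, h4.trans (D.home_par v (by omega))⟩
  obtain ⟨w, h3, h4⟩ := key _ (D.root q) rfl
  have h5 := h1 w h3
  rw [h4, D.home_root] at h5
  rw [← h5] at h
  exact h h3

open Classical in
/-- The parent. -/
noncomputable def rpar (v : RV D C J hJ) : RV D C J hJ :=
  if h : D.dep v.v ≠ 0 then ⟨D.par v.v, by rw [D.home_par _ h]; exact v.mem⟩ else v

theorem rpar_v (v : RV D C J hJ) (h : D.dep v.v ≠ 0) : (rpar D C J hJ v).v = D.par v.v := by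
  unfold rpar
  rw [dif_pos h]

/-- The restriction. -/
noncomputable def resTD : TreeData C (RV D C J hJ) (RE D C J hJ) (RQ C J hJ) where
  tail e := ⟨D.tail e.e, e.mem⟩
  head e := ⟨D.head e.e, by rw [← D.home_edge]; exact e.mem⟩
  home v := ⟨D.home v.v, v.mem⟩
  root q := ⟨D.root q.q, by rw [D.home_root]; exact q.mem⟩
  dep v := D.dep v.v
  par := rpar D C J hJ
  ch e := ⟨D.ch e.e, by rw [← D.home_tail]; exact e.mem⟩
  tail_smul g e := RV.ext (D.tail_smul g.1 e.e)
  head_smul g e := RV.ext (D.head_smul g.1 e.e)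
  home_smul g v := RQ.ext (D.home_smul g.1 v.v)
  home_edge e := RQ.ext (D.home_edge e.e)
  home_root q := RQ.ext (D.home_root q.q)
  dep_zero v h := RV.ext (D.dep_zero v.v h)
  dep_par v h := by
    rw [rpar_v D C J hJ v h]
    exact D.dep_par v.v h
  dep_ch e := D.dep_ch e.e
  ch_inj e e' h := RE.ext (D.ch_inj (congrArg (fun v : RV D C J hJ => v.v) h))
  ch_surj v h := by
    obtain ⟨e, he⟩ := D.ch_surj v.v h
    refine ⟨⟨e, ?_⟩, RV.ext he⟩
    rw [D.home_tail, he]
    exact v.mem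
  ends e := by
    have h0 := rpar_v D C J hJ ⟨D.ch e.e, by rw [← D.home_tail]; exact e.mem⟩ (D.dep_ch e.e)
    rcases D.ends e.e with ⟨h1, h2⟩ | ⟨h1, h2⟩
    · exact Or.inl ⟨RV.ext h1, RV.ext (h2.trans h0.symm)⟩
    · exact Or.inr ⟨RV.ext h1, RV.ext (h2.trans h0.symm)⟩

/-- Partial cells of the restriction are partial cells. -/
theorem res_fixes (C' : Subgroup C) (J' : Set (RQ C J hJ))
    (c : RQ C J hJ → RV D C J hJ ⊕ RE D C J hJ) (hJ' : J'.Nonempty)
    (h : (resTD D C J hJ).Fixes C' J' c) :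
    ∃ (J'' : Set Q) (c'' : Q → V ⊕ E), J''.Nonempty ∧ D.Fixes (C'.map C.subtype) J'' c'' := by
  classical
  obtain ⟨h1, h2⟩ := h
  let F : RV D C J hJ ⊕ RE D C J hJ → V ⊕ E := Sum.map (fun v => v.v) fun e => e.e
  let c'' : Q → V ⊕ E := fun q => if hq : q ∈ J then F (c ⟨q, hq⟩) else Sum.inl (D.root q)
  have hc'' : ∀ q : RQ C J hJ, c'' q.q = F (c q) := fun q => dif_pos q.mem
  have hF : ∀ x, D.homeC (F x) = ((resTD D C J hJ).homeC x).q := by
    rintro (x | x)
    · rfl
    · rfl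
  have hF' : ∀ (g : C) x, F (g • x) = g.1 • F x := by
    rintro g (x | x)
    · rfl
    · rfl
  refine ⟨(fun q : RQ C J hJ => q.q) '' J', c'', hJ'.image _, ?_, ?_⟩
  · rintro _ ⟨q, hq, rfl⟩
    change D.homeC (c'' q.q) = q.q
    rw [hc'', hF, h1 q hq]
  · rintro _ ⟨g, hg, rfl⟩ _ ⟨q, hq, rfl⟩
    obtain ⟨h3, h4⟩ := h2 g hg q hq
    refine ⟨⟨g • q, h3, rfl⟩, ?_⟩
    change c'' (g • q).q = g.1 • c'' q.q
    rw [hc'', hc'', h4, hF']

end

/-- The induction on the number of factors. -/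
theorem stq_of_sq (hQ : S_Q) : S_TQ := by
  have key : ∀ n : ℕ, ∀ (Γ V E Q : Type) [Group Γ] [MulAction Γ V] [MulAction Γ E]
      [MulAction Γ Q] [Finite Q] [Nonempty Q] (D : TreeData Γ V E Q), Nat.card Q = n →
      (∀ (C : Subgroup Γ) (J : Set Q) (c : Q → V ⊕ E), J.Nonempty → D.Fixes C J c → KS C) →
      KS Γ := by
    intro n
    induction n using Nat.strong_induction_on with
    | _ n ih =>
      intro Γ V E Q _ _ _ _ _ hne D hn h
      have hss : SS Γ := D.ss fun C c hc => (h C Set.univ c Set.univ_nonempty hc).2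
      refine ⟨hQ Γ V E Q D h (fun C J hJ hJ' hinv => ?_) hss, hss⟩
      have hinj : Function.Injective fun q : RQ C J hinv => q.q := fun a b hab => RQ.ext hab
      have hfin : Finite (RQ C J hinv) := Finite.of_injective _ hinj
      have hne' : Nonempty (RQ C J hinv) := ⟨⟨hJ.some, hJ.some_mem⟩⟩
      refine ih (Nat.card (RQ C J hinv)) ?_ C _ _ _ (resTD D C J hinv) rfl
        fun C' J' c hJ'' hc => ?_
      · obtain ⟨x, hx⟩ := (Set.ne_univ_iff_exists_notMem J).1 hJ'
        rw [← hn]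
        cases nonempty_fintype Q
        cases nonempty_fintype (RQ C J hinv)
        rw [Nat.card_eq_fintype_card, Nat.card_eq_fintype_card]
        exact Fintype.card_lt_of_injective_of_notMem _ hinj (b := x)
          (by rintro ⟨q, rfl⟩; exact hx q.mem)
      · obtain ⟨J3, c3, h3, h4⟩ := res_fixes D C J hinv C' J' c hJ'' hc
        exact ks_tcl.iso _ _ (C'.equivMapOfInjective _ C.subtype_injective).symm
          (h _ J3 c3 h3 h4)
  exact fun Γ V E Q _ _ _ _ _ _ D h => key _ Γ V E Q D rfl h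

end Pool.Agent.TQ
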