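import Mathlib

/-! Theorem TQ: forests

An action of `Γ` on a forest whose components are indexed by the `Γ`-set `Q`: every component is a
tree. The orientation of the edges is preserved. The trees are described by a root in each component
and the depth of the vertices; the roots are not preserved by `Γ`.
-/

set_option autoImplicit false

namespace Pool.Agent.TQ

/-- An action of `Γ` on a forest with vertices `V` and edges `E`, whose components are indexed by `Q`. -/
structure TreeData (Γ V E Q : Type) [Group Γ] [MulAction Γ V] [MulAction Γ E] [MulAction Γ Q] where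
  /-- the tail of an edge -/
  tail : E → V
  /-- the head of an edge -/
  head : E → V
  /-- the component of a vertex -/
  home : V → Q
  /-- the root of a component -/
  root : Q → V
  /-- the distance from the root -/
  dep : V → ℕ
  /-- the neighbour of a vertex on the path to the root -/
  par : V → V
  /-- the end of an edge which is further away from the root -/
  ch : E → V
  tail_smul : ∀ (g : Γ) (e : E), tail (g • e) = g • tail e
  head_smul : ∀ (g : Γ) (e : E), head (g • e) = g • head e
  home_smul : ∀ (g : Γ) (v : V), home (g • v) = g • home v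
  home_edge : ∀ e : E, home (tail e) = home (head e)
  home_root : ∀ q : Q, home (root q) = q
  dep_zero : ∀ v : V, dep v = 0 → v = root (home v)
  dep_par : ∀ v : V, dep v ≠ 0 → dep (par v) + 1 = dep v
  dep_ch : ∀ e : E, dep (ch e) ≠ 0
  ch_inj : Function.Injective ch
  ch_surj : ∀ v : V, dep v ≠ 0 → ∃ e, ch e = v
  ends : ∀ e : E, (tail e = ch e ∧ head e = par (ch e)) ∨ (head e = ch e ∧ tail e = par (ch e))

variable {Γ V E Q : Type} [Group Γ] [MulAction Γ V] [MulAction Γ E] [MulAction Γ Q]

namespace TreeData

/-- The component of a cell. -/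
def homeC (D : TreeData Γ V E Q) : V ⊕ E → Q
  | Sum.inl v => D.home v
  | Sum.inr e => D.home (D.tail e)

/-- The subgroup `C` fixes the partial cell `(J, c)`. -/
def Fixes (D : TreeData Γ V E Q) (C : Subgroup Γ) (J : Set Q) (c : Q → V ⊕ E) : Prop :=
  (∀ j ∈ J, D.homeC (c j) = j) ∧ ∀ g ∈ C, ∀ j ∈ J, g • j ∈ J ∧ c (g • j) = g • c j

theorem home_tail (D : TreeData Γ V E Q) (e : E) : D.home (D.tail e) = D.home (D.ch e) := by
  rcases D.ends e with ⟨h1, _⟩ | ⟨h1, _⟩
  · rw [h1]
  · rw [D.home_edge, h1]

theorem home_par (D : TreeData Γ V E Q) (v : V) (h : D.dep v ≠ 0) :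
    D.home (D.par v) = D.home v := by
  obtain ⟨e, rfl⟩ := D.ch_surj v h
  rcases D.ends e with ⟨h1, h2⟩ | ⟨h1, h2⟩
  · rw [← h2, ← D.home_edge, h1]
  · rw [← h2, D.home_edge, h1]

theorem homeC_smul (D : TreeData Γ V E Q) (g : Γ) (c : V ⊕ E) :
    D.homeC (g • c) = g • D.homeC c := by
  rcases c with v | e
  · exact D.home_smul g v
  · change D.home (D.tail (g • e)) = g • D.home (D.tail e)
    rw [D.tail_smul, D.home_smul]

end TreeData

end Pool.Agent.TQ
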