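import Pool.Agent.Lib.MP_8f66f0_al_TQ.TD
import Pool.Agent.Lib.MP_8f66f0_al_Kuhn.Fst

/-! Theorem TQ: the class `SS` and products of trees

The cells of a forest form a partial order (a vertex is smaller than the edges which contain it).
A group which acts on a finite product of trees, possibly with a permutation of the factors, is in
`SS` if all subgroups which fix a cell are in `SS`.
-/

set_option autoImplicit false

namespace Pool.Agent.TQ

open Pool.Agent.Kuhn.Ord

variable {Γ V E Q : Type} [Group Γ] [MulAction Γ V] [MulAction Γ E] [MulAction Γ Q]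

namespace TreeData

/-- The cells. -/
inductive Cell (D : TreeData Γ V E Q) : Type
  | v : V → Cell D
  | e : E → Cell D

/-- The order of the cells. -/
def cle (D : TreeData Γ V E Q) : D.Cell → D.Cell → Prop
  | .v x, .v y => x = y
  | .v x, .e b => x = D.tail b ∨ x = D.head b
  | .e _, .v _ => False
  | .e a, .e b => a = b

instance (D : TreeData Γ V E Q) : PartialOrder D.Cell where
  le := D.cle
  le_refl x := by
    cases x
    · exact rfl
    · exact rfl
  le_trans x y z h1 h2 := by
    rcases x with x | x <;> rcases y with y | y <;> rcases z with z | z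
    · exact Eq.trans h1 h2
    · change x = y at h1
      rw [h1]
      exact h2
    · exact h2.elim
    · change y = z at h2
      rw [← h2]
      exact h1
    · exact h1.elim
    · exact h1.elim
    · exact h2.elim
    · exact Eq.trans h1 h2
  le_antisymm x y h1 h2 := by
    rcases x with x | x <;> rcases y with y | y
    · exact congrArg _ h1
    · exact h2.elim
    · exact h1.elim
    · exact congrArg _ h1

theorem v_le_e {D : TreeData Γ V E Q} {x : V} {b : E} :
    (Cell.v x : D.Cell) ≤ Cell.e b ↔ x = D.tail b ∨ x = D.head b := Iff.rfl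

theorem v_le_v {D : TreeData Γ V E Q} {x y : V} :
    (Cell.v x : D.Cell) ≤ Cell.v y ↔ x = y := Iff.rfl

theorem e_le_e {D : TreeData Γ V E Q} {x y : E} :
    (Cell.e x : D.Cell) ≤ Cell.e y ↔ x = y := Iff.rfl

theorem not_e_le_v {D : TreeData Γ V E Q} {x : E} {y : V} :
    ¬ (Cell.e x : D.Cell) ≤ Cell.v y := fun h => h

/-- The ends of an edge. -/
theorem v_le_e' {D : TreeData Γ V E Q} {x : V} {b : E} :
    (Cell.v x : D.Cell) ≤ Cell.e b ↔ x = D.ch b ∨ x = D.par (D.ch b) := by
  rw [v_le_e]
  rcases D.ends b with ⟨h1, h2⟩ | ⟨h1, h2⟩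
  · rw [h1, h2]
  · rw [h1, h2]
    exact or_comm

instance (D : TreeData Γ V E Q) : MulAction Γ D.Cell where
  smul g x := match x with
    | .v x => .v (g • x)
    | .e b => .e (g • b)
  one_smul x := by
    cases x with
    | v x => exact congrArg Cell.v (one_smul Γ x)
    | e x => exact congrArg Cell.e (one_smul Γ x)
  mul_smul g h x := by
    cases x with
    | v x => exact congrArg Cell.v (mul_smul g h x)
    | e x => exact congrArg Cell.e (mul_smul g h x)

theorem smul_v {D : TreeData Γ V E Q} (g : Γ) (x : V) :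
    g • (Cell.v x : D.Cell) = Cell.v (g • x) := rfl

theorem smul_e {D : TreeData Γ V E Q} (g : Γ) (x : E) :
    g • (Cell.e x : D.Cell) = Cell.e (g • x) := rfl

/-- The component of a cell. -/
def cpi (D : TreeData Γ V E Q) : D.Cell → Q
  | .v x => D.home x
  | .e b => D.home (D.ch b)

/-- The depth of a cell. -/
def cdep (D : TreeData Γ V E Q) : D.Cell → ℕ
  | .v x => 2 * D.dep x
  | .e b => 2 * D.dep (D.ch b) - 1

open Classical in
/-- The parent of a cell. -/
noncomputable def cpar (D : TreeData Γ V E Q) : D.Cell → D.Cell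
  | .v x => if h : D.dep x ≠ 0 then .e (D.ch_surj x h).choose else .v x
  | .e b => .v (D.par (D.ch b))

theorem cpar_v {D : TreeData Γ V E Q} {x : V} (h : D.dep x ≠ 0) :
    ∃ b, D.cpar (.v x) = .e b ∧ D.ch b = x := by
  refine ⟨(D.ch_surj x h).choose, ?_, (D.ch_surj x h).choose_spec⟩
  rw [cpar, dif_pos h]

theorem cpar_v' {D : TreeData Γ V E Q} {x : V} (h : D.dep x = 0) :
    D.cpar (.v x) = .v x := by
  rw [cpar, dif_neg (by rw [h]; exact fun h1 => h1 rfl)]

theorem cpar_ch {D : TreeData Γ V E Q} (b : E) : D.cpar (.v (D.ch b)) = .e b := by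
  obtain ⟨c, h1, h2⟩ := cpar_v (D.dep_ch b)
  rw [h1, D.ch_inj h2]

/-- The forest as a partial order. -/
noncomputable def forest (D : TreeData Γ V E Q) : Forest D.Cell Q where
  π := D.cpi
  D := D.cdep
  P := D.cpar
  root q := .v (D.root q)
  π_P x := by
    rcases x with x | b
    · by_cases h : D.dep x = 0
      · rw [cpar_v' h]
      · obtain ⟨b, h1, h2⟩ := cpar_v h
        rw [h1]
        change D.home (D.ch b) = D.home x
        rw [h2]
    · exact D.home_par _ (D.dep_ch b)
  π_root q := D.home_root q
  D_P x h := by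
    rcases x with x | b
    · change 2 * D.dep x ≠ 0 at h
      obtain ⟨b, h1, h2⟩ := cpar_v (D := D) (x := x) (by omega)
      rw [h1]
      change 2 * D.dep (D.ch b) - 1 + 1 = 2 * D.dep x
      rw [h2]
      omega
    · have h1 := D.dep_par _ (D.dep_ch b)
      change 2 * D.dep (D.par (D.ch b)) + 1 = 2 * D.dep (D.ch b) - 1
      omega
  D_zero x h := by
    rcases x with x | b
    · change 2 * D.dep x = 0 at h
      exact congrArg Cell.v (D.dep_zero x (by omega))
    · have h1 := D.dep_ch b
      change 2 * D.dep (D.ch b) - 1 = 0 at h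
      omega
  lt x y h := by
    rcases x with x | a <;> rcases y with y | b
    · exact absurd (congrArg Cell.v (v_le_v.1 h.le)) h.ne
    · rcases v_le_e'.1 h.le with h1 | h1
      · refine Or.inl ⟨?_, ?_⟩
        · have h2 := D.dep_ch b
          change 2 * D.dep x ≠ 0
          rw [h1]
          omega
        · rw [h1, cpar_ch]
      · refine Or.inr ⟨?_, ?_⟩
        · have h2 := D.dep_ch b
          change 2 * D.dep (D.ch b) - 1 ≠ 0
          omega
        · rw [h1]
          rfl
    · exact absurd h.le not_e_le_v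
    · exact absurd (congrArg Cell.e (e_le_e.1 h.le)) h.ne
  even x h he := by
    rcases x with x | b
    · change 2 * D.dep x ≠ 0 at h
      obtain ⟨b, h1, h2⟩ := cpar_v (D := D) (x := x) (by omega)
      rw [h1, v_le_e']
      exact Or.inl h2.symm
    · exfalso
      change Even (2 * D.dep (D.ch b) - 1) at he
      have h2 := D.dep_ch b
      rw [Nat.even_iff] at he
      omega
  odd x h := by
    rcases x with x | b
    · exfalso
      change Odd (2 * D.dep x) at h
      rw [Nat.odd_iff] at h
      omega
    · change (Cell.v (D.par (D.ch b)) : D.Cell) ≤ Cell.e b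
      rw [v_le_e']
      exact Or.inr rfl

theorem cmono (D : TreeData Γ V E Q) (g : Γ) (x y : D.Cell) (h : x ≤ y) : g • x ≤ g • y := by
  rcases x with x | a <;> rcases y with y | b
  · exact congrArg (g • ·) (v_le_v.1 h)
  · rw [smul_v, smul_e, v_le_e, D.tail_smul, D.head_smul]
    rcases v_le_e.1 h with h1 | h1
    · exact Or.inl (by rw [h1])
    · exact Or.inr (by rw [h1])
  · exact absurd h not_e_le_v
  · exact congrArg (g • ·) (e_le_e.1 h)

theorem cpi_smul (D : TreeData Γ V E Q) (g : Γ) (x : D.Cell) : D.cpi (g • x) = g • D.cpi x := by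
  rcases x with x | b
  · exact D.home_smul g x
  · change D.home (D.ch (g • b)) = g • D.home (D.ch b)
    rw [← D.home_tail, ← D.home_tail, D.tail_smul, D.home_smul]

/-- Cells as elements of the disjoint union. -/
def toSum (D : TreeData Γ V E Q) : D.Cell → V ⊕ E
  | .v x => .inl x
  | .e b => .inr b

theorem toSum_smul (D : TreeData Γ V E Q) (g : Γ) (x : D.Cell) :
    D.toSum (g • x) = g • D.toSum x := by
  cases x
  · rfl
  · rfl

theorem homeC_toSum (D : TreeData Γ V E Q) (x : D.Cell) : D.homeC (D.toSum x) = D.cpi x := by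
  rcases x with x | b
  · rfl
  · exact D.home_tail b

theorem fixes_of (D : TreeData Γ V E Q) {C : Subgroup Γ} {c : Q → D.Cell}
    (h1 : ∀ q, D.cpi (c q) = q) (h2 : ∀ g ∈ C, ∀ q, g • c q = c (g • q)) :
    D.Fixes C Set.univ fun q => D.toSum (c q) := by
  refine ⟨fun q _ => by rw [homeC_toSum, h1], fun g hg q _ => ⟨trivial, ?_⟩⟩
  change D.toSum (c (g • q)) = g • D.toSum (c q)
  rw [← h2 g hg, toSum_smul]

/-- A group which acts on a finite product of trees is in `NN` if all subgroups which fix a cell
are in `NN`. -/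
theorem nn (D : TreeData Γ V E Q) [Finite Q]
    (h : ∀ (C : Subgroup Γ) (c : Q → V ⊕ E), D.Fixes C Set.univ c → WhVan.NN C) : WhVan.NN Γ :=
  D.forest.nn_of_forest D.cmono D.cpi_smul fun C ⟨_, h1, h2⟩ => h C _ (D.fixes_of h1 h2)

/-- A group which acts on a finite product of trees is in `SS` if all subgroups which fix a cell
are in `SS`. -/
theorem ss (D : TreeData Γ V E Q) [Finite Q]
    (h : ∀ (C : Subgroup Γ) (c : Q → V ⊕ E), D.Fixes C Set.univ c → Hier.SS C) : Hier.SS Γ :=
  D.forest.ss_of_forest D.cmono D.cpi_smul fun C ⟨_, h1, h2⟩ => h C _ (D.fixes_of h1 h2)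

end TreeData

end Pool.Agent.TQ
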