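import Mathlib
import Pool.Agent.Lib.MP_8f66f0_al_HierZ.FinalD

/-! The class of groups of the theorem on groups which are built from finite groups and groups of
`2 × 2` matrices by extensions and actions on trees. (`IsEuc` and `K1Units` are defined in
`HierZ/FinalD`.) -/

set_option autoImplicit false

namespace Pool.Agent.WhVan

/-- The least class of groups which contains

* all finite groups;
* all torsion free subgroups of `GL_2(R)`, for all commutative rings `R` of positive characteristic
  and all rings `R` which can be embedded in a purely transcendental extension of `ℚ` (the fraction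
  field of the polynomial ring in the variables `σ` over `ℤ`);

and is closed under isomorphism, subgroups, directed unions, extensions, and

* actions on trees with all vertex stabilizers in the class (inversions of edges are allowed, and
  there is no condition on the edge stabilizers);
* representations `ρ` of `Γ` in `GL_2(R)`, for arbitrary commutative rings `R`: if all subgroups
  `D` of `Γ` such that the traces and determinants of all elements of `ρ(D)` are integral over `ℤ`
  are in the class, then `Γ` is in the class. -/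
inductive XX : (Γ : Type) → [Group Γ] → Prop
  | fin {Γ : Type} [Group Γ] : Finite Γ → XX Γ
  | gl2 (R : Type) [CommRing R] (m : ℕ) (Γ : Subgroup (Matrix.GeneralLinearGroup (Fin 2) R)) :
      0 < m → (m : R) = 0 → (∀ g ∈ Γ, ∀ n : ℕ, 0 < n → g ^ n = 1 → g = 1) → XX Γ
  | gl2Q (σ R : Type) [CommRing R] (j : R →+* FractionRing (MvPolynomial σ ℤ))
      (Γ : Subgroup (Matrix.GeneralLinearGroup (Fin 2) R)) : Function.Injective j →
      (∀ g ∈ Γ, ∀ n : ℕ, 0 < n → g ^ n = 1 → g = 1) → XX Γ
  | iso {Γ Γ' : Type} [Group Γ] [Group Γ'] (e : Γ ≃* Γ') : XX Γ → XX Γ'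
  | sub {Γ : Type} [Group Γ] (H : Subgroup Γ) : XX Γ → XX H
  | directed {Γ : Type} [Group Γ] (S : Set (Subgroup Γ)) : S.Nonempty →
      DirectedOn (· ≤ ·) S → (∀ g : Γ, ∃ K ∈ S, g ∈ K) → (∀ K ∈ S, XX K) → XX Γ
  | ext {Γ Q : Type} [Group Γ] [Group Q] (f : Γ →* Q) : XX f.ker → XX Q → XX Γ
  | tree {Γ V : Type} [Group Γ] [MulAction Γ V] (T : SimpleGraph V) : T.IsTree →
      (∀ (g : Γ) (v w : V), T.Adj v w → T.Adj (g • v) (g • w)) →
      (∀ v : V, XX (MulAction.stabilizer Γ v)) → XX Γ
  | red {Γ : Type} [Group Γ] (R : Type) [CommRing R]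
      (ρ : Γ →* Matrix.GeneralLinearGroup (Fin 2) R) :
      (∀ D : Subgroup Γ, (∀ g ∈ D, IsIntegral ℤ (Matrix.trace (ρ g : Matrix (Fin 2) (Fin 2) R)) ∧
        IsIntegral ℤ (Matrix.det (ρ g : Matrix (Fin 2) (Fin 2) R))) → XX D) → XX Γ

end Pool.Agent.WhVan
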