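import Mathlib
import Pool.Agent.Lib.MP_8f66f0_al_TQ.XXD
import Pool.Agent.Lib.MP_8f66f0_al_FH.FinalE
import Pool.Agent.Lib.MP_8f66f0_al_Cx.Defs

/-! The class of groups of the theorem on actions on trees and 2-complexes, extensions and elementary
amenable quotients. (`XX` is defined in `TQ/XXD`, `EA`, elementary amenable, in `FH/FinalE`;
2-complexes `Cx` and the metric conditions `Met` are defined in `Cx/Defs`; `IsEuc` and `K1Units`
are defined in `HierZ/FinalD`.) -/

set_option autoImplicit false

namespace Pool.Agent.WhVan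

/-- The least class of groups which contains all torsion free groups of the class `XX` and all
torsion free subgroups of `GL_3(R)`, for all commutative rings `R` of positive characteristic, and
is closed under isomorphism, subgroups, directed unions, extensions, and

* actions on trees without inversions with all vertex stabilizers in the class;
* elementary amenable quotients: if `θ` is a homomorphism from `Γ` to an elementary amenable group,
  and all subgroups `U` of `Γ` with finite image `θ(U)` are in the class, then `Γ` is in the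
  class (if `Γ` is a torsion free elementary amenable group, take `θ = id`: only `U = 1` has
  finite image);
* representations `ρ` of `Γ` in `GL_2(R)`, for arbitrary commutative rings `R`: if all subgroups
  `D` of `Γ` such that the traces and determinants of all elements of `ρ(D)` are integral over `ℤ`
  are in the class, then `Γ` is in the class;
* representations `ρ` of `Γ` in `GL_3(R)`, for arbitrary commutative rings `R`: if all subgroups
  `D` of `Γ` such that the coefficients of the characteristic polynomials of all elements of `ρ(D)`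
  are integral over `ℤ` are in the class, then `Γ` is in the class;
* actions on 2-complexes `X` (of triangles and squares; an element which maps an edge or a 2-cell
  to itself fixes it pointwise) which satisfy the metric conditions `X.Met`, with all vertex
  stabilizers in the class.

(All groups in the class are torsion free.) -/
inductive UU : (Γ : Type) → [Group Γ] → Prop
  | xx {Γ : Type} [Group Γ] : XX Γ → (∀ (g : Γ) (n : ℕ), 0 < n → g ^ n = 1 → g = 1) → UU Γ
  | iso {Γ Γ' : Type} [Group Γ] [Group Γ'] (e : Γ ≃* Γ') : UU Γ → UU Γ'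
  | sub {Γ : Type} [Group Γ] (H : Subgroup Γ) : UU Γ → UU H
  | directed {Γ : Type} [Group Γ] (S : Set (Subgroup Γ)) : S.Nonempty →
      DirectedOn (· ≤ ·) S → (∀ g : Γ, ∃ K ∈ S, g ∈ K) → (∀ K ∈ S, UU K) → UU Γ
  | ext {Γ Q : Type} [Group Γ] [Group Q] (f : Γ →* Q) : UU f.ker → UU Q → UU Γ
  | tree {Γ V : Type} [Group Γ] [MulAction Γ V] (T : SimpleGraph V) : T.IsTree →
      (∀ (g : Γ) (v w : V), T.Adj v w → T.Adj (g • v) (g • w)) →
      (∀ (g : Γ) (v w : V), T.Adj v w → ¬ (g • v = w ∧ g • w = v)) →
      (∀ v : V, UU (MulAction.stabilizer Γ v)) → UU Γ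
  | ea {Γ Q : Type} [Group Γ] [Group Q] (θ : Γ →* Q) : EA Q →
      (∀ U : Subgroup Γ, Finite (U.map θ) → UU U) → UU Γ
  | red {Γ : Type} [Group Γ] (R : Type) [CommRing R]
      (ρ : Γ →* Matrix.GeneralLinearGroup (Fin 2) R) :
      (∀ D : Subgroup Γ, (∀ g ∈ D, IsIntegral ℤ (Matrix.trace (ρ g : Matrix (Fin 2) (Fin 2) R)) ∧
        IsIntegral ℤ (Matrix.det (ρ g : Matrix (Fin 2) (Fin 2) R))) → UU D) → UU Γ
  | gl3 (R : Type) [CommRing R] (m : ℕ) (Γ : Subgroup (Matrix.GeneralLinearGroup (Fin 3) R)) :
      0 < m → (m : R) = 0 → (∀ g ∈ Γ, ∀ n : ℕ, 0 < n → g ^ n = 1 → g = 1) → UU Γ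
  | red3 {Γ : Type} [Group Γ] (R : Type) [CommRing R]
      (ρ : Γ →* Matrix.GeneralLinearGroup (Fin 3) R) :
      (∀ D : Subgroup Γ, (∀ g ∈ D, ∀ k : ℕ,
        IsIntegral ℤ ((ρ g : Matrix (Fin 3) (Fin 3) R).charpoly.coeff k)) → UU D) → UU Γ
  | cplx {Γ V C : Type} [Group Γ] [MulAction Γ V] [MulAction Γ C] (X : Cx2.Cx Γ V C) : X.Met →
      (∀ v : V, UU (MulAction.stabilizer Γ v)) → UU Γ

end Pool.Agent.WhVan
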