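import Pool.Agent.Lib.MP_8f66f0_al_TQ.XXS
import Pool.Agent.Lib.MP_8f66f0_al_Tree.AllK
import Pool.Agent.Lib.MP_8f66f0_al_Tree.Star
import Pool.Agent.Lib.MP_8f66f0_al_Tree.Hd

/-! Theorem TQ, relative version: all extensions of groups with `Hd KS` by the torsion-free groups of
the class `XX` have `Hd KS`. -/

set_option autoImplicit false

namespace Pool.Agent.TQ

open scoped Pointwise
open Pool.Agent Pool.Agent.TreeC Pool.Agent.WhVan Pool.Agent.FH Pool.Agent.QT Pool.Agent.Hier
  Pool.Agent.WaldL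

/-- Theorem TQ in the cocycle format, for a class of groups. -/
def S_TQP (P : (G : Type) → [Group G] → Prop) : Prop :=
  ∀ (Γ G Q V : Type) [Group Γ] [Group G] [MulAction Γ Q] [MulAction G V] [Finite Q] [Nonempty Q]
    (T : Tr G V) (D : Coc Γ G Q),
    (∀ (C : Subgroup Γ) (c : Tw D (Set V)), IsLab T c → (∀ g ∈ C, g • c = c) → P C) → P Γ

/-- The pull back of a cocycle. -/
def pullC {Λ Γ G Q : Type} [Group Λ] [Group Γ] [Group G] [MulAction Γ Q] (φ : Λ →* Γ)
    (D : Coc Γ G Q) :
    letI := MulAction.compHom Q φ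
    Coc Λ G Q :=
  letI := MulAction.compHom Q φ
  { c := fun g q => D.c (φ g) q
    c_one := fun q => by rw [map_one, D.c_one]
    c_mul := fun g h q => by
      rw [map_mul, D.c_mul]
      rfl }

/-- The relative version. -/
theorem tqp_star (hTQ : S_TQC) : S_TQP (Star (Hd KS)) := by
  intro Γ G Q V _ _ _ _ _ _ T D h Λ _ f hf H
  have hT : TClv (Hd KS) := hd KS ks_tcl
  let φ : H →* Γ := f.comp H.subtype
  let _ : MulAction H Q := MulAction.compHom Q φ
  refine hTQ H G Q V T (pullC φ D) fun C c hc hfix => ?_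
  have h1 : Star (Hd KS) (C.map φ) := by
    refine h (C.map φ) c hc ?_
    rintro _ ⟨g, hg, rfl⟩
    exact ((tw_eq_iff (D := D) (φ g) c c).2 fun q =>
      (tw_eq_iff g c c).1 (hfix g hg).symm q).symm
  have h2 : Hd KS C := by
    refine h1 C (φ.subgroupMap C) ?_
    let j : (φ.subgroupMap C).ker →* f.ker :=
      ((H.subtype.comp C.subtype).comp (φ.subgroupMap C).ker.subtype).codRestrict f.ker
        fun x => congrArg Subtype.val x.2
    refine tclv_emb hT j ?_ hf
    intro x y hxy
    exact Subtype.ext (Subtype.ext (Subtype.ext (congrArg (fun z : f.ker => (z : Λ)) hxy)))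
  exact ks_tcl.iso _ _ Subgroup.topEquiv (h2 ⊤)

section

variable (P : (G : Type) → [Group G] → Prop)

/-- Every torsion-free group with a subgroup of finite index which embeds in `G` is in `P`. -/
def PC (G : Type) [Group G] : Prop :=
  ∀ (Λ : Type) [Group Λ], TF Λ → ∀ H : Subgroup Λ, H.FiniteIndex → ∀ f : H →* G,
    Function.Injective f → P Λ

variable {P}

theorem pc_emb {G G' : Type} [Group G] [Group G'] (f : G' →* G) (hf : Function.Injective f)
    (h : PC P G) : PC P G' := fun Λ _ hΛ H hH j hj => h Λ hΛ H hH (f.comp j) (hf.comp hj)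

theorem pc_fi {G : Type} [Group G] (K : Subgroup G) (hK : K.FiniteIndex) (h : PC P K) :
    PC P G := by
  intro Λ _ hΛ H hH f hf
  let H' : Subgroup Λ := (K.comap f).map H.subtype
  have h1 : H'.FiniteIndex := by
    refine ⟨?_⟩
    rw [Subgroup.index_map_subtype]
    refine mul_ne_zero ?_ hH.index_ne_zero
    rw [Subgroup.index_comap]
    exact fun h0 => hK.index_ne_zero (Subgroup.index_eq_zero_of_relIndex_eq_zero h0)
  let e : K.comap f ≃* H' := (K.comap f).equivMapOfInjective H.subtype H.subtype_injective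
  let g : K.comap f →* K := (f.comp (K.comap f).subtype).codRestrict K fun x => x.2
  have hg : Function.Injective g := fun x y hxy =>
    Subtype.ext (hf (congrArg (fun z : K => (z : G)) hxy))
  exact h Λ hΛ H' h1 (g.comp e.symm.toMonoidHom) (hg.comp e.symm.injective)

theorem pc_triv (hP : TClv P) (G : Type) [Group G] [Subsingleton G] : PC P G := by
  intro Λ _ hΛ H hH f hf
  have h1 : Subsingleton H := ⟨fun a b => hf (Subsingleton.elim _ _)⟩
  have h2 : Finite Λ := by
    rw [Subgroup.finite_iff_finite_and_finiteIndex (H := H)]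
    exact ⟨inferInstance, hH⟩
  have h3 : Subsingleton Λ := hΛ.subsingleton
  exact hP.triv Λ

theorem pc_directed (hP : TClv P) {G : Type} [Group G] (S : Set (Subgroup G)) (hne : S.Nonempty)
    (hd : DirectedOn (· ≤ ·) S) (hS : ∀ g : G, ∃ K ∈ S, g ∈ K) (h : ∀ K ∈ S, PC P K) :
    PC P G := by
  intro Λ _ hΛ H hH f hf
  refine hP.directed Λ {U : Subgroup Λ | U.FG} ⟨⊥, Subgroup.FG.bot⟩ ?_ ?_ ?_
  · intro K hK K' hK'
    exact ⟨K ⊔ K', Subgroup.FG.sup hK hK', le_sup_left, le_sup_right⟩
  · intro g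
    refine ⟨Subgroup.zpowers g, ⟨{g}, ?_⟩, Subgroup.mem_zpowers g⟩
    rw [Finset.coe_singleton, Subgroup.zpowers_eq_closure]
  · intro U hU
    have h1 : Group.FG U := (Group.fg_iff_subgroup_fg U).2 hU
    have h2 : Group.FG (H.subgroupOf U) := Subgroup.fg_of_index_ne_zero _
    obtain ⟨T, hT⟩ := Group.fg_def.1 h2
    let j : H.subgroupOf U →* H :=
      (U.subtype.comp (H.subgroupOf U).subtype).codRestrict H fun x => x.2
    classical
    obtain ⟨K, hK, h3⟩ := exists_mem_all S hne hd hS (T.image fun t => f (j t))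
    have h4 : ∀ x : H.subgroupOf U, f (j x) ∈ K := by
      intro x
      have h5 : x ∈ (Subgroup.closure (T : Set (H.subgroupOf U))) := by
        rw [hT]
        trivial
      have h6 : Subgroup.closure (T : Set (H.subgroupOf U)) ≤ K.comap (f.comp j) := by
        rw [Subgroup.closure_le]
        intro t htT
        exact h3 _ (Finset.mem_image_of_mem _ htT)
      exact h6 h5
    refine h K hK U (hΛ.sub U) (H.subgroupOf U) inferInstance
      ((f.comp j).codRestrict K fun x => h4 x) ?_
    intro x y hxy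
    have h7 : f (j x) = f (j y) := congrArg (fun z : K => (z : G)) hxy
    have h8 : (j x).1 = (j y).1 := congrArg Subtype.val (hf h7)
    exact Subtype.ext (Subtype.ext h8)

theorem pc_tree (hTQ : S_TQP P) (G V : Type) [Group G] [MulAction G V] [Nonempty V]
    (𝓗 : Set (Set V)) (hH : CutSys G V 𝓗) (hV : ∀ x : V, PC P (stV G hH x))
    (hE : ∀ h ∈ 𝓗, PC P (stE G h)) : PC P G := by
  intro Λ _ hΛ H hHf f hf
  let D0 : TreeData G (TV hH) (CE hH) Unit := cutTD hH (Classical.arbitrary V)
  have hfin : Finite (Λ ⧸ H) := inferInstance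
  refine hTQ Λ G (Λ ⧸ H) _ (trOf D0) (cocOf H f) fun C c hc hfix => ?_
  obtain ⟨⟨j, hj⟩, hlab⟩ := hc
  obtain ⟨s, hs⟩ := Option.ne_none_iff_exists'.1 hj
  obtain ⟨x, hx⟩ := lab_fix D0 s (hlab j s hs)
  obtain ⟨C', φ, h1, h2, h3⟩ := lab_emb H hHf f hf C c hfix j s hs
  have h4 : ∀ y, φ y • x = x := fun y => hx _ (h3 y)
  rcases cut_fix hH x with ⟨v, hv⟩ | ⟨h, hh, hv⟩
  · exact hV v C (hΛ.sub C) C' h1 (φ.codRestrict _ fun y => hv _ (h4 y)) fun a b hab =>
      h2 (congrArg (fun z : stV G hH v => (z : G)) hab)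
  · exact hE h hh C (hΛ.sub C) C' h1 (φ.codRestrict _ fun y => hv _ (h4 y)) fun a b hab =>
      h2 (congrArg (fun z : stE G h => (z : G)) hab)

theorem pc_tclv (hP : TClv P) (hTQ : S_TQP P) : TClv (PC P) where
  triv := fun G _ _ => pc_triv hP G
  iso := fun _ _ _ _ e h => pc_emb e.symm.toMonoidHom e.symm.injective h
  sub := fun _ _ H h => pc_emb H.subtype H.subtype_injective h
  directed := fun _ _ S hne hd hS h => pc_directed hP S hne hd hS h
  tree := fun G V _ _ _ 𝓗 hH h => by
    refine pc_tree hTQ G V 𝓗 hH h fun k hk => ?_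
    obtain ⟨x, y, hxy⟩ := hH.exists_adj hk
    have h1 : stE G k ≤ stV G hH x := fun g hg => ((mem_stE_iff hH hk hxy g).1 hg).1
    exact pc_emb (Subgroup.inclusion h1) (Subgroup.inclusion_injective h1) (h x)

/-- Finite groups have the property for extensions. -/
theorem star_finite' (G : Type) [Group G] (h : Finite G) : Star (PC P) G := by
  intro Λ _ f hf
  refine pc_fi f.ker ?_ hf
  infer_instance

/-- Finite index for the property for extensions. -/
theorem star_fi' (hP : TClv (PC P)) (G : Type) [Group G] (K : Subgroup G) (hK : K.FiniteIndex)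
    (h : Star (PC P) K) : Star (PC P) G := by
  intro Λ _ f hf
  refine pc_fi (K.comap f) ⟨?_⟩ (h _ (f.subgroupComap K) ?_)
  · rw [Subgroup.index_comap]
    exact fun h0 => hK.index_ne_zero (Subgroup.index_eq_zero_of_relIndex_eq_zero h0)
  · refine tclv_emb hP (((K.comap f).subtype.comp (Subgroup.subtype _)).codRestrict f.ker
      fun x => ?_) ?_ hf
    · exact congrArg (fun z : K => (z : G)) x.2
    · intro x y hxy
      exact Subtype.ext (Subtype.ext (congrArg (fun z : f.ker => (z : Λ)) hxy))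

/-- All extensions of groups of the class by groups with `PC P` have `PC P`. -/
theorem xx_star' (hP : TClv P) (hTQ : S_TQP P) {Γ : Type} [Group Γ] (h : XX Γ) :
    Star (PC P) Γ := by
  have h1 : TClv (PC P) := pc_tclv hP hTQ
  have h2 : TClv (Star (PC P)) := (star (PC P) h1).1
  have h3 := (star (PC P) h1).2
  have h4 : TCl (Star (PC P)) :=
    ⟨h2.triv, h2.iso, h2.directed, fun G V _ _ _ 𝓗 hH hx _ => h2.tree G V 𝓗 hH hx⟩
  induction h with
  | fin h => exact star_finite' _ h
  | gl2 R m Γ hm hR hΓ => exact gl2_all _ h4 R m hm hR Γ hΓ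
  | gl2Q σ R j Γ hj hΓ => exact TreeQ.glQ_all _ h4 σ R j hj Γ hΓ
  | iso e _ ih => exact h2.iso _ _ e ih
  | sub H _ ih => exact h2.sub _ H ih
  | directed S hne hd hS _ ih => exact h2.directed _ S hne hd hS ih
  | ext f _ _ ih1 ih2 => exact h3 _ _ f ih1 ih2
  | tree T hT hadj _ ih => exact tree_any h2 (fun G _ K => star_fi' h1 G K) T hT hadj ih
  | red R ρ _ ih => exact TreeQ.red_all _ h4 R _ ρ ih

/-- The torsion-free groups of the class `XX` are in `P`. -/
theorem xx_mem (hP : TClv P) (hTQ : S_TQP P) {Γ : Type} [Group Γ] (h : XX Γ) (ht : TF Γ) :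
    P Γ := by
  have h1 : PC P Γ := by
    refine xx_star' hP hTQ h Γ (MonoidHom.id Γ) ?_
    have hs : Subsingleton (MonoidHom.id Γ).ker := by
      constructor
      rintro ⟨a, ha⟩ ⟨b, hb⟩
      apply Subtype.ext
      rw [MonoidHom.mem_ker] at ha hb
      exact ha.trans hb.symm
    exact pc_triv hP _
  exact h1 Γ ht ⊤ inferInstance (⊤ : Subgroup Γ).subtype (⊤ : Subgroup Γ).subtype_injective

end

/-- All extensions of groups with `Hd KS` by torsion-free groups of the class `XX` have `Hd KS`. -/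
theorem xx_starKS (hTQ : S_TQC) {Γ : Type} [Group Γ] (h : XX Γ)
    (ht : ∀ (g : Γ) (n : ℕ), 0 < n → g ^ n = 1 → g = 1) : Star (Hd KS) Γ :=
  xx_mem (star (Hd KS) (hd KS ks_tcl)).1 (tqp_star hTQ) h ht

end Pool.Agent.TQ
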