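import Pool.Agent.Lib.MP_8f66f0_al_TQ.UUS
import Pool.Agent.Lib.MP_8f66f0_al_Q.MainB
import Pool.Agent.Lib.MP_8f66f0_al_Cx.All
import Pool.Agent.Lib.MP_8f66f0_al_FH.KAll

/-! The theorem on the class `UU`. -/

set_option autoImplicit false

namespace Pool.Agent.WhVan

theorem uu_all {Γ : Type} [Group Γ] (h : UU Γ) (L : Type) [CommRing L] [IsDomain L]
    (hL : IsEuc L) : K1Units L Γ :=
  uu_main (QT.tqc_of_qc QT.qcB) FH.ksAff Cx2.wm Cx2.geo Cx2.ch Cx2.all_gen Cx2.all_orb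
    Cx2.all_res h L hL

end Pool.Agent.WhVan
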