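import Mathlib
import Pool.Agent.Lib.MP_8f66f0_al_HierZ.FinalD
import Pool.Agent.Lib.MP_8f66f0_al_FH.FinalE
import Pool.Agent.Lib.MP_8f66f0_al_Cx.Defs
import Pool.Agent.Lib.MP_8f66f0_al_CC.GraphDefs

/-! The classes of groups of the theorem on actions on trees, 2-complexes and cube complexes,
extensions and elementary amenable quotients. (`EA`, elementary amenable, is defined in `FH/FinalE`;
2-complexes `Cx` and the metric conditions `Met` are defined in `Cx/Defs`; median graphs `IsMedian`,
`NoCube` and `IsGCube` are defined in `CC/GraphDefs`; `IsEuc` and `K1Units` are defined in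
`HierZ/FinalD`.) -/

set_option autoImplicit false

namespace Pool.Agent.WhVan

open scoped Pointwise

/-- The least class of groups which contains

* all finite groups;
* all torsion free subgroups of `GL_2(R)`, for all commutative rings `R` of positive characteristic
  and all rings `R` which can be embedded in a purely transcendental extension of `ℚ` (the fraction
  field of the polynomial ring in the variables `σ` over `ℤ`);

and is closed under isomorphism, subgroups, directed unions, extensions, and

* actions on trees with all vertex stabilizers in the class (inversions of edges are allowed, and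
  there is no condition on the edge stabilizers);
* actions on CAT(0) cube complexes of finite dimension with all vertex stabilizers in the class:
  the group acts on the `1`-skeleton `G`, a median graph which contains no cube of dimension
  `N + 1` (inversions are allowed, the graph may be locally infinite, and there is no condition on the
  stabilizers of the cubes);
* representations `ρ` of `Γ` in `GL_2(R)`, for arbitrary commutative rings `R`: if all subgroups
  `D` of `Γ` such that the traces and determinants of all elements of `ρ(D)` are integral over `ℤ`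
  are in the class, then `Γ` is in the class. -/
inductive YC : (Γ : Type) → [Group Γ] → Prop
  | fin {Γ : Type} [Group Γ] : Finite Γ → YC Γ
  | gl2 (R : Type) [CommRing R] (m : ℕ) (Γ : Subgroup (Matrix.GeneralLinearGroup (Fin 2) R)) :
      0 < m → (m : R) = 0 → (∀ g ∈ Γ, ∀ n : ℕ, 0 < n → g ^ n = 1 → g = 1) → YC Γ
  | gl2Q (σ R : Type) [CommRing R] (j : R →+* FractionRing (MvPolynomial σ ℤ))
      (Γ : Subgroup (Matrix.GeneralLinearGroup (Fin 2) R)) : Function.Injective j →
      (∀ g ∈ Γ, ∀ n : ℕ, 0 < n → g ^ n = 1 → g = 1) → YC Γ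
  | iso {Γ Γ' : Type} [Group Γ] [Group Γ'] (e : Γ ≃* Γ') : YC Γ → YC Γ'
  | sub {Γ : Type} [Group Γ] (H : Subgroup Γ) : YC Γ → YC H
  | directed {Γ : Type} [Group Γ] (S : Set (Subgroup Γ)) : S.Nonempty →
      DirectedOn (· ≤ ·) S → (∀ g : Γ, ∃ K ∈ S, g ∈ K) → (∀ K ∈ S, YC K) → YC Γ
  | ext {Γ Q : Type} [Group Γ] [Group Q] (f : Γ →* Q) : YC f.ker → YC Q → YC Γ
  | tree {Γ V : Type} [Group Γ] [MulAction Γ V] (T : SimpleGraph V) : T.IsTree →
      (∀ (g : Γ) (v w : V), T.Adj v w → T.Adj (g • v) (g • w)) →
      (∀ v : V, YC (MulAction.stabilizer Γ v)) → YC Γ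
  | cube {Γ V : Type} [Group Γ] [MulAction Γ V] (G : SimpleGraph V) (N : ℕ) : CC.IsMedian G →
      CC.NoCube G (N + 1) → (∀ (g : Γ) (v w : V), G.Adj v w → G.Adj (g • v) (g • w)) →
      (∀ v : V, YC (MulAction.stabilizer Γ v)) → YC Γ
  | red {Γ : Type} [Group Γ] (R : Type) [CommRing R]
      (ρ : Γ →* Matrix.GeneralLinearGroup (Fin 2) R) :
      (∀ D : Subgroup Γ, (∀ g ∈ D, IsIntegral ℤ (Matrix.trace (ρ g : Matrix (Fin 2) (Fin 2) R)) ∧
        IsIntegral ℤ (Matrix.det (ρ g : Matrix (Fin 2) (Fin 2) R))) → YC D) → YC Γ

/-- The least class of groups which contains all torsion free groups of the class `YC` and all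
torsion free subgroups of `GL_3(R)`, for all commutative rings `R` of positive characteristic, and
is closed under isomorphism, subgroups, directed unions, extensions, and

* actions on trees without inversions with all vertex stabilizers in the class;
* actions on CAT(0) cube complexes of finite dimension with the stabilizers of all cubes in the
  class: the group acts on the `1`-skeleton `G`, a median graph which contains no cube of dimension
  `N + 1` (it may be locally infinite), and `c` is the set of vertices of a cube;
* elementary amenable quotients: if `θ` is a homomorphism from `Γ` to an elementary amenable group,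
  and all subgroups `U` of `Γ` with finite image `θ(U)` are in the class, then `Γ` is in the
  class (if `Γ` is a torsion free elementary amenable group, take `θ = id`: only `U = 1` has
  finite image);
* representations `ρ` of `Γ` in `GL_2(R)`, for arbitrary commutative rings `R`: if all subgroups
  `D` of `Γ` such that the traces and determinants of all elements of `ρ(D)` are integral over `ℤ`
  are in the class, then `Γ` is in the class;
* representations `ρ` of `Γ` in `GL_3(R)`, for arbitrary commutative rings `R`: if all subgroups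
  `D` of `Γ` such that the coefficients of the characteristic polynomials of all elements of `ρ(D)`
  are integral over `ℤ` are in the class, then `Γ` is in the class;
* actions on 2-complexes `X` (of triangles and squares; an element which maps an edge or a 2-cell
  to itself fixes it pointwise) which satisfy the metric conditions `X.Met`, with all vertex
  stabilizers in the class.

(All groups in the class are torsion free.) -/
inductive VC : (Γ : Type) → [Group Γ] → Prop
  | yy {Γ : Type} [Group Γ] : YC Γ → (∀ (g : Γ) (n : ℕ), 0 < n → g ^ n = 1 → g = 1) → VC Γ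
  | iso {Γ Γ' : Type} [Group Γ] [Group Γ'] (e : Γ ≃* Γ') : VC Γ → VC Γ'
  | sub {Γ : Type} [Group Γ] (H : Subgroup Γ) : VC Γ → VC H
  | directed {Γ : Type} [Group Γ] (S : Set (Subgroup Γ)) : S.Nonempty →
      DirectedOn (· ≤ ·) S → (∀ g : Γ, ∃ K ∈ S, g ∈ K) → (∀ K ∈ S, VC K) → VC Γ
  | ext {Γ Q : Type} [Group Γ] [Group Q] (f : Γ →* Q) : VC f.ker → VC Q → VC Γ
  | tree {Γ V : Type} [Group Γ] [MulAction Γ V] (T : SimpleGraph V) : T.IsTree →
      (∀ (g : Γ) (v w : V), T.Adj v w → T.Adj (g • v) (g • w)) →
      (∀ (g : Γ) (v w : V), T.Adj v w → ¬ (g • v = w ∧ g • w = v)) →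
      (∀ v : V, VC (MulAction.stabilizer Γ v)) → VC Γ
  | cube {Γ V : Type} [Group Γ] [MulAction Γ V] (G : SimpleGraph V) (N : ℕ) : CC.IsMedian G →
      CC.NoCube G (N + 1) → (∀ (g : Γ) (v w : V), G.Adj v w → G.Adj (g • v) (g • w)) →
      (∀ c : Set V, CC.IsGCube G c → VC (MulAction.stabilizer Γ c)) → VC Γ
  | ea {Γ Q : Type} [Group Γ] [Group Q] (θ : Γ →* Q) : EA Q →
      (∀ U : Subgroup Γ, Finite (U.map θ) → VC U) → VC Γ
  | red {Γ : Type} [Group Γ] (R : Type) [CommRing R]
      (ρ : Γ →* Matrix.GeneralLinearGroup (Fin 2) R) :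
      (∀ D : Subgroup Γ, (∀ g ∈ D, IsIntegral ℤ (Matrix.trace (ρ g : Matrix (Fin 2) (Fin 2) R)) ∧
        IsIntegral ℤ (Matrix.det (ρ g : Matrix (Fin 2) (Fin 2) R))) → VC D) → VC Γ
  | gl3 (R : Type) [CommRing R] (m : ℕ) (Γ : Subgroup (Matrix.GeneralLinearGroup (Fin 3) R)) :
      0 < m → (m : R) = 0 → (∀ g ∈ Γ, ∀ n : ℕ, 0 < n → g ^ n = 1 → g = 1) → VC Γ
  | red3 {Γ : Type} [Group Γ] (R : Type) [CommRing R]
      (ρ : Γ →* Matrix.GeneralLinearGroup (Fin 3) R) :
      (∀ D : Subgroup Γ, (∀ g ∈ D, ∀ k : ℕ,
        IsIntegral ℤ ((ρ g : Matrix (Fin 3) (Fin 3) R).charpoly.coeff k)) → VC D) → VC Γ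
  | cplx {Γ V C : Type} [Group Γ] [MulAction Γ V] [MulAction Γ C] (X : Cx2.Cx Γ V C) : X.Met →
      (∀ v : V, VC (MulAction.stabilizer Γ v)) → VC Γ

end Pool.Agent.WhVan
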