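import Pool.Agent.Lib.MP_8f66f0_al_TQ.YYS
import Pool.Agent.Lib.MP_8f66f0_al_Tree.FinalTS
import Pool.Agent.Lib.MP_8f66f0_al_Tree.StarE
import Pool.Agent.Lib.MP_8f66f0_al_Cx.Comp
import Pool.Agent.Lib.MP_8f66f0_al_B3.Gl3

/-! The theorem on actions on trees, 2-complexes and cube complexes, with elementary amenable
quotients, and the class `YC`. -/

set_option autoImplicit false

namespace Pool.Agent.WhVan

open Pool.Agent Pool.Agent.TreeC Pool.Agent.Cx2 Pool.Agent.QT Pool.Agent.TQ Pool.Agent.CC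

/-- All extensions of a group of the class by a group whose subgroups have `KS` have the same
property. -/
theorem vv_star (hTQ : S_TQC) (hCC : S_CCP (Hd KS)) (hA : FH.KSAff) (h1 : S_wm) (h2 : S_geo)
    (h3 : Cx2.S_ch) (h4 : S_gen) (h5 : S_orb) (h6 : S_res) {Γ : Type} [Group Γ] (h : VC Γ) :
    Star (Hd KS) Γ := by
  have g1 : TClv (Hd KS) := hd KS ks_tcl
  have g2 : TClv (Star (Hd KS)) := (star (Hd KS) g1).1
  have g3 := (star (Hd KS) g1).2
  have g4 : TCl (Star (Hd KS)) :=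
    ⟨g2.triv, g2.iso, g2.directed, fun G V _ _ _ 𝓗 hH hx _ => g2.tree G V 𝓗 hH hx⟩
  have g5 : B3.CCl (Star (Hd KS)) := ⟨g4, fun G V C _ _ _ X hX hv G' _ f hf =>
    X.hd_comp h1 h2 h3 h4 h5 h6 hX f fun v => star_comap3 g1 f hf _ (hv v)⟩
  have g6 : S_CCP (Star (Hd KS)) := ccp_star g1 hCC
  induction h with
  | gl3 R m Γ hm hR hΓ => exact B3.gl3_all _ g5 R m hm hR Γ hΓ
  | red3 R ρ _ ih => exact B3.red3_all _ g5 R _ ρ ih
  | yy h ht => exact yy_starKS hTQ hCC h ht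
  | iso e _ ih => exact g2.iso _ _ e ih
  | sub H _ ih => exact g2.sub _ H ih
  | directed S hne hd hS _ ih => exact g2.directed _ S hne hd hS ih
  | ext f _ _ ih1 ih2 => exact g3 _ _ f ih1 ih2
  | @tree Γ V _ _ T hT hadj hinv _ ih =>
    obtain ⟨𝓗, hH, hst⟩ := graph Γ V T hT hadj hinv
    have : Nonempty V := hT.connected.nonempty
    refine g2.tree Γ V 𝓗 hH fun x => ?_
    rw [hst x]
    exact ih x
  | @cube Γ V _ _ G N hG hN hadj _ ih => exact graph_of_med g6 G hG hadj hN ih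
  | ea θ hQ _ ih => exact star_ea hA (eam_of_EA hQ) θ ih
  | red R ρ _ ih => exact TreeQ.red_all _ g4 R _ ρ ih
  | @cplx Γ V C _ _ _ X hX _ ih =>
    intro G _ f hf
    exact X.hd_comp h1 h2 h3 h4 h5 h6 hX f fun v => star_comap3 g1 f hf _ (ih v)

theorem vv_ks (hTQ : S_TQC) (hCC : S_CCP (Hd KS)) (hA : FH.KSAff) (h1 : S_wm) (h2 : S_geo)
    (h3 : Cx2.S_ch) (h4 : S_gen) (h5 : S_orb) (h6 : S_res) {Γ : Type} [Group Γ] (h : VC Γ) :
    KS Γ := by
  have g1 : TClv (Hd KS) := hd KS ks_tcl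
  have g2 : Hd KS Γ := by
    refine vv_star hTQ hCC hA h1 h2 h3 h4 h5 h6 h Γ (MonoidHom.id Γ) ?_
    have : Subsingleton (MonoidHom.id Γ).ker := by
      constructor
      rintro ⟨a, ha⟩ ⟨b, hb⟩
      apply Subtype.ext
      rw [MonoidHom.mem_ker] at ha hb
      exact ha.trans hb.symm
    exact g1.triv _
  exact ks_tcl.iso _ _ Subgroup.topEquiv (g2 ⊤)

/-- The main theorem, for the statements of Theorem TQ, of Theorem CC, of the theorem on affine
actions and the six statements of `Cx`. -/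
theorem vv_main (hTQ : S_TQC) (hCC : S_CCP (Hd KS)) (hA : FH.KSAff) (h1 : S_wm) (h2 : S_geo)
    (h3 : Cx2.S_ch) (h4 : S_gen) (h5 : S_orb) (h6 : S_res) {Γ : Type} [Group Γ] (h : VC Γ)
    (L : Type) [CommRing L] [IsDomain L] (hL : IsEuc L) : K1Units L Γ :=
  (WaldL.k1Units_iff L Γ).2 ((vv_ks hTQ hCC hA h1 h2 h3 h4 h5 h6 h).1 L hL)

end Pool.Agent.WhVan
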