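import Pool.Agent.Lib.MP_8f66f0_al_TQ.VVS
import Pool.Agent.Lib.MP_8f66f0_al_TQ.UUT
import Pool.Agent.Lib.MP_8f66f0_al_CC.End.FinSpec

/-! The theorem on the class `VC`, for Theorem CC. -/

set_option autoImplicit false

namespace Pool.Agent.WhVan

theorem vv_of_cc (hCC : CC.S_CC) {Γ : Type} [Group Γ] (h : VC Γ) (L : Type) [CommRing L]
    [IsDomain L] (hL : IsEuc L) : K1Units L Γ :=
  vv_main (QT.tqc_of_qc QT.qcB) hCC FH.ksAff Cx2.wm Cx2.geo Cx2.ch Cx2.all_gen Cx2.all_orb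
    Cx2.all_res h L hL

end Pool.Agent.WhVan
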