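import Pool.Agent.Lib.MP_8f66f0_al_TQ.XXD
import Pool.Agent.Lib.MP_8f66f0_al_TQ.QP0
import Pool.Agent.Lib.MP_8f66f0_al_Tree.FinalTS
import Pool.Agent.Lib.MP_8f66f0_al_TreeQ.AllQ
import Pool.Agent.Lib.MP_8f66f0_al_TreeQ.AllRed

/-! The theorem on the class `XX`, from Theorem TQ. -/

set_option autoImplicit false

namespace Pool.Agent.TQ

open Pool.Agent Pool.Agent.TreeC Pool.Agent.WhVan Pool.Agent.FH Pool.Agent.QT

theorem tclv_emb {P : (G : Type) → [Group G] → Prop} (hP : TClv P) {G G' : Type} [Group G]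
    [Group G'] (f : G' →* G) (hf : Function.Injective f) (h : P G) : P G' :=
  hP.iso _ _ (MonoidHom.ofInjective hf).symm (hP.sub _ f.range h)

section

variable {G V : Type} [Group G] [MulAction G V] (T : SimpleGraph V) (hT : T.IsTree)
  (hadj : ∀ (g : G) (v w : V), T.Adj v w → T.Adj (g • v) (g • w))

/-- Adjacent vertices have different colours. -/
theorem col_adj {v w : V} (h : T.Adj v w) :
    (hT.coloringTwo v = 0 ↔ ¬ hT.coloringTwo w = 0) := by
  have h1 := hT.coloringTwo.valid h
  constructor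
  · intro h2 h3
    exact h1 (h2.trans h3.symm)
  · intro h2
    have h3 := Fin.exists_fin_two.1 ⟨hT.coloringTwo w, rfl⟩
    omega

include hT hadj in
/-- Whether an element preserves the colour does not depend on the vertex. -/
theorem col_const (g : G) (v w : V) :
    ((hT.coloringTwo (g • v) = 0 ↔ hT.coloringTwo v = 0) ↔
      (hT.coloringTwo (g • w) = 0 ↔ hT.coloringTwo w = 0)) := by
  obtain ⟨p⟩ := hT.connected.preconnected v w
  induction p with
  | nil => exact Iff.rfl
  | cons h _ ih =>
    have h1 := col_adj T hT h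
    have h2 := col_adj T hT (hadj g _ _ h)
    rw [← ih]
    tauto

/-- The elements which preserve the colours. -/
def evenSub : Subgroup G where
  carrier := {g | ∀ v, hT.coloringTwo (g • v) = 0 ↔ hT.coloringTwo v = 0}
  one_mem' v := by rw [one_smul]
  mul_mem' {a b} ha hb v := by
    rw [mul_smul]
    exact (ha _).trans (hb v)
  inv_mem' {a} ha v := by
    have h1 := ha (a⁻¹ • v)
    rw [smul_inv_smul] at h1
    exact h1.symm

include hadj in
theorem even_index : (evenSub (G := G) T hT).FiniteIndex := by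
  have hmul : ∀ a b : G, a ∉ evenSub (G := G) T hT → b ∉ evenSub (G := G) T hT →
      a * b ∈ evenSub (G := G) T hT := by
    intro a b ha hb v
    have h1 : ∀ c : G, c ∉ evenSub (G := G) T hT → ∀ v,
        ¬ (hT.coloringTwo (c • v) = 0 ↔ hT.coloringTwo v = 0) := by
      intro c hc v hv
      exact hc fun w => (col_const T hT hadj c v w).1 hv
    have h2 := h1 a ha (b • v)
    have h3 := h1 b hb v
    rw [mul_smul]
    tauto
  refine ⟨?_⟩
  by_cases h3 : ∀ a : G, a ∈ evenSub (G := G) T hT
  · have h4 : evenSub (G := G) T hT = ⊤ := (Subgroup.eq_top_iff' _).2 h3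
    rw [h4, Subgroup.index_top]
    exact one_ne_zero
  · push Not at h3
    obtain ⟨a, ha⟩ := h3
    have h4 : (evenSub (G := G) T hT).index = 2 := by
      rw [Subgroup.index_eq_two_iff_exists_notMem_and]
      refine ⟨a, ha, fun b => ?_⟩
      by_cases hb : b ∈ evenSub (G := G) T hT
      · exact Or.inr hb
      · exact Or.inl (hmul b a hb ha)
    rw [h4]
    exact two_ne_zero

end

/-- Actions on trees with inversions: pass to a subgroup of index at most two. -/
theorem tree_any {P : (G : Type) → [Group G] → Prop} (hP : TClv P)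
    (hfi : ∀ (G : Type) [Group G] (K : Subgroup G), K.FiniteIndex → P K → P G)
    {G V : Type} [Group G] [MulAction G V] (T : SimpleGraph V) (hT : T.IsTree)
    (hadj : ∀ (g : G) (v w : V), T.Adj v w → T.Adj (g • v) (g • w))
    (hst : ∀ v : V, P (MulAction.stabilizer G v)) : P G := by
  have hK := even_index T hT hadj
  refine hfi G _ hK ?_
  have hinv : ∀ (g : evenSub (G := G) T hT) (v w : V), T.Adj v w →
      ¬ (g • v = w ∧ g • w = v) := by
    intro g v w h h2
    have h3 := g.2 v
    have h4 := col_adj T hT h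
    have h5 : g.1 • v = w := h2.1
    rw [h5] at h3
    tauto
  obtain ⟨𝓗, hH, h1⟩ := graph (evenSub (G := G) T hT) V T hT
    (fun g v w h => hadj g.1 v w h) hinv
  have hne : Nonempty V := hT.connected.nonempty
  refine hP.tree _ V 𝓗 hH fun v => ?_
  rw [h1 v]
  let f : MulAction.stabilizer (evenSub (G := G) T hT) v →* MulAction.stabilizer G v :=
    ((evenSub (G := G) T hT).subtype.comp (Subgroup.subtype _)).codRestrict _ fun x => x.2
  refine tclv_emb hP f ?_ (hst v)
  intro x y hxy
  exact Subtype.ext (Subtype.ext (congrArg (fun z : MulAction.stabilizer G v => (z : G)) hxy))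

/-- Finite index for the property for extensions. -/
theorem star_fi (hP : TClv P0) (G : Type) [Group G] (K : Subgroup G) (hK : K.FiniteIndex)
    (h : Star P0 K) : Star P0 G := by
  intro Λ _ f hf
  refine p0_fi (K.comap f) ⟨?_⟩ (h _ (f.subgroupComap K) ?_)
  · rw [Subgroup.index_comap]
    exact fun h0 => hK.index_ne_zero (Subgroup.index_eq_zero_of_relIndex_eq_zero h0)
  · refine tclv_emb hP (((K.comap f).subtype.comp (Subgroup.subtype _)).codRestrict f.ker
      fun x => ?_) ?_ hf
    · exact congrArg (fun z : K => (z : G)) x.2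
    · intro x y hxy
      exact Subtype.ext (Subtype.ext (congrArg (fun z : f.ker => (z : Λ)) hxy))

/-- All extensions of groups of the class by groups with `P0` have `P0`. -/
theorem xx_star (hTQ : S_TQC) {Γ : Type} [Group Γ] (h : XX Γ) : Star P0 Γ := by
  have h1 : TClv P0 := p0_tclv hTQ
  have h2 : TClv (Star P0) := (star P0 h1).1
  have h3 := (star P0 h1).2
  have h4 : TCl (Star P0) :=
    ⟨h2.triv, h2.iso, h2.directed, fun G V _ _ _ 𝓗 hH hx _ => h2.tree G V 𝓗 hH hx⟩
  induction h with
  | fin h => exact star_finite _ h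
  | gl2 R m Γ hm hR hΓ => exact gl2_all _ h4 R m hm hR Γ hΓ
  | gl2Q σ R j Γ hj hΓ => exact TreeQ.glQ_all _ h4 σ R j hj Γ hΓ
  | iso e _ ih => exact h2.iso _ _ e ih
  | sub H _ ih => exact h2.sub _ H ih
  | directed S hne hd hS _ ih => exact h2.directed _ S hne hd hS ih
  | ext f _ _ ih1 ih2 => exact h3 _ _ f ih1 ih2
  | tree T hT hadj _ ih => exact tree_any h2 (fun G _ K => star_fi h1 G K) T hT hadj ih
  | red R ρ _ ih => exact TreeQ.red_all _ h4 R _ ρ ih

theorem xx_p0 (hTQ : S_TQC) {Γ : Type} [Group Γ] (h : XX Γ) : P0 Γ := by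
  refine xx_star hTQ h Γ (MonoidHom.id Γ) ?_
  have hs : Subsingleton (MonoidHom.id Γ).ker := by
    constructor
    rintro ⟨a, ha⟩ ⟨b, hb⟩
    apply Subtype.ext
    rw [MonoidHom.mem_ker] at ha hb
    exact ha.trans hb.symm
  exact p0_triv _

theorem xx_ks (hTQ : S_TQC) {Γ : Type} [Group Γ] (h : XX Γ) (ht : TF Γ) : KS Γ :=
  xx_p0 hTQ h Γ ht ⊤ inferInstance (⊤ : Subgroup Γ).subtype (⊤ : Subgroup Γ).subtype_injective

/-- The main theorem. -/
theorem xx_main (hTQ : S_TQC) {Γ : Type} [Group Γ] (h : XX Γ)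
    (ht : ∀ (g : Γ) (n : ℕ), 0 < n → g ^ n = 1 → g = 1) (L : Type) [CommRing L] [IsDomain L]
    (hL : IsEuc L) : K1Units L Γ :=
  (WaldL.k1Units_iff L Γ).2 ((xx_ks hTQ h ht).1 L hL)

end Pool.Agent.TQ
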