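import Pool.Agent.Lib.MP_8f66f0_al_TQ.VVD
import Pool.Agent.Lib.MP_8f66f0_al_TQ.YYC

/-! Theorem TQ and Theorem CC, relative version: all extensions of groups with `Hd KS` by the
torsion-free groups of the class `YC` have `Hd KS`. -/

set_option autoImplicit false

namespace Pool.Agent.TQ

open Pool.Agent Pool.Agent.TreeC Pool.Agent.WhVan Pool.Agent.FH Pool.Agent.QT Pool.Agent.CC
  Pool.Agent.Hier Pool.Agent.WaldL

section

variable {P : (G : Type) → [Group G] → Prop}

/-- All extensions of groups of the class by groups with `PC P` have `PC P`. -/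
theorem yy_star' (hP : TClv P) (hTQ : S_TQP P) (hCC : S_CCP P) {Γ : Type} [Group Γ] (h : YC Γ) :
    Star (PC P) Γ := by
  have h1 : TClv (PC P) := pc_tclv hP hTQ
  have h2 : TClv (Star (PC P)) := (star (PC P) h1).1
  have h3 := (star (PC P) h1).2
  have h4 : TCl (Star (PC P)) :=
    ⟨h2.triv, h2.iso, h2.directed, fun G V _ _ _ 𝓗 hH hx _ => h2.tree G V 𝓗 hH hx⟩
  have h5 : S_CCI (Star (PC P)) := cci_star h1 (pc_cci hCC)
  induction h with
  | fin h => exact star_finite' _ h
  | gl2 R m Γ hm hR hΓ => exact gl2_all _ h4 R m hm hR Γ hΓ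
  | gl2Q σ R j Γ hj hΓ => exact TreeQ.glQ_all _ h4 σ R j hj Γ hΓ
  | iso e _ ih => exact h2.iso _ _ e ih
  | sub H _ ih => exact h2.sub _ H ih
  | directed S hne hd hS _ ih => exact h2.directed _ S hne hd hS ih
  | ext f _ _ ih1 ih2 => exact h3 _ _ f ih1 ih2
  | tree T hT hadj _ ih => exact tree_any h2 (fun G _ K => star_fi' h1 G K) T hT hadj ih
  | @cube Γ V _ _ G N hG hN hA _ ih =>
    have _ : Nonempty V := hG.conn.nonempty
    exact h5 Γ V hG.toMed (hG.inv hA) N (hG.dim hN) ih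
  | red R ρ _ ih => exact TreeQ.red_all _ h4 R _ ρ ih

/-- The torsion-free groups of the class `YC` are in `P`. -/
theorem yy_mem (hP : TClv P) (hTQ : S_TQP P) (hCC : S_CCP P) {Γ : Type} [Group Γ] (h : YC Γ)
    (ht : TF Γ) : P Γ := by
  have h1 : PC P Γ := by
    refine yy_star' hP hTQ hCC h Γ (MonoidHom.id Γ) ?_
    have hs : Subsingleton (MonoidHom.id Γ).ker := by
      constructor
      rintro ⟨a, ha⟩ ⟨b, hb⟩
      apply Subtype.ext
      rw [MonoidHom.mem_ker] at ha hb
      exact ha.trans hb.symm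
    exact pc_triv hP _
  exact h1 Γ ht ⊤ inferInstance (⊤ : Subgroup Γ).subtype (⊤ : Subgroup Γ).subtype_injective

end

/-- All extensions of groups with `Hd KS` by torsion-free groups of the class `YC` have `Hd KS`. -/
theorem yy_starKS (hTQ : S_TQC) (hCC : S_CCP (Hd KS)) {Γ : Type} [Group Γ] (h : YC Γ)
    (ht : ∀ (g : Γ) (n : ℕ), 0 < n → g ^ n = 1 → g = 1) : Star (Hd KS) Γ :=
  yy_mem (star (Hd KS) (hd KS ks_tcl)).1 (tqp_star hTQ) (ccp_star (hd KS ks_tcl) hCC) h ht

end Pool.Agent.TQ
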